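import Mathlib

set_option autoImplicit false
set_option linter.unusedSectionVars false

open MeasureTheory Set Filter Topology Metric Module

namespace Pool.Agent.MP_6ded3d_an

variable {E : Type*} [NormedAddCommGroup E] [NormedSpace ℝ E] [FiniteDimensional ℝ E]
  [MeasurableSpace E] [BorelSpace E]
  {F : Type*} [NormedAddCommGroup F] [NormedSpace ℝ F] [FiniteDimensional ℝ F]
  (μ : Measure E) [μ.IsAddHaarMeasure]

/-- `G` is the weak derivative of `u` on the whole space. -/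
def WeakD (u : E → F) (G : E → E →L[ℝ] F) : Prop :=
  ∀ φ : E → ℝ, ContDiff ℝ ((⊤ : ℕ∞) : WithTop ℕ∞) φ → HasCompactSupport φ → ∀ e : E,
    ∫ x, (fderiv ℝ φ x e) • u x ∂μ = - ∫ x, φ x • G x e ∂μ

variable {μ}

lemma integrable_smul_of_compact {φ : E → ℝ} (hφ : Continuous φ) (hc : HasCompactSupport φ)
    {u : E → F} (hu : LocallyIntegrable u μ) : Integrable (fun x => φ x • u x) μ :=
  hu.integrable_smul_left_of_hasCompactSupport hφ hc

lemma locInt_apply {G : E → E →L[ℝ] F} (hG : LocallyIntegrable G μ) (e : E) :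
    LocallyIntegrable (fun x => G x e) μ := by
  intro x
  obtain ⟨s, hs, hsi⟩ := hG x
  exact ⟨s, hs, hsi.apply_continuousLinearMap e⟩

lemma weakD_div {u : E → F} {G : E → E →L[ℝ] F} (hu : Continuous u) (hG : LocallyIntegrable G μ)
    (hW : WeakD μ u G) {K : E → ℝ} (hK : ContDiff ℝ ((⊤ : ℕ∞) : WithTop ℕ∞) K)
    (hKc : HasCompactSupport K) (x : E) :
    ∫ ξ, (fderiv ℝ K ξ (ξ - x) + (finrank ℝ E : ℝ) * K ξ) • u ξ ∂μ
      = - ∫ ξ, K ξ • G ξ (ξ - x) ∂μ := by
  let b := Module.finBasis ℝ E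
  let c : Fin (finrank ℝ E) → (E →L[ℝ] ℝ) := fun j => LinearMap.toContinuousLinearMap (b.coord j)
  have hc : ∀ v : E, ∑ j, c j v • b j = v := fun v => b.sum_repr v
  let φ : Fin (finrank ℝ E) → E → ℝ := fun j ξ => K ξ * c j (ξ - x)
  have hφ : ∀ j, ContDiff ℝ ((⊤ : ℕ∞) : WithTop ℕ∞) (φ j) := fun j =>
    hK.mul ((c j).contDiff.comp (contDiff_id.sub contDiff_const))
  have hφc : ∀ j, HasCompactSupport (φ j) := fun j => hKc.mul_right
  have hKd : ∀ ξ, HasFDerivAt K (fderiv ℝ K ξ) ξ := fun ξ =>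
    (hK.differentiable (by simp)).differentiableAt.hasFDerivAt
  have hfd : ∀ j ξ, fderiv ℝ (φ j) ξ (b j) = fderiv ℝ K ξ (b j) * c j (ξ - x) + K ξ := by
    intro j ξ
    have h1 : HasFDerivAt (fun ξ => c j (ξ - x)) (c j) ξ :=
      (c j).hasFDerivAt.comp ξ ((hasFDerivAt_id ξ).sub_const x)
    have h2 := ((hKd ξ).mul h1).fderiv
    have h3 : c j (b j) = 1 := by
      simp [c]
    show fderiv ℝ (fun ξ => K ξ * c j (ξ - x)) ξ (b j) = _
    rw [show (fun ξ => K ξ * c j (ξ - x)) = (K * fun ξ => c j (ξ - x)) from rfl, h2]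
    simp only [_root_.add_apply, _root_.smul_apply, smul_eq_mul, h3]
    ring
  have key : ∀ j, ∫ ξ, (fderiv ℝ (φ j) ξ (b j)) • u ξ ∂μ = - ∫ ξ, φ j ξ • G ξ (b j) ∂μ :=
    fun j => hW (φ j) (hφ j) (hφc j) (b j)
  have hsum := Finset.sum_congr rfl (fun j (_ : j ∈ Finset.univ) => key j)
  rw [Finset.sum_neg_distrib, ← integral_finsetSum, ← integral_finsetSum] at hsum
  · convert hsum using 1
    · congr 1
      funext ξ
      rw [← Finset.sum_smul]
      congr 1
      simp only [hfd]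
      rw [Finset.sum_add_distrib]
      simp only [Finset.sum_const, Finset.card_univ, Fintype.card_fin, nsmul_eq_mul]
      congr 1
      conv_lhs => rw [← hc (ξ - x)]
      rw [map_sum]
      apply Finset.sum_congr rfl
      intro j _
      rw [map_smul, smul_eq_mul, mul_comm]
    · congr 2
      funext ξ
      simp only [φ, mul_smul]
      rw [← Finset.smul_sum]
      congr 1
      conv_lhs => rw [← hc (ξ - x)]
      rw [map_sum]
      apply Finset.sum_congr rfl
      intro j _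
      rw [map_smul]
  · intro j _
    exact integrable_smul_of_compact (hφ j).continuous (hφc j) (locInt_apply hG (b j))
  · intro j _
    have h1 : Continuous (fun ξ => fderiv ℝ (φ j) ξ (b j)) :=
      ((hφ j).continuous_fderiv (by simp)).clm_apply continuous_const
    refine integrable_smul_of_compact h1 ?_ hu.locallyIntegrable
    exact (hφc j).fderiv_apply (𝕜 := ℝ) (b j)

/-- derivative in the scale -/
lemma hasDerivAt_scale {u : E → F} {G : E → E →L[ℝ] F} (hu : Continuous u)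
    (hG : LocallyIntegrable G μ)
    (hW : WeakD μ u G) {Ψ : E → ℝ} (hΨ : ContDiff ℝ ((⊤ : ℕ∞) : WithTop ℕ∞) Ψ)
    (hΨc : HasCompactSupport Ψ) (x : E) {t₀ : ℝ} (ht₀ : 0 < t₀) :
    HasDerivAt (fun t : ℝ => ∫ ξ, ((t ^ finrank ℝ E)⁻¹ * Ψ (t⁻¹ • (ξ - x))) • u ξ ∂μ)
      ((t₀ ^ (finrank ℝ E + 1))⁻¹ • ∫ ξ, (Ψ (t₀⁻¹ • (ξ - x))) • G ξ (ξ - x) ∂μ) t₀ := by
  set d := finrank ℝ E with hd
  -- the derivative kernel
  let θ : E → ℝ := fun η => fderiv ℝ Ψ η η + d * Ψ η
  have hθ : Continuous θ :=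
    ((hΨ.continuous_fderiv (by simp)).clm_apply continuous_id).add
      (continuous_const.mul hΨ.continuous)
  have hθc : HasCompactSupport θ := by
    apply HasCompactSupport.add
    · have : HasCompactSupport (fderiv ℝ Ψ) := hΨc.fderiv (𝕜 := ℝ)
      refine this.mono' ?_
      intro η hη
      apply subset_tsupport
      intro h0
      apply hη
      simp [h0]
    · exact hΨc.mul_left
  have hΨd : ∀ ξ, HasFDerivAt Ψ (fderiv ℝ Ψ ξ) ξ := fun ξ =>
    (hΨ.differentiable (by simp)).differentiableAt.hasFDerivAt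
  have hderiv : ∀ t : ℝ, 0 < t → ∀ ξ : E,
      HasDerivAt (fun t : ℝ => (t ^ d)⁻¹ * Ψ (t⁻¹ • (ξ - x)))
        (-((t ^ (d + 1))⁻¹ * θ (t⁻¹ • (ξ - x)))) t := by
    intro t ht ξ
    have h1 : HasDerivAt (fun t : ℝ => (t ^ d)⁻¹) (-(d * t ^ (d - 1)) / (t ^ d) ^ 2) t :=
      (hasDerivAt_pow d t).inv (by positivity)
    have h2 : HasDerivAt (fun t : ℝ => t⁻¹ • (ξ - x)) ((-(t ^ 2)⁻¹) • (ξ - x)) t :=
      (hasDerivAt_inv ht.ne').smul_const (ξ - x)
    have h3 := (hΨd (t⁻¹ • (ξ - x))).comp_hasDerivAt t h2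
    have h4 : HasDerivAt (fun t : ℝ => (t ^ d)⁻¹ * Ψ (t⁻¹ • (ξ - x)))
        (-(d * t ^ (d - 1)) / (t ^ d) ^ 2 * Ψ (t⁻¹ • (ξ - x)) +
          (t ^ d)⁻¹ * (fderiv ℝ Ψ (t⁻¹ • (ξ - x))) ((-(t ^ 2)⁻¹) • (ξ - x))) t := h1.mul h3
    refine h4.congr_deriv ?_
    simp only [θ, map_smul, smul_eq_mul]
    have hdd : (d : ℝ) * t ^ (d - 1) / (t ^ d) ^ 2 = d * (t ^ (d + 1))⁻¹ := by
      rcases Nat.eq_zero_or_pos d with h0 | h0
      · simp [h0]
      · have : t ^ d = t ^ (d - 1) * t := by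
          rw [← pow_succ]; congr 1; omega
        have e : t ^ (d + 1) = t ^ (d - 1) * t ^ 2 := by
          rw [← pow_add]; congr 1; omega
        rw [e, this]
        field_simp
    rw [neg_div, hdd]
    rw [pow_succ]
    field_simp
    ring
  -- compact set containing all the supports
  obtain ⟨R, hR0, hR⟩ : ∃ R : ℝ, 0 < R ∧ ∀ η, R < ‖η‖ → θ η = 0 := by
    obtain ⟨R, hR⟩ := hθc.isBounded.subset_closedBall (0 : E)
    refine ⟨max R 1, by positivity, fun η hη => ?_⟩
    by_contra hne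
    have := hR (subset_tsupport _ (Function.mem_support.mpr hne))
    rw [mem_closedBall, dist_zero_right] at this
    exact absurd (lt_of_le_of_lt (le_max_left R 1) hη) (not_lt.mpr this)
  obtain ⟨C, hC⟩ := hθ.bounded_above_of_compact_support hθc
  have hC0 : 0 ≤ C := le_trans (norm_nonneg _) (hC 0)
  have hs : Ioo (t₀ / 2) (2 * t₀) ∈ 𝓝 t₀ := Ioo_mem_nhds (by linarith) (by linarith)
  have hK : ∀ t : ℝ, 0 < t → Continuous (fun ξ => (t ^ d)⁻¹ * Ψ (t⁻¹ • (ξ - x))) := by
    intro t _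
    exact continuous_const.mul (hΨ.continuous.comp
      (continuous_const.smul (continuous_id.sub continuous_const)))
  have hmeas := fun t ht => ((hK t ht).smul hu).aestronglyMeasurable (μ := μ)
  have hcomp : ∀ t : ℝ, 0 < t → HasCompactSupport (fun ξ => (t ^ d)⁻¹ * Ψ (t⁻¹ • (ξ - x))) := by
    intro t ht
    apply HasCompactSupport.mul_left
    have e1 : HasCompactSupport (fun ξ => Ψ (t⁻¹ • ξ)) := hΨc.comp_smul (inv_ne_zero ht.ne')
    exact e1.comp_homeomorph (Homeomorph.subRight x)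
  have h := hasDerivAt_integral_of_dominated_loc_of_deriv_le (μ := μ) (𝕜 := ℝ)
    (F := fun (t : ℝ) (ξ : E) => ((t ^ d)⁻¹ * Ψ (t⁻¹ • (ξ - x))) • u ξ)
    (F' := fun (t : ℝ) (ξ : E) => (-((t ^ (d + 1))⁻¹ * θ (t⁻¹ • (ξ - x)))) • u ξ)
    (x₀ := t₀) (s := Ioo (t₀ / 2) (2 * t₀))
    (bound := fun ξ => (closedBall x (2 * t₀ * R)).indicator
      (fun ξ => (((t₀ / 2) ^ (d + 1))⁻¹ * C) * ‖u ξ‖) ξ) hs ?_ ?_ ?_ ?_ ?_ ?_
  · have h2 := h.2
    convert h2 using 1
    have hdiv := weakD_div hu hG hW (K := fun ξ => Ψ (t₀⁻¹ • (ξ - x)))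
      (hΨ.comp (contDiff_const.smul (contDiff_id.sub contDiff_const))) ?_ x
    · rw [← neg_eq_iff_eq_neg] at hdiv
      rw [← hdiv, ← integral_neg, ← integral_smul]
      congr 1
      funext ξ
      have hfd : fderiv ℝ (fun ξ => Ψ (t₀⁻¹ • (ξ - x))) ξ (ξ - x)
          = fderiv ℝ Ψ (t₀⁻¹ • (ξ - x)) (t₀⁻¹ • (ξ - x)) := by
        have e1 : HasFDerivAt (fun ξ : E => t₀⁻¹ • (ξ - x))
            (t₀⁻¹ • ContinuousLinearMap.id ℝ E) ξ :=
          ((hasFDerivAt_id ξ).sub_const x).const_smul _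
        have e2 := ((hΨd (t₀⁻¹ • (ξ - x))).comp ξ e1).fderiv
        rw [show (fun ξ => Ψ (t₀⁻¹ • (ξ - x))) = Ψ ∘ (fun ξ => t₀⁻¹ • (ξ - x)) from rfl, e2]
        simp
      rw [hfd, smul_neg, smul_smul, ← neg_smul]
    · have e1 : HasCompactSupport (fun ξ => Ψ (t₀⁻¹ • ξ)) := hΨc.comp_smul (inv_ne_zero ht₀.ne')
      exact e1.comp_homeomorph (Homeomorph.subRight x)
  · filter_upwards [hs] with t ht
    exact hmeas t (by have := ht.1; linarith)
  · exact integrable_smul_of_compact (hK t₀ ht₀) (hcomp t₀ ht₀) hu.locallyIntegrable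
  · apply Continuous.aestronglyMeasurable
    exact (continuous_const.mul (hθ.comp
      (continuous_const.smul (continuous_id.sub continuous_const)))).neg.smul hu
  · refine Eventually.of_forall fun ξ t ht => ?_
    have ht0 : 0 < t := by have := ht.1; linarith
    by_cases hξ : ξ ∈ closedBall x (2 * t₀ * R)
    · rw [indicator_of_mem hξ, norm_smul]
      apply mul_le_mul_of_nonneg_right _ (norm_nonneg _)
      rw [norm_neg, norm_mul, norm_inv, norm_pow, Real.norm_of_nonneg ht0.le]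
      apply mul_le_mul _ (hC _) (norm_nonneg _) (by positivity)
      apply inv_anti₀ (by positivity)
      exact pow_le_pow_left₀ (by positivity) ht.1.le _
    · rw [indicator_of_notMem hξ]
      have : θ (t⁻¹ • (ξ - x)) = 0 := by
        apply hR
        rw [norm_smul, norm_inv, Real.norm_of_nonneg ht0.le]
        rw [mem_closedBall, not_le, dist_eq_norm] at hξ
        rw [← div_eq_inv_mul, lt_div_iff₀ ht0]
        calc R * t < R * (2 * t₀) := by
              apply mul_lt_mul_of_pos_left ht.2 hR0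
          _ = 2 * t₀ * R := by ring
          _ < _ := hξ
      simp [this]
  · rw [integrable_indicator_iff measurableSet_closedBall]
    apply Integrable.const_mul
    exact (hu.norm.continuousOn.integrableOn_compact (isCompact_closedBall _ _))
  · refine Eventually.of_forall fun ξ t ht => ?_
    have ht0 : 0 < t := by have := ht.1; linarith
    exact (hderiv t ht0 ξ).smul_const (u ξ)

end Pool.Agent.MP_6ded3d_an
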