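import Mathlib
import Pool.Agent.MP_6ded3d_an.WeakD

set_option autoImplicit false
set_option linter.unusedSectionVars false

open MeasureTheory Set Filter Topology Metric Module

namespace Pool.Agent.MP_6ded3d_an

variable {E : Type*} [NormedAddCommGroup E] [NormedSpace ℝ E] [FiniteDimensional ℝ E]
  [MeasurableSpace E] [BorelSpace E]
  {F : Type*} [NormedAddCommGroup F] [NormedSpace ℝ F] [FiniteDimensional ℝ F]
  {μ : Measure E} [μ.IsAddHaarMeasure]

lemma scale_estimate {u : E → F} {G : E → E →L[ℝ] F} (hu : Continuous u)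
    (hG : LocallyIntegrable G μ) (hW : WeakD μ u G) {Ψ : E → ℝ}
    (hΨ : ContDiff ℝ ((⊤ : ℕ∞) : WithTop ℕ∞) Ψ) (hΨc : HasCompactSupport Ψ)
    {ρ : ℝ} (hρ : 0 < ρ) (hsupp : ∀ η, ρ < ‖η‖ → Ψ η = 0) (hΨ1 : ∀ η, |Ψ η| ≤ 1)
    (x : E) {B : ℝ} (hB : ∀ t ∈ Ioc (0 : ℝ) 1,
      ∫ ξ in closedBall x (t * ρ), ‖G ξ‖ ∂μ ≤ B * t ^ finrank ℝ E) :
    ‖(∫ η, Ψ η ∂μ) • u x - ∫ η, Ψ η • u (x + η) ∂μ‖ ≤ ρ * B := by
  set d := finrank ℝ E with hd
  have : CompleteSpace F := FiniteDimensional.complete ℝ F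
  let H : ℝ → F := fun t => ∫ η, Ψ η • u (x + t • η) ∂μ
  have hHcont : Continuous H := by
    have h1 : Continuous (fun t : ℝ => ∫ η in closedBall (0 : E) ρ, Ψ η • u (x + t • η) ∂μ) := by
      apply continuous_parametric_integral_of_continuous
      · have : Continuous (fun p : ℝ × E => Ψ p.2 • u (x + p.1 • p.2)) :=
          (hΨ.continuous.comp continuous_snd).smul
            (hu.comp (continuous_const.add (continuous_fst.smul continuous_snd)))
        exact this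
      · exact isCompact_closedBall _ _
    convert h1 using 2 with t
    simp only [H]
    rw [setIntegral_eq_integral_of_forall_compl_eq_zero]
    intro η hη
    rw [mem_closedBall, dist_zero_right, not_le] at hη
    rw [hsupp η hη, zero_smul]
  have hH0 : H 0 = (∫ η, Ψ η ∂μ) • u x := by
    simp only [H, zero_smul, add_zero]
    rw [integral_smul_const]
  have hHt : ∀ t : ℝ, 0 < t →
      H t = ∫ ξ, ((t ^ d)⁻¹ * Ψ (t⁻¹ • (ξ - x))) • u ξ ∂μ := by
    intro t ht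
    have e1 : ∫ ξ, ((t ^ d)⁻¹ * Ψ (t⁻¹ • (ξ - x))) • u ξ ∂μ
        = ∫ ξ, ((t ^ d)⁻¹ * Ψ (t⁻¹ • ξ)) • u (x + t • (t⁻¹ • ξ)) ∂μ := by
      rw [← integral_sub_right_eq_self
        (fun ξ => ((t ^ d)⁻¹ * Ψ (t⁻¹ • ξ)) • u (x + t • (t⁻¹ • ξ))) x]
      congr 1
      funext ξ
      rw [smul_inv_smul₀ ht.ne', add_sub_cancel]
    rw [e1, Measure.integral_comp_inv_smul_of_nonneg μ
      (fun η => ((t ^ d)⁻¹ * Ψ η) • u (x + t • η)) ht.le]
    simp only [mul_smul]
    rw [integral_smul, smul_smul, mul_inv_cancel₀ (by positivity), one_smul]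
  have hderiv : ∀ t : ℝ, 0 < t → HasDerivAt H
      ((t ^ (d + 1))⁻¹ • ∫ ξ, (Ψ (t⁻¹ • (ξ - x))) • G ξ (ξ - x) ∂μ) t := by
    intro t ht
    refine (hasDerivAt_scale hu hG hW hΨ hΨc x ht).congr_of_eventuallyEq ?_
    filter_upwards [Ioi_mem_nhds ht] with s hs
    exact hHt s hs
  have hbound : ∀ t ∈ Ioc (0 : ℝ) 1,
      ‖(t ^ (d + 1))⁻¹ • ∫ ξ, (Ψ (t⁻¹ • (ξ - x))) • G ξ (ξ - x) ∂μ‖ ≤ ρ * B := by
    intro t ht
    have ht0 : 0 < t := ht.1
    rw [norm_smul, norm_inv, norm_pow, Real.norm_of_nonneg ht0.le]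
    have h1 : ∫ ξ, (Ψ (t⁻¹ • (ξ - x))) • G ξ (ξ - x) ∂μ =
        ∫ ξ in closedBall x (t * ρ), (Ψ (t⁻¹ • (ξ - x))) • G ξ (ξ - x) ∂μ := by
      rw [setIntegral_eq_integral_of_forall_compl_eq_zero]
      intro ξ hξ
      rw [mem_closedBall, not_le, dist_eq_norm] at hξ
      rw [hsupp, zero_smul]
      rw [norm_smul, norm_inv, Real.norm_of_nonneg ht0.le, ← div_eq_inv_mul, lt_div_iff₀ ht0]
      linarith
    have hGi : IntegrableOn (fun ξ => ‖G ξ‖) (closedBall x (t * ρ)) μ :=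
      (hG.integrableOn_isCompact (isCompact_closedBall _ _)).norm
    have h2 : ‖∫ ξ, (Ψ (t⁻¹ • (ξ - x))) • G ξ (ξ - x) ∂μ‖ ≤ (t * ρ) * (B * t ^ d) := by
      rw [h1]
      calc _ ≤ ∫ ξ in closedBall x (t * ρ), ‖(Ψ (t⁻¹ • (ξ - x))) • G ξ (ξ - x)‖ ∂μ :=
            norm_integral_le_integral_norm _
        _ ≤ ∫ ξ in closedBall x (t * ρ), (t * ρ) * ‖G ξ‖ ∂μ := by
            apply integral_mono_of_nonneg
            · exact Eventually.of_forall fun ξ => norm_nonneg _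
            · exact hGi.const_mul _
            · rw [EventuallyLE, ae_restrict_iff' measurableSet_closedBall]
              refine Eventually.of_forall fun ξ hξ => ?_
              rw [mem_closedBall, dist_eq_norm] at hξ
              rw [norm_smul]
              calc _ ≤ 1 * (‖G ξ‖ * ‖ξ - x‖) := by
                    apply mul_le_mul _ ((G ξ).le_opNorm _) (norm_nonneg _) zero_le_one
                    exact hΨ1 _
                _ ≤ 1 * (‖G ξ‖ * (t * ρ)) := by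
                    gcongr
                _ = _ := by ring
        _ = (t * ρ) * ∫ ξ in closedBall x (t * ρ), ‖G ξ‖ ∂μ := integral_const_mul _ _
        _ ≤ _ := by
            apply mul_le_mul_of_nonneg_left (hB t ht) (by positivity)
    calc _ ≤ (t ^ (d + 1))⁻¹ * ((t * ρ) * (B * t ^ d)) := by
          apply mul_le_mul_of_nonneg_left h2 (by positivity)
      _ = ρ * B := by
          rw [pow_succ]
          field_simp
  have hfin : ∀ δ ∈ Ioc (0 : ℝ) 1, ‖H δ - H 1‖ ≤ (ρ * B) * 1 := by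
    intro δ hδ
    have hBnn : 0 ≤ ρ * B := (norm_nonneg _).trans (hbound 1 ⟨zero_lt_one, le_refl _⟩)
    have := (convex_Ioc (0 : ℝ) 1).norm_image_sub_le_of_norm_hasDerivWithin_le
      (f := H) (f' := fun t => (t ^ (d + 1))⁻¹ • ∫ ξ, (Ψ (t⁻¹ • (ξ - x))) • G ξ (ξ - x) ∂μ)
      (C := ρ * B) (fun t ht => (hderiv t ht.1).hasDerivWithinAt) hbound
      (x := 1) (y := δ) ⟨zero_lt_one, le_refl _⟩ hδ
    refine this.trans ?_
    apply mul_le_mul_of_nonneg_left _ hBnn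
    rw [Real.norm_eq_abs, abs_le]
    constructor <;> linarith [hδ.1, hδ.2]
  have hlim : Tendsto (fun δ => ‖H δ - H 1‖) (𝓝[>] 0) (𝓝 ‖H 0 - H 1‖) := by
    apply Tendsto.mono_left _ nhdsWithin_le_nhds
    exact ((hHcont.sub continuous_const).norm).tendsto 0
  have := le_of_tendsto hlim (by
    filter_upwards [Ioc_mem_nhdsGT zero_lt_one] with δ hδ
    exact hfin δ hδ)
  rw [hH0, mul_one] at this
  simpa [H] using this

end Pool.Agent.MP_6ded3d_an
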