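import Mathlib
import Pool.Agent.MP_6ded3d_an.WeakD2

set_option autoImplicit false
set_option linter.unusedSectionVars false

open MeasureTheory Set Filter Topology Metric Module

namespace Pool.Agent.MP_6ded3d_an

variable {E : Type*} [NormedAddCommGroup E] [NormedSpace ℝ E] [FiniteDimensional ℝ E]
  [MeasurableSpace E] [BorelSpace E]
  {F : Type*} [NormedAddCommGroup F] [NormedSpace ℝ F] [FiniteDimensional ℝ F]
  {μ : Measure E} [μ.IsAddHaarMeasure]

lemma WeakD.sub_affine {u : E → F} {G : E → E →L[ℝ] F} (hu : Continuous u)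
    (hG : LocallyIntegrable G μ) (hW : WeakD μ u G) (c : F) (A : E →L[ℝ] F) (x : E) :
    WeakD μ (fun ξ => u ξ - (c + A (ξ - x))) (fun ξ => G ξ - A) := by
  intro φ hφ hφc e
  have hac : Continuous (fun ξ => c + A (ξ - x)) :=
    continuous_const.add (A.continuous.comp (continuous_id.sub continuous_const))
  have had : ∀ ξ, HasFDerivAt (fun ξ => c + A (ξ - x)) A ξ := fun ξ =>
    (A.hasFDerivAt.comp ξ ((hasFDerivAt_id ξ).sub_const x)).const_add c
  have hfd : ∀ ξ, fderiv ℝ (fun ξ => c + A (ξ - x)) ξ = A := fun ξ => (had ξ).fderiv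
  have hφ' : Continuous (fun ξ => fderiv ℝ φ ξ e) :=
    (hφ.continuous_fderiv (by simp)).clm_apply continuous_const
  have hφ'c : HasCompactSupport (fun ξ => fderiv ℝ φ ξ e) := hφc.fderiv_apply (𝕜 := ℝ) e
  have i1 : Integrable (fun ξ => fderiv ℝ φ ξ e • u ξ) μ :=
    integrable_smul_of_compact hφ' hφ'c hu.locallyIntegrable
  have i2 : Integrable (fun ξ => fderiv ℝ φ ξ e • (c + A (ξ - x))) μ :=
    integrable_smul_of_compact hφ' hφ'c hac.locallyIntegrable
  have i3 : Integrable (fun ξ => φ ξ • G ξ e) μ :=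
    integrable_smul_of_compact hφ.continuous hφc (locInt_apply hG e)
  have i4 : Integrable (fun ξ => φ ξ • A e) μ :=
    (hφ.continuous.integrable_of_hasCompactSupport hφc).smul_const _
  have i5 : Integrable (fun ξ => φ ξ • (c + A (ξ - x))) μ :=
    integrable_smul_of_compact hφ.continuous hφc hac.locallyIntegrable
  have key := integral_smul_fderiv_eq_neg_fderiv_smul_of_integrable (μ := μ) (𝕜 := ℝ)
    (f := φ) (g := fun ξ => c + A (ξ - x)) (v := e) i2 (by simp only [hfd]; exact i4) i5
    (fun ξ _ => (hφ.differentiable (by simp)).differentiableAt)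
    (fun ξ _ => (had ξ).differentiableAt)
  simp only [hfd] at key
  simp only [smul_sub, _root_.sub_apply]
  rw [integral_sub i1 i2, hW φ hφ hφc e, integral_sub i3 i4, key]
  abel

/-- the control of the oscillation of `G` around the point `x` -/
def Ctrl (μ : Measure E) (G : E → E →L[ℝ] F) (x : E) (R ε : ℝ) : Prop :=
  ∀ r ∈ Ioc (0 : ℝ) R, ∫ ξ in closedBall x r, ‖G ξ - G x‖ ∂μ ≤ ε * r ^ finrank ℝ E

variable (μ) in
lemma main_estimate (F : Type*) [NormedAddCommGroup F] [NormedSpace ℝ F]
    [FiniteDimensional ℝ F] : ∃ C : ℝ, 0 < C ∧ ∀ (u : E → F) (G : E → E →L[ℝ] F), Continuous u →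
    LocallyIntegrable G μ → WeakD μ u G → ∀ (x y : E) (R ε : ℝ), 0 ≤ ε → Ctrl μ G x R ε →
    Ctrl μ G y R ε → 2 * ‖y - x‖ ≤ R → ‖u y - u x - G x (y - x)‖ ≤ C * ε * ‖y - x‖ := by
  set d := finrank ℝ E with hd
  let ψ : ContDiffBump (0 : E) := ⟨1 / 2, 1, by norm_num, by norm_num⟩
  set I : ℝ := ∫ η, ψ η ∂μ with hI
  have hIpos : 0 < I := ψ.integral_pos
  refine ⟨(1 + 2 * (2 ^ d * (1 + (1 + 2 ^ d)))) / I, by positivity, ?_⟩
  intro u G hu hG hW x y R ε hε hx hy hR
  rcases eq_or_ne y x with rfl | hne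
  · simp
  set r : ℝ := ‖y - x‖ with hr
  have hr0 : 0 < r := by rw [hr, norm_pos_iff]; exact sub_ne_zero.mpr hne
  set v : E → F := fun ξ => u ξ - (u x + G x (ξ - x)) with hv
  set g : E → E →L[ℝ] F := fun ξ => G ξ - G x with hg
  have hvc : Continuous v := by
    have : Continuous (fun ξ => u x + G x (ξ - x)) :=
      continuous_const.add ((G x).continuous.comp (continuous_id.sub continuous_const))
    exact hu.sub this
  have hgi : LocallyIntegrable g μ := hG.sub (locallyIntegrable_const _)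
  have hWv : WeakD μ v g := hW.sub_affine hu hG (u x) (G x) x
  have hvx : v x = 0 := by simp [v]
  -- facts about the bump
  have hψ : ContDiff ℝ ((⊤ : ℕ∞) : WithTop ℕ∞) ψ := ψ.contDiff
  have hψ0 : ∀ η : E, 1 < ‖η‖ → ψ η = 0 := by
    intro η hη
    apply ψ.zero_of_le_dist
    rw [dist_zero_right]
    exact hη.le
  have hψ1 : ∀ η : E, |ψ η| ≤ 1 := by
    intro η
    rw [abs_of_nonneg ψ.nonneg]
    exact ψ.le_one
  -- first bump, around x
  let Ψ₁ : E → ℝ := fun η => ψ (r⁻¹ • η)
  let Ψ₂ : E → ℝ := fun η => ψ (r⁻¹ • (η + (y - x)))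
  have h₁s : ContDiff ℝ ((⊤ : ℕ∞) : WithTop ℕ∞) Ψ₁ :=
    hψ.comp (contDiff_const.smul contDiff_id)
  have h₂s : ContDiff ℝ ((⊤ : ℕ∞) : WithTop ℕ∞) Ψ₂ :=
    hψ.comp (contDiff_const.smul (contDiff_id.add contDiff_const))
  have h₁c : HasCompactSupport Ψ₁ := ψ.hasCompactSupport.comp_smul (inv_ne_zero hr0.ne')
  have h₂c : HasCompactSupport Ψ₂ :=
    h₁c.comp_homeomorph (Homeomorph.addRight (y - x))
  have hI₁ : ∫ η, Ψ₁ η ∂μ = r ^ d * I := by
    have := Measure.integral_comp_inv_smul_of_nonneg μ (fun η => ψ η) hr0.le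
    rw [smul_eq_mul] at this
    exact this
  have hI₂ : ∫ η, Ψ₂ η ∂μ = r ^ d * I := by
    rw [← hI₁]
    exact integral_add_right_eq_self Ψ₁ (y - x)
  have hV : ∫ η, Ψ₂ η • v (y + η) ∂μ = ∫ η, Ψ₁ η • v (x + η) ∂μ := by
    rw [← integral_add_right_eq_self (fun η => Ψ₁ η • v (x + η)) (y - x)]
    congr 1
    funext η
    simp only [Ψ₁, Ψ₂]
    congr 2
    abel
  -- estimate at x
  have est₁ := scale_estimate hvc hgi hWv h₁s h₁c hr0 (fun η hη => by
      apply hψ0
      rw [norm_smul, norm_inv, Real.norm_of_nonneg hr0.le, ← div_eq_inv_mul, lt_div_iff₀ hr0]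
      linarith) (fun η => hψ1 _) x (B := ε * r ^ d) (by
      intro t ht
      have := hx (t * r) ⟨mul_pos ht.1 hr0, by nlinarith [ht.2]⟩
      rw [mul_pow] at this
      calc _ ≤ ε * (t ^ d * r ^ d) := this
        _ = _ := by ring)
  -- comparison of the values of G
  have hGyx : ‖G y - G x‖ * (r ^ d * μ.real (closedBall (0 : E) 1)) ≤ ε * r ^ d * (1 + 2 ^ d) := by
    have hsub : closedBall x r ⊆ closedBall y (2 * r) := by
      apply closedBall_subset_closedBall'
      rw [dist_comm, dist_eq_norm, ← hr]; linarith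
    have hvol : μ.real (closedBall x r) = r ^ d * μ.real (closedBall (0 : E) 1) :=
      Measure.addHaar_real_closedBall' μ x hr0.le
    have i1 : IntegrableOn (fun ξ => ‖G ξ - G x‖) (closedBall x r) μ :=
      (hgi.integrableOn_isCompact (isCompact_closedBall _ _)).norm
    have i2 : IntegrableOn (fun ξ => ‖G ξ - G y‖) (closedBall y (2 * r)) μ :=
      ((hG.sub (locallyIntegrable_const _)).integrableOn_isCompact (isCompact_closedBall _ _)).norm
    have i2' := i2.mono_set hsub
    calc ‖G y - G x‖ * (r ^ d * μ.real (closedBall (0 : E) 1))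
        = ∫ ξ in closedBall x r, ‖G y - G x‖ ∂μ := by
          rw [setIntegral_const, hvol, smul_eq_mul, mul_comm]
      _ ≤ ∫ ξ in closedBall x r, (‖G ξ - G x‖ + ‖G ξ - G y‖) ∂μ := by
          apply integral_mono_of_nonneg
          · exact Eventually.of_forall fun ξ => norm_nonneg _
          · exact i1.add i2'
          · refine Eventually.of_forall fun ξ => ?_
            have : G y - G x = (G ξ - G x) - (G ξ - G y) := by abel
            rw [this]
            exact norm_sub_le _ _
      _ = (∫ ξ in closedBall x r, ‖G ξ - G x‖ ∂μ) + ∫ ξ in closedBall x r, ‖G ξ - G y‖ ∂μ :=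
          integral_add i1 i2'
      _ ≤ ε * r ^ d + ε * (2 * r) ^ d := by
          apply add_le_add
          · exact hx r ⟨hr0, by linarith⟩
          · calc _ ≤ ∫ ξ in closedBall y (2 * r), ‖G ξ - G y‖ ∂μ := by
                  apply setIntegral_mono_set i2
                  · exact Eventually.of_forall fun ξ => norm_nonneg _
                  · exact Eventually.of_forall hsub
              _ ≤ _ := hy (2 * r) ⟨by positivity, hR⟩
      _ = _ := by rw [mul_pow]; ring
  -- estimate at y
  have est₂ := scale_estimate hvc hgi hWv h₂s h₂c (ρ := 2 * r) (by positivity) (fun η hη => by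
      apply hψ0
      rw [norm_smul, norm_inv, Real.norm_of_nonneg hr0.le, ← div_eq_inv_mul, lt_div_iff₀ hr0]
      have : ‖η‖ ≤ ‖η + (y - x)‖ + ‖y - x‖ := by
        calc ‖η‖ = ‖(η + (y - x)) - (y - x)‖ := by congr 1; abel
          _ ≤ _ := norm_sub_le _ _
      rw [← hr] at this
      linarith) (fun η => hψ1 _) y (B := 2 ^ d * (ε * r ^ d * (1 + (1 + 2 ^ d)))) (by
      intro t ht
      have ht0 : 0 < t := ht.1
      have h1 := hy (t * (2 * r)) ⟨by positivity, by nlinarith [ht.2]⟩
      have hvol : μ.real (closedBall y (t * (2 * r)))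
          = (t * (2 * r)) ^ d * μ.real (closedBall (0 : E) 1) :=
        Measure.addHaar_real_closedBall' μ y (by positivity)
      have i2 : IntegrableOn (fun ξ => ‖G ξ - G y‖) (closedBall y (t * (2 * r))) μ :=
        ((hG.sub (locallyIntegrable_const _)).integrableOn_isCompact
          (isCompact_closedBall _ _)).norm
      have i3 : IntegrableOn (fun _ : E => ‖G y - G x‖) (closedBall y (t * (2 * r))) μ :=
        integrableOn_const (isCompact_closedBall _ _).measure_ne_top
      calc _ ≤ ∫ ξ in closedBall y (t * (2 * r)), (‖G ξ - G y‖ + ‖G y - G x‖) ∂μ := by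
            apply integral_mono_of_nonneg
            · exact Eventually.of_forall fun ξ => norm_nonneg _
            · exact i2.add i3
            · refine Eventually.of_forall fun ξ => ?_
              have : g ξ = (G ξ - G y) + (G y - G x) := by simp only [g]; abel
              simp only [this]
              exact norm_add_le _ _
        _ = (∫ ξ in closedBall y (t * (2 * r)), ‖G ξ - G y‖ ∂μ)
              + (t * (2 * r)) ^ d * μ.real (closedBall (0 : E) 1) * ‖G y - G x‖ := by
            rw [integral_add i2 i3, setIntegral_const, hvol, smul_eq_mul]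
        _ ≤ ε * (t * (2 * r)) ^ d + (t * 2) ^ d * (ε * r ^ d * (1 + 2 ^ d)) := by
            apply add_le_add h1
            calc (t * (2 * r)) ^ d * μ.real (closedBall (0 : E) 1) * ‖G y - G x‖
                = (t * 2) ^ d * (‖G y - G x‖ * (r ^ d * μ.real (closedBall (0 : E) 1))) := by
                  rw [← mul_assoc t 2 r, mul_pow (t * 2) r]; ring
              _ ≤ _ := mul_le_mul_of_nonneg_left hGyx (by positivity)
        _ = _ := by simp only [mul_pow]; ring)
  rw [hI₁, hvx, smul_zero, zero_sub, norm_neg] at est₁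
  rw [hI₂, hV] at est₂
  have hfinal : ‖(r ^ d * I) • v y‖ ≤ r * (ε * r ^ d) +
      2 * r * (2 ^ d * (ε * r ^ d * (1 + (1 + 2 ^ d)))) := by
    calc ‖(r ^ d * I) • v y‖ = ‖((r ^ d * I) • v y - ∫ η, Ψ₁ η • v (x + η) ∂μ)
          + ∫ η, Ψ₁ η • v (x + η) ∂μ‖ := by rw [sub_add_cancel]
      _ ≤ _ := norm_add_le _ _
      _ ≤ _ := by linarith
  rw [norm_smul, Real.norm_of_nonneg (by positivity)] at hfinal
  have hvy : v y = u y - u x - G x (y - x) := by simp only [v]; abel
  rw [← hvy]
  have hrd : 0 < r ^ d * I := by positivity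
  rw [← mul_le_mul_iff_right₀ hrd]
  calc _ ≤ _ := hfinal
    _ = _ := by field_simp

end Pool.Agent.MP_6ded3d_an
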