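import Mathlib
import Pool.Agent.MP_6ded3d_an.WeakD3

set_option autoImplicit false
set_option linter.unusedSectionVars false

open MeasureTheory Set Filter Topology Metric Module

namespace Pool.Agent.MP_6ded3d_an

variable {E : Type*} [NormedAddCommGroup E] [NormedSpace ℝ E] [FiniteDimensional ℝ E]
  [MeasurableSpace E] [BorelSpace E]
  {F : Type*} [NormedAddCommGroup F] [NormedSpace ℝ F] [FiniteDimensional ℝ F]
  {μ : Measure E} [μ.IsAddHaarMeasure]

lemma stronglyMeasurable_osc {G : E → E →L[ℝ] F} (hG : StronglyMeasurable G) (δ : ℝ) :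
    StronglyMeasurable (fun x => ∫ ξ in closedBall x δ, ‖G ξ - G x‖ ∂μ) := by
  have hset : MeasurableSet {p : E × E | dist p.2 p.1 ≤ δ} :=
    (isClosed_le (continuous_snd.dist continuous_fst) continuous_const).measurableSet
  have h1 : StronglyMeasurable (fun p : E × E => {p : E × E | dist p.2 p.1 ≤ δ}.indicator
      (fun p => ‖G p.2 - G p.1‖) p) :=
    (((hG.comp_measurable measurable_snd).sub (hG.comp_measurable measurable_fst)).norm).indicator
      hset
  have h2 := h1.integral_prod_right' (ν := μ)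
  convert h2 using 2 with x
  rw [← integral_indicator measurableSet_closedBall]
  congr 1

lemma egorov_sets {G : E → E →L[ℝ] F} (hGm : StronglyMeasurable G) (hG : LocallyIntegrable G μ)
    {s : Set E} (hs : MeasurableSet s) (hfin : μ s ≠ ⊤) {δ : ℝ} (hδ : 0 < δ) :
    ∃ t ⊆ s, MeasurableSet t ∧ μ t ≤ ENNReal.ofReal δ ∧
      ∀ ε > 0, ∃ R > 0, ∀ x ∈ s \ t, Ctrl μ G x R ε := by
  set d := finrank ℝ E with hd
  set w : ℝ := μ.real (closedBall (0 : E) 1) with hw
  have hw0 : 0 < w := by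
    rw [hw, measureReal_def]
    exact ENNReal.toReal_pos (measure_closedBall_pos μ _ one_pos).ne'
      (isCompact_closedBall _ _).measure_ne_top
  let m : ℕ → E → ℝ := fun j x => (((1 / 2 : ℝ) ^ j) ^ d * w)⁻¹ *
    ∫ ξ in closedBall x ((1 / 2) ^ j), ‖G ξ - G x‖ ∂μ
  have hm : ∀ j, StronglyMeasurable (m j) := fun j => (stronglyMeasurable_osc hGm _).const_mul _
  have hlim : ∀ᵐ x ∂μ, x ∈ s → Tendsto (fun j => m j x) atTop (𝓝 (0 : ℝ)) := by
    filter_upwards [IsUnifLocDoublingMeasure.ae_tendsto_average_norm_sub μ hG 1] with x hx _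
    have h1 := hx (l := atTop) (fun _ : ℕ => x) (fun j : ℕ => (1 / 2 : ℝ) ^ j) ?_ ?_
    · refine h1.congr fun j => ?_
      simp only [m]
      rw [setAverage_eq, Measure.addHaar_real_closedBall' μ x (by positivity), smul_eq_mul]
    · rw [tendsto_nhdsWithin_iff]
      refine ⟨tendsto_pow_atTop_nhds_zero_of_lt_one (by norm_num) (by norm_num), ?_⟩
      exact Eventually.of_forall fun j => by simp
    · refine Eventually.of_forall fun j => ?_
      apply mem_closedBall_self
      positivity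
  obtain ⟨t, hts, htm, htμ, hunif⟩ := tendstoUniformlyOn_of_ae_tendsto hm
    stronglyMeasurable_const hs hfin hlim hδ
  refine ⟨t, hts, htm, htμ, ?_⟩
  intro ε hε
  have hε' : 0 < ε / (2 ^ d * w) := by positivity
  obtain ⟨J, hJ⟩ := eventually_atTop.mp ((Metric.tendstoUniformlyOn_iff.mp hunif) _ hε')
  refine ⟨(1 / 2) ^ J, by positivity, ?_⟩
  intro x hx r hr
  have hr0 : 0 < r := hr.1
  have hr1 : r ≤ 1 := hr.2.trans (pow_le_one₀ (by norm_num) (by norm_num))
  obtain ⟨n, hn1, hn2⟩ := exists_nat_pow_near_of_lt_one hr0 hr1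
    (show (0 : ℝ) < 1 / 2 by norm_num) (show (1 / 2 : ℝ) < 1 by norm_num)
  have hnJ : J ≤ n := by
    have h3 : (1 / 2 : ℝ) ^ (n + 1) < (1 / 2) ^ J := lt_of_lt_of_le hn1 hr.2
    have := (pow_lt_pow_iff_right_of_lt_one₀ (show (0 : ℝ) < 1 / 2 by norm_num)
      (show (1 / 2 : ℝ) < 1 by norm_num)).mp h3
    omega
  have h4 := hJ n hnJ x hx
  rw [dist_zero_left, Real.norm_eq_abs] at h4
  have h5 := (le_abs_self _).trans h4.le
  have hpos : (0 : ℝ) < ((1 / 2 : ℝ) ^ n) ^ d * w := by positivity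
  have h6 : ∫ ξ in closedBall x ((1 / 2) ^ n), ‖G ξ - G x‖ ∂μ
      ≤ (((1 / 2 : ℝ) ^ n) ^ d * w) * (ε / (2 ^ d * w)) := by
    simp only [m] at h5
    rwa [inv_mul_le_iff₀ hpos] at h5
  have i2 : IntegrableOn (fun ξ => ‖G ξ - G x‖) (closedBall x ((1 / 2) ^ n)) μ :=
    ((hG.sub (locallyIntegrable_const _)).integrableOn_isCompact (isCompact_closedBall _ _)).norm
  calc ∫ ξ in closedBall x r, ‖G ξ - G x‖ ∂μ
      ≤ ∫ ξ in closedBall x ((1 / 2) ^ n), ‖G ξ - G x‖ ∂μ := by
        apply setIntegral_mono_set i2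
        · exact Eventually.of_forall fun ξ => norm_nonneg _
        · exact Eventually.of_forall (closedBall_subset_closedBall hn2)
    _ ≤ _ := h6
    _ = ε * ((1 / 2 : ℝ) ^ n / 2) ^ d := by
        rw [div_pow ((1 / 2 : ℝ) ^ n) 2 d]
        generalize ((1 / 2 : ℝ) ^ n) ^ d = q
        field_simp
    _ ≤ ε * r ^ d := by
        apply mul_le_mul_of_nonneg_left _ hε.le
        apply pow_le_pow_left₀ (by positivity)
        rw [pow_succ] at hn1
        linarith

lemma hasFDerivWithinAt_of_ctrl {u : E → F} {G : E → E →L[ℝ] F} (hu : Continuous u)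
    (hG : LocallyIntegrable G μ) (hW : WeakD μ u G) {A : Set E}
    (hA : ∀ ε > 0, ∃ R > 0, ∀ x ∈ A, Ctrl μ G x R ε) {x : E} (hx : x ∈ A) :
    HasFDerivWithinAt u (G x) A x := by
  obtain ⟨C, hC0, hC⟩ := main_estimate μ F
  rw [hasFDerivWithinAt_iff_isLittleO, Asymptotics.isLittleO_iff]
  intro c hc
  obtain ⟨R, hR0, hR⟩ := hA (c / C) (by positivity)
  have h1 : ∀ᶠ y in 𝓝[A] x, y ∈ A := self_mem_nhdsWithin
  have h2 : ∀ᶠ y in 𝓝[A] x, y ∈ closedBall x (R / 2) :=
    mem_nhdsWithin_of_mem_nhds (closedBall_mem_nhds x (by positivity))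
  filter_upwards [h1, h2] with y hyA hyR
  rw [mem_closedBall, dist_eq_norm] at hyR
  have := hC u G hu hG hW x y R (c / C) (by positivity) (hR x hx) (hR y hyA) (by linarith)
  calc _ ≤ _ := this
    _ = _ := by field_simp

/-- The area inequality for continuous maps with a locally integrable weak derivative. -/
theorem area_inequality {u : E → E} {G : E → E →L[ℝ] E} (hu : Continuous u)
    (hGm : StronglyMeasurable G) (hG : LocallyIntegrable G μ) (hW : WeakD μ u G)
    {s : Set E} (hs : MeasurableSet s) (hfin : μ s ≠ ⊤) (hinj : InjOn u s) :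
    ∫⁻ x in s, ENNReal.ofReal |(G x).det| ∂μ ≤ μ (u '' s) := by
  choose t hts htm htμ hctrl using fun k : ℕ =>
    egorov_sets (μ := μ) hGm hG hs hfin (δ := 1 / (k + 1)) (by positivity)
  let A : ℕ → Set E := fun k => s \ t k
  have hAm : ∀ k, MeasurableSet (A k) := fun k => hs.diff (htm k)
  have hd : ∀ k, ∀ x ∈ A k, HasFDerivWithinAt u (G x) (A k) x := fun k x hx =>
    hasFDerivWithinAt_of_ctrl hu hG hW (hctrl k) hx
  have hnull : μ (s \ ⋃ k, A k) = 0 := by
    have hle : ∀ k : ℕ, μ (s \ ⋃ k, A k) ≤ ENNReal.ofReal (1 / (k + 1)) := by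
      intro k
      refine le_trans (measure_mono ?_) (htμ k)
      intro x hx
      by_contra hxt
      exact hx.2 (mem_iUnion.mpr ⟨k, hx.1, hxt⟩)
    have hlim : Tendsto (fun k : ℕ => ENNReal.ofReal (1 / (k + 1))) atTop (𝓝 0) := by
      rw [← ENNReal.ofReal_zero]
      exact (ENNReal.continuous_ofReal.tendsto _).comp tendsto_one_div_add_atTop_nhds_zero_nat
    exact le_antisymm (ge_of_tendsto' hlim hle) zero_le
  have hsub : (⋃ k, A k) ⊆ s := iUnion_subset fun k => sdiff_subset
  have e1 : ∫⁻ x in s, ENNReal.ofReal |(G x).det| ∂μ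
      = ∫⁻ x in ⋃ k, A k, ENNReal.ofReal |(G x).det| ∂μ := by
    apply setLIntegral_congr
    rw [ae_eq_set]
    exact ⟨hnull, by rw [sdiff_eq_empty.mpr hsub]; exact measure_empty⟩
  have hdm : ∀ k, MeasurableSet (disjointed A k) := MeasurableSet.disjointed hAm
  have hdsub : ∀ k, disjointed A k ⊆ A k := fun k => disjointed_subset A k
  have hdd : ∀ k, ∀ x ∈ disjointed A k, HasFDerivWithinAt u (G x) (disjointed A k) x :=
    fun k x hx => (hd k x (hdsub k hx)).mono (hdsub k)
  have hdinj : ∀ k, InjOn u (disjointed A k) := fun k =>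
    hinj.mono ((hdsub k).trans sdiff_subset)
  rw [e1, ← iUnion_disjointed, lintegral_iUnion hdm (disjoint_disjointed A)]
  have e2 : ∀ k, ∫⁻ x in disjointed A k, ENNReal.ofReal |(G x).det| ∂μ
      = μ (u '' disjointed A k) := fun k =>
    lintegral_abs_det_fderiv_eq_addHaar_image μ (hdm k) (hdd k) (hdinj k)
  simp only [e2]
  rw [← measure_iUnion]
  · apply measure_mono
    rw [← image_iUnion, iUnion_disjointed]
    exact image_mono hsub
  · intro i j hij
    exact (disjoint_disjointed A hij).image hinj ((hdsub i).trans sdiff_subset)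
      ((hdsub j).trans sdiff_subset)
  · intro k
    exact measurable_image_of_fderivWithin (hdm k) (hdd k) (hdinj k)

end Pool.Agent.MP_6ded3d_an
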