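import Mathlib
import Pool.Agent.MP_6ded3d_an.WeakD4

set_option autoImplicit false
set_option linter.unusedSectionVars false

open MeasureTheory Set Filter Topology Metric Module

namespace Pool.Agent.MP_6ded3d_an

lemma integrable_add_clm {α E F : Type*} [MeasurableSpace α] {μ : Measure α}
    [NormedAddCommGroup E] [NormedSpace ℝ E]
    [NormedAddCommGroup F] [NormedSpace ℝ F] {G₁ G₂ : α → E →L[ℝ] F}
    (h1 : Integrable G₁ μ) (h2 : Integrable G₂ μ) : Integrable (fun x => G₁ x + G₂ x) μ := by
  have h3 := h1.sub h2.neg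
  refine h3.congr (Eventually.of_forall fun x => ?_)
  simp

/-- matrices as continuous linear maps -/
noncomputable def toCLM {n : ℕ} (A : Matrix (Fin n) (Fin n) ℝ) :
    EuclideanSpace ℝ (Fin n) →L[ℝ] EuclideanSpace ℝ (Fin n) :=
  LinearMap.toContinuousLinearMap (Matrix.toEuclideanLin A)

lemma det_toCLM {n : ℕ} (A : Matrix (Fin n) (Fin n) ℝ) : (toCLM A).det = A.det := by
  unfold toCLM
  rw [LinearMap.det_toContinuousLinearMap]
  exact LinearMap.det_toLin (PiLp.basisFun 2 ℝ (Fin n)) A

lemma toCLM_single {n : ℕ} (A : Matrix (Fin n) (Fin n) ℝ) (i j : Fin n) :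
    WithLp.ofLp (toCLM A (EuclideanSpace.single j (1 : ℝ))) i = A i j := by
  unfold toCLM
  simp [Matrix.toLpLin_apply]

/-- the linear version of `toCLM` -/
noncomputable def toCLML (n : ℕ) : (Fin n → Fin n → ℝ) →L[ℝ]
    (EuclideanSpace ℝ (Fin n) →L[ℝ] EuclideanSpace ℝ (Fin n)) :=
  LinearMap.toContinuousLinearMap
    { toFun := fun A => toCLM (Matrix.of A)
      map_add' := by intro A B; simp [toCLM, ← Matrix.of_add_of]
      map_smul' := by intro c A; simp [toCLM, ← Matrix.smul_of] }

lemma weakD_of_components {n : ℕ} {u : EuclideanSpace ℝ (Fin n) → EuclideanSpace ℝ (Fin n)}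
    {G : EuclideanSpace ℝ (Fin n) → EuclideanSpace ℝ (Fin n) →L[ℝ] EuclideanSpace ℝ (Fin n)}
    (hu : Continuous u) (hG : LocallyIntegrable G volume)
    (h : ∀ φ : EuclideanSpace ℝ (Fin n) → ℝ, ContDiff ℝ ((⊤ : ℕ∞) : WithTop ℕ∞) φ →
      HasCompactSupport φ → ∀ i j : Fin n,
      ∫ x, (fderiv ℝ φ x (EuclideanSpace.single j (1 : ℝ))) * WithLp.ofLp (u x) i
        = - ∫ x, φ x * WithLp.ofLp (G x (EuclideanSpace.single j (1 : ℝ))) i) :
    WeakD volume u G := by
  intro φ hφ hφc e
  have i1 : ∀ v, Integrable (fun x => fderiv ℝ φ x v • u x) := fun v =>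
    integrable_smul_of_compact ((hφ.continuous_fderiv (by simp)).clm_apply continuous_const)
      (hφc.fderiv_apply (𝕜 := ℝ) v) hu.locallyIntegrable
  have i2 : ∀ v, Integrable (fun x => φ x • G x v) := fun v =>
    integrable_smul_of_compact hφ.continuous hφc (locInt_apply hG v)
  -- the identity for basis vectors
  have hb : ∀ j : Fin n, ∫ x, (fderiv ℝ φ x (EuclideanSpace.single j (1 : ℝ))) • u x
      = - ∫ x, φ x • G x (EuclideanSpace.single j (1 : ℝ)) := by
    intro j
    ext i
    have e1 : ∫ x, (fderiv ℝ φ x (EuclideanSpace.single j (1 : ℝ))) * WithLp.ofLp (u x) i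
        = WithLp.ofLp (∫ x, (fderiv ℝ φ x (EuclideanSpace.single j (1 : ℝ))) • u x) i :=
      (EuclideanSpace.proj (𝕜 := ℝ) i).integral_comp_comm (i1 (EuclideanSpace.single j (1 : ℝ)))
    have e2 : ∫ x, φ x * WithLp.ofLp (G x (EuclideanSpace.single j (1 : ℝ))) i
        = WithLp.ofLp (∫ x, φ x • G x (EuclideanSpace.single j (1 : ℝ))) i :=
      (EuclideanSpace.proj (𝕜 := ℝ) i).integral_comp_comm (i2 (EuclideanSpace.single j (1 : ℝ)))
    rw [PiLp.neg_apply, ← e1, ← e2]
    exact h φ hφ hφc i j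
  have he : e = ∑ j, WithLp.ofLp e j • EuclideanSpace.single j (1 : ℝ) := by
    ext i
    simp [Finset.sum_apply, Pi.single_apply]
  have s1 : ∀ x, fderiv ℝ φ x e • u x
      = ∑ j, WithLp.ofLp e j • (fderiv ℝ φ x (EuclideanSpace.single j (1 : ℝ)) • u x) := by
    intro x
    conv_lhs => rw [he]
    rw [map_sum, Finset.sum_smul]
    apply Finset.sum_congr rfl
    intro j _
    rw [map_smul, smul_assoc]
  have s2 : ∀ x, φ x • G x e
      = ∑ j, WithLp.ofLp e j • (φ x • G x (EuclideanSpace.single j (1 : ℝ))) := by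
    intro x
    conv_lhs => rw [he]
    rw [map_sum, Finset.smul_sum]
    apply Finset.sum_congr rfl
    intro j _
    rw [map_smul, smul_comm]
  simp only [s1, s2]
  have t1 : ∫ x, ∑ j, WithLp.ofLp e j • (fderiv ℝ φ x (EuclideanSpace.single j (1 : ℝ)) • u x)
      = ∑ j, ∫ x, WithLp.ofLp e j • (fderiv ℝ φ x (EuclideanSpace.single j (1 : ℝ)) • u x) :=
    integral_finsetSum _ (fun j _ =>
      (i1 (EuclideanSpace.single j (1 : ℝ))).smul (WithLp.ofLp e j))
  have t2 : ∫ x, ∑ j, WithLp.ofLp e j • (φ x • G x (EuclideanSpace.single j (1 : ℝ)))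
      = ∑ j, ∫ x, WithLp.ofLp e j • (φ x • G x (EuclideanSpace.single j (1 : ℝ))) :=
    integral_finsetSum _ (fun j _ =>
      (i2 (EuclideanSpace.single j (1 : ℝ))).smul (WithLp.ofLp e j))
  rw [t1, t2, ← Finset.sum_neg_distrib]
  apply Finset.sum_congr rfl
  intro j _
  rw [integral_smul, integral_smul, hb j, smul_neg]

/-- Local area inequality for a map with a weak derivative on an open set. -/
theorem local_area {n : ℕ} {Ω : Set (EuclideanSpace ℝ (Fin n))} (hΩ : IsOpen Ω)
    {h : EuclideanSpace ℝ (Fin n) → EuclideanSpace ℝ (Fin n)}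
    {Dh : EuclideanSpace ℝ (Fin n) → Matrix (Fin n) (Fin n) ℝ}
    (hc : ContinuousOn h Ω)
    (hD : ∀ i j : Fin n, LocallyIntegrableOn (fun x => Dh x i j) Ω)
    (hw : ∀ φ : EuclideanSpace ℝ (Fin n) → ℝ,
      ContDiff ℝ ((⊤ : ℕ∞) : WithTop ℕ∞) φ → HasCompactSupport φ → tsupport φ ⊆ Ω →
      ∀ i j : Fin n,
        ∫ x in Ω, WithLp.ofLp (h x) i * fderiv ℝ φ x (EuclideanSpace.single j (1 : ℝ))
          = - ∫ x in Ω, Dh x i j * φ x)
    {c : EuclideanSpace ℝ (Fin n)} {r R : ℝ} (hr : 0 < r) (hrR : r < R)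
    (hR : closedBall c R ⊆ Ω) (hinj : InjOn h (ball c r)) :
    ∫⁻ x in ball c r, ENNReal.ofReal |(Dh x).det| ≤ volume (h '' ball c r) := by
  let χ : ContDiffBump c := ⟨r, R, hr, hrR⟩
  have hχs : ContDiff ℝ ((⊤ : ℕ∞) : WithTop ℕ∞) χ := χ.contDiff
  have hχc : HasCompactSupport χ := χ.hasCompactSupport
  have hχΩ : tsupport χ ⊆ Ω := by
    rw [χ.tsupport_eq]; exact hR
  have hχ0 : ∀ x, x ∉ Ω → χ x = 0 := fun x hx =>
    image_eq_zero_of_notMem_tsupport fun hh => hx (hχΩ hh)
  have hχ1 : ∀ x ∈ closedBall c r, χ x = 1 := fun x hx => χ.one_of_mem_closedBall hx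
  have hdχc : HasCompactSupport (fderiv ℝ χ) := hχc.fderiv (𝕜 := ℝ)
  have hdχΩ : tsupport (fderiv ℝ χ) ⊆ Ω := (tsupport_fderiv_subset ℝ).trans hχΩ
  have hdχ0 : ∀ x, x ∉ Ω → fderiv ℝ χ x = 0 := fun x hx =>
    image_eq_zero_of_notMem_tsupport fun hh => hx (hdχΩ hh)
  have hdχcont : Continuous (fderiv ℝ χ) := hχs.continuous_fderiv (by simp)
  have hcat : ∀ x ∈ Ω, ContinuousAt h x := fun x hx => hc.continuousAt (hΩ.mem_nhds hx)
  -- the globalised map
  let u : EuclideanSpace ℝ (Fin n) → EuclideanSpace ℝ (Fin n) := fun x => χ x • h x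
  have hu : Continuous u := by
    apply continuous_of_tsupport
    intro x hx
    have hx' : x ∈ tsupport χ := (tsupport_smul_subset_left _ _) hx
    exact χ.continuous.continuousAt.smul (hcat x (hχΩ hx'))
  let A : EuclideanSpace ℝ (Fin n) → EuclideanSpace ℝ (Fin n) →L[ℝ] EuclideanSpace ℝ (Fin n) :=
    fun x => toCLM (Dh x)
  let G₁ : EuclideanSpace ℝ (Fin n) → EuclideanSpace ℝ (Fin n) →L[ℝ] EuclideanSpace ℝ (Fin n) :=
    fun x => χ x • A x
  let G₂ : EuclideanSpace ℝ (Fin n) → EuclideanSpace ℝ (Fin n) →L[ℝ] EuclideanSpace ℝ (Fin n) :=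
    fun x => (fderiv ℝ χ x).smulRight (h x)
  have hG₂c : Continuous G₂ := by
    apply continuous_of_tsupport
    intro x hx
    have hx' : x ∈ tsupport (fderiv ℝ χ) := by
      refine closure_mono ?_ hx
      intro y hy hy0
      apply hy
      simp only [G₂, hy0]
      ext; simp
    have e1 : ContinuousAt (fun x => ContinuousLinearMap.smulRightL ℝ
        (EuclideanSpace ℝ (Fin n)) (EuclideanSpace ℝ (Fin n)) (fderiv ℝ χ x) (h x)) x :=
      ((ContinuousLinearMap.smulRightL ℝ (EuclideanSpace ℝ (Fin n))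
        (EuclideanSpace ℝ (Fin n))).continuous.continuousAt.comp
          hdχcont.continuousAt).clm_apply (hcat x (hdχΩ hx'))
    exact e1
  have hG₂supp : HasCompactSupport G₂ := by
    refine hdχc.mono ?_
    intro y hy hy0
    apply hy
    simp only [G₂, hy0]
    ext; simp
  have hG₂i : Integrable G₂ := hG₂c.integrable_of_hasCompactSupport hG₂supp
  have hDint : ∀ i j, IntegrableOn (fun x => Dh x i j) (tsupport χ) := fun i j =>
    ((hD i j).mono_set hχΩ).integrableOn_isCompact hχc.isCompact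
  have hχb : ∀ x, ‖χ x‖ ≤ 1 := fun x => by
    rw [Real.norm_of_nonneg χ.nonneg]; exact χ.le_one
  have hχD : ∀ i j, Integrable (fun x => χ x * Dh x i j) := by
    intro i j
    have e1 : IntegrableOn (fun x => χ x * Dh x i j) (tsupport χ) :=
      (hDint i j).bdd_mul χ.continuous.aestronglyMeasurable (c := 1)
        (Eventually.of_forall fun x => hχb x)
    rw [integrableOn_iff_integrable_of_support_subset] at e1
    · exact e1
    · intro x hx
      apply subset_tsupport
      intro h0
      apply hx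
      simp [h0]
  have hG₁i : Integrable G₁ := by
    have e1 : Integrable (fun x => (fun i j => χ x * Dh x i j : Fin n → Fin n → ℝ)) :=
      Integrable.of_eval fun i => Integrable.of_eval fun j => hχD i j
    have e2 := (toCLML n).integrable_comp e1
    refine e2.congr (Eventually.of_forall fun x => ?_)
    show toCLML n (fun i j => χ x * Dh x i j) = χ x • toCLM (Dh x)
    have : (fun i j => χ x * Dh x i j : Fin n → Fin n → ℝ) = χ x • (fun i j => Dh x i j) := by
      funext i j; simp
    rw [this, map_smul]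
    rfl
  have hGi : Integrable (fun x => G₁ x + G₂ x) := integrable_add_clm hG₁i hG₂i
  have hGe : ∀ x i j, WithLp.ofLp ((G₁ x + G₂ x) (EuclideanSpace.single j (1 : ℝ))) i
      = χ x * Dh x i j + fderiv ℝ χ x (EuclideanSpace.single j (1 : ℝ)) * WithLp.ofLp (h x) i := by
    intro x i j
    simp only [G₁, G₂, A, _root_.add_apply, _root_.smul_apply, PiLp.add_apply, PiLp.smul_apply,
      smul_eq_mul, toCLM_single, ContinuousLinearMap.smulRight_apply]
  have hW : WeakD volume u (fun x => G₁ x + G₂ x) := by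
    apply weakD_of_components hu hGi.locallyIntegrable
    intro φ hφ hφc i j
    simp only [hGe]
    have hφd : ∀ x, DifferentiableAt ℝ φ x := fun x =>
      (hφ.differentiable (by simp)).differentiableAt
    have hχd : ∀ x, DifferentiableAt ℝ χ x := fun x =>
      (hχs.differentiable (by simp)).differentiableAt
    have hfd : ∀ x, fderiv ℝ (fun x => χ x * φ x) x (EuclideanSpace.single j (1 : ℝ))
        = χ x * fderiv ℝ φ x (EuclideanSpace.single j (1 : ℝ))
          + φ x * fderiv ℝ χ x (EuclideanSpace.single j (1 : ℝ)) := by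
      intro x
      have := ((hχd x).hasFDerivAt.mul (hφd x).hasFDerivAt).fderiv
      rw [show (fun x => χ x * φ x) = (χ : _ → ℝ) * φ from rfl, this]
      simp
    have hts : tsupport (fun x => χ x * φ x) ⊆ Ω := (tsupport_mul_subset_left).trans hχΩ
    have key := hw (fun x => χ x * φ x) (hχs.mul hφ) hχc.mul_right hts i j
    simp only [hfd] at key
    rw [setIntegral_eq_integral_of_forall_compl_eq_zero (fun x hx => by
        rw [hχ0 x hx, hdχ0 x hx]; simp),
      setIntegral_eq_integral_of_forall_compl_eq_zero (fun x hx => by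
        rw [hχ0 x hx]; simp)] at key
    -- integrability of the pieces
    have hui : Continuous (fun x => χ x * WithLp.ofLp (h x) i) := by
      have : Continuous (fun x => WithLp.ofLp (u x) i) :=
        (EuclideanSpace.proj (𝕜 := ℝ) i).continuous.comp hu
      exact this
    have hdui : Continuous (fun x => fderiv ℝ χ x (EuclideanSpace.single j (1 : ℝ))
        * WithLp.ofLp (h x) i) := by
      have : Continuous (fun x => WithLp.ofLp (G₂ x (EuclideanSpace.single j (1 : ℝ))) i) :=
        (EuclideanSpace.proj (𝕜 := ℝ) i).continuous.comp (hG₂c.clm_apply continuous_const)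
      exact this
    have hdφ : Continuous (fun x => fderiv ℝ φ x (EuclideanSpace.single j (1 : ℝ))) :=
      (hφ.continuous_fderiv (by simp)).clm_apply continuous_const
    have hdφc : HasCompactSupport (fun x => fderiv ℝ φ x (EuclideanSpace.single j (1 : ℝ))) :=
      hφc.fderiv_apply (𝕜 := ℝ) _
    have I1 : Integrable (fun x => fderiv ℝ φ x (EuclideanSpace.single j (1 : ℝ))
        * (χ x * WithLp.ofLp (h x) i)) :=
      (hdφ.mul hui).integrable_of_hasCompactSupport hdφc.mul_right
    have I2 : Integrable (fun x => φ x * (fderiv ℝ χ x (EuclideanSpace.single j (1 : ℝ))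
        * WithLp.ofLp (h x) i)) :=
      (hφ.continuous.mul hdui).integrable_of_hasCompactSupport hφc.mul_right
    have I3 : Integrable (fun x => φ x * (χ x * Dh x i j)) := by
      obtain ⟨C, hC⟩ := hφ.continuous.bounded_above_of_compact_support hφc
      exact (hχD i j).bdd_mul hφ.continuous.aestronglyMeasurable (c := C)
        (Eventually.of_forall fun x => hC x)
    have k1 : ∫ x, WithLp.ofLp (h x) i * (χ x * fderiv ℝ φ x (EuclideanSpace.single j (1 : ℝ))
          + φ x * fderiv ℝ χ x (EuclideanSpace.single j (1 : ℝ)))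
        = (∫ x, fderiv ℝ φ x (EuclideanSpace.single j (1 : ℝ)) * (χ x * WithLp.ofLp (h x) i))
          + ∫ x, φ x * (fderiv ℝ χ x (EuclideanSpace.single j (1 : ℝ)) * WithLp.ofLp (h x) i) := by
      rw [← integral_add I1 I2]
      congr 1
      funext x
      ring
    have k2 : ∫ x, Dh x i j * (χ x * φ x) = ∫ x, φ x * (χ x * Dh x i j) := by
      congr 1
      funext x
      ring
    have k3 : ∫ x, φ x * (χ x * Dh x i j + fderiv ℝ χ x (EuclideanSpace.single j (1 : ℝ))
          * WithLp.ofLp (h x) i)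
        = (∫ x, φ x * (χ x * Dh x i j))
          + ∫ x, φ x * (fderiv ℝ χ x (EuclideanSpace.single j (1 : ℝ)) * WithLp.ofLp (h x) i) := by
      rw [← integral_add I3 I2]
      congr 1
      funext x
      ring
    rw [k1, k2] at key
    rw [k3]
    have k4 : ∫ x, fderiv ℝ φ x (EuclideanSpace.single j (1 : ℝ)) * WithLp.ofLp (u x) i
        = ∫ x, fderiv ℝ φ x (EuclideanSpace.single j (1 : ℝ)) * (χ x * WithLp.ofLp (h x) i) := rfl
    rw [k4]
    linarith
  -- strongly measurable representative
  obtain ⟨G, hGm, hGae⟩ := hGi.aestronglyMeasurable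
  have hGint : Integrable G := hGi.congr hGae
  have hWG : WeakD volume u G := by
    intro φ hφ hφc e
    rw [hW φ hφ hφc e]
    congr 1
    apply integral_congr_ae
    filter_upwards [hGae] with x hx
    rw [hx]
  have huh : ∀ x ∈ ball c r, u x = h x := fun x hx => by
    simp only [u]
    rw [hχ1 x (ball_subset_closedBall hx), one_smul]
  have hinju : InjOn u (ball c r) := fun x hx y hy hxy => by
    rw [huh x hx, huh y hy] at hxy
    exact hinj hx hy hxy
  have himg : u '' ball c r = h '' ball c r := image_congr huh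
  have harea := area_inequality (μ := volume) hu hGm hGint.locallyIntegrable hWG
    (s := ball c r) measurableSet_ball measure_ball_lt_top.ne hinju
  rw [himg] at harea
  refine le_trans (le_of_eq ?_) harea
  apply lintegral_congr_ae
  filter_upwards [ae_restrict_of_ae hGae, ae_restrict_mem measurableSet_ball] with x hx hxb
  rw [← hx]
  have hχx : χ x = 1 := hχ1 x (ball_subset_closedBall hxb)
  have hdx : fderiv ℝ χ x = 0 := by
    have : (χ : _ → ℝ) =ᶠ[𝓝 x] fun _ => (1 : ℝ) := by
      filter_upwards [isOpen_ball.mem_nhds hxb] with y hy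
      exact hχ1 y (ball_subset_closedBall hy)
    rw [this.fderiv_eq]
    simp
  have : G₁ x + G₂ x = toCLM (Dh x) := by
    simp only [G₁, G₂, A, hχx, hdx, one_smul]
    ext
    simp
  rw [this, det_toCLM]

end Pool.Agent.MP_6ded3d_an
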