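import Mathlib
import Pool.Agent.MP_6ded3d_an.LocalArea

set_option autoImplicit false
set_option linter.unusedSectionVars false

open MeasureTheory Set Filter Topology Metric Module

namespace Pool.Agent.MP_6ded3d_an

/-- the plane -/
abbrev E2 := EuclideanSpace ℝ (Fin 2)

/-- centre of the disc -/
noncomputable def ctr : E2 := !₂[3 / 2, 0]

/-- the disc -/
noncomputable def Om : Set E2 := ball ctr 1

/-- squared norm -/
def q (x : E2) : ℝ := x 0 ^ 2 + x 1 ^ 2

/-- squared distance to the centre -/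
noncomputable def rho (x : E2) : ℝ := (x 0 - 3 / 2) ^ 2 + x 1 ^ 2

/-- the distortion of the example -/
noncomputable def kap (x : E2) : ℝ := max 1 (q x)⁻¹

/-- derivative of the profile -/
noncomputable def sd (t : ℝ) : ℝ := max 1 t⁻¹ * (2 * t)⁻¹

/-- the profile -/
noncomputable def prof (t : ℝ) : ℝ := ∫ s in (1 : ℝ)..t, sd s

/-- the example -/
noncomputable def fex (x : E2) : E2 := !₂[prof (q x), Real.arctan (x 1 / x 0)]

/-- its differential -/
noncomputable def Dfex (x : E2) : Matrix (Fin 2) (Fin 2) ℝ :=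
  !![kap x * x 0 / q x, kap x * x 1 / q x; - x 1 / q x, x 0 / q x]

lemma dist_ctr_sq (x : E2) : dist x ctr ^ 2 = rho x := by
  rw [EuclideanSpace.dist_eq, Real.sq_sqrt (Finset.sum_nonneg fun _ _ => sq_nonneg _)]
  simp [ctr, rho, Real.dist_eq, sq_abs]

lemma rho_le_one {x : E2} : x ∈ closedBall ctr 1 ↔ rho x ≤ 1 := by
  rw [mem_closedBall, ← dist_ctr_sq, sq_le_one_iff₀ dist_nonneg]

lemma rho_lt_one {x : E2} : x ∈ Om ↔ rho x < 1 := by
  rw [Om, mem_ball, ← dist_ctr_sq, sq_lt_one_iff₀ dist_nonneg]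

lemma x0_ge {x : E2} (hx : x ∈ closedBall ctr 1) : 1 / 2 ≤ x 0 := by
  rw [rho_le_one, rho] at hx
  nlinarith [sq_nonneg (x 1), sq_nonneg (x 0 - 3 / 2)]

lemma q_pos {x : E2} (hx : 0 < x 0) : 0 < q x := by
  unfold q; positivity

lemma kap_ge_one (x : E2) : 1 ≤ kap x := le_max_left _ _

lemma continuous_q : Continuous q := by
  unfold q
  fun_prop

lemma continuous_rho : Continuous rho := by
  unfold rho
  fun_prop

lemma sd_cont {t : ℝ} (ht : 0 < t) : ContinuousAt sd t := by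
  unfold sd
  have h1 : ContinuousAt (fun t : ℝ => t⁻¹) t := continuousAt_inv₀ ht.ne'
  have h2 : ContinuousAt (fun t : ℝ => (2 * t)⁻¹) t :=
    (continuousAt_const.mul continuousAt_id).inv₀ (by simpa using ht.ne')
  exact (continuousAt_const.max h1).mul h2

lemma sd_contOn : ContinuousOn sd (Ioi 0) := fun _ ht => (sd_cont ht).continuousWithinAt

lemma hasDerivAt_prof {t : ℝ} (ht : 0 < t) : HasDerivAt prof (sd t) t := by
  unfold prof
  apply intervalIntegral.integral_hasDerivAt_right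
  · apply ContinuousOn.intervalIntegrable
    apply sd_contOn.mono
    intro s hs
    have : min 1 t ≤ s := hs.1
    exact lt_of_lt_of_le (lt_min one_pos ht) this
  · exact sd_contOn.stronglyMeasurableAtFilter isOpen_Ioi t ht
  · exact sd_cont ht

lemma sd_pos {t : ℝ} (ht : 0 < t) : 0 < sd t := by
  unfold sd
  positivity

lemma prof_strictMono : StrictMonoOn prof (Ioi 0) := by
  apply strictMonoOn_of_deriv_pos (convex_Ioi 0)
  · exact fun t ht => (hasDerivAt_prof ht).continuousAt.continuousWithinAt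
  · intro t ht
    rw [interior_Ioi] at ht
    rw [(hasDerivAt_prof ht).deriv]
    exact sd_pos ht

/-- coordinate projections -/
noncomputable def pr (i : Fin 2) : E2 →L[ℝ] ℝ := EuclideanSpace.proj i

lemma hasFDerivAt_coord (i : Fin 2) (x : E2) : HasFDerivAt (fun x : E2 => x i) (pr i) x :=
  (pr i).hasFDerivAt

lemma hasFDerivAt_q (x : E2) : HasFDerivAt q ((2 * x 0) • pr 0 + (2 * x 1) • pr 1) x := by
  unfold q
  have h0 := (hasFDerivAt_coord 0 x).pow 2
  have h1 := (hasFDerivAt_coord 1 x).pow 2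
  have h2 := h0.add h1
  refine h2.congr_fderiv ?_
  ext v
  simp [pr]

lemma hasFDerivAt_rho (x : E2) :
    HasFDerivAt rho ((2 * (x 0 - 3 / 2)) • pr 0 + (2 * x 1) • pr 1) x := by
  unfold rho
  have h0 := ((hasFDerivAt_coord 0 x).sub_const (3 / 2)).pow 2
  have h1 := (hasFDerivAt_coord 1 x).pow 2
  have h2 := h0.add h1
  refine h2.congr_fderiv ?_
  ext v
  simp [pr]

lemma hasFDerivAt_fex0 {x : E2} (hx : 0 < x 0) :
    HasFDerivAt (fun x => fex x 0) ((kap x * x 0 / q x) • pr 0 + (kap x * x 1 / q x) • pr 1) x := by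
  have hq := q_pos hx
  have h1 := (hasDerivAt_prof hq).comp_hasFDerivAt x (hasFDerivAt_q x)
  have h2 : (fun x => fex x 0) = prof ∘ q := by
    funext x; simp [fex]
  rw [h2]
  refine h1.congr_fderiv ?_
  ext v
  simp only [sd, kap, pr, _root_.add_apply, _root_.smul_apply, smul_eq_mul]
  field_simp

lemma hasFDerivAt_fex1 {x : E2} (hx : 0 < x 0) :
    HasFDerivAt (fun x => fex x 1) ((- x 1 / q x) • pr 0 + (x 0 / q x) • pr 1) x := by
  have hq := q_pos hx
  have hinv : HasFDerivAt (fun x : E2 => (x 0)⁻¹) ((-((x 0) ^ 2)⁻¹) • pr 0) x :=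
    (hasDerivAt_inv hx.ne').comp_hasFDerivAt x (hasFDerivAt_coord 0 x)
  have h0 : HasFDerivAt (fun x : E2 => x 1 / x 0)
      ((x 1) • ((-((x 0) ^ 2)⁻¹) • pr 0) + (x 0)⁻¹ • pr 1) x := by
    simp only [div_eq_mul_inv]
    exact (hasFDerivAt_coord 1 x).mul hinv
  have h1 := h0.arctan
  have h2 : (fun x => fex x 1) = fun x : E2 => Real.arctan (x 1 / x 0) := by
    funext x; simp [fex]
  rw [h2]
  refine h1.congr_fderiv ?_
  have hq' : q x = x 0 ^ 2 + x 1 ^ 2 := rfl
  ext v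
  simp only [pr, _root_.add_apply, _root_.smul_apply, smul_eq_mul]
  rw [hq'] at hq ⊢
  field_simp

lemma hasFDerivAt_fex {x : E2} (hx : 0 < x 0) : HasFDerivAt fex (toCLM (Dfex x)) x := by
  rw [← hasFDerivWithinAt_univ, hasFDerivWithinAt_euclidean]
  intro i
  rw [hasFDerivWithinAt_univ]
  fin_cases i
  · refine (hasFDerivAt_fex0 hx).congr_fderiv ?_
    ext v
    simp [toCLM, Dfex, pr, Matrix.toLpLin_apply, Matrix.vecHead, Matrix.vecTail]
  · refine (hasFDerivAt_fex1 hx).congr_fderiv ?_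
    ext v
    simp [toCLM, Dfex, pr, Matrix.toLpLin_apply, Matrix.vecHead, Matrix.vecTail]

/-! ### Elementary facts on the operator norm -/

/-- operator norm -/
noncomputable def opN {n : ℕ} (A : Matrix (Fin n) (Fin n) ℝ) : ℝ :=
  ‖LinearMap.toContinuousLinearMap (Matrix.toEuclideanLin A)‖

/-- inner distortion at a matrix -/
noncomputable def KIm {n : ℕ} (A : Matrix (Fin n) (Fin n) ℝ) : ℝ :=
  if 0 < A.det then opN A.adjugate ^ n / A.det ^ (n - 1) else 1

lemma toCLM_apply2 (A : Matrix (Fin 2) (Fin 2) ℝ) (v : E2) (i : Fin 2) :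
    (toCLM A v) i = A i 0 * v 0 + A i 1 * v 1 := by
  fin_cases i <;> simp [toCLM, Matrix.toLpLin_apply]

lemma normsq2 (v : E2) : ‖v‖ ^ 2 = v 0 ^ 2 + v 1 ^ 2 := by
  rw [EuclideanSpace.real_norm_sq_eq]
  simp [Fin.sum_univ_two]

/-- the columns of a matrix are bounded by its operator norm -/
lemma col_le (A : Matrix (Fin 2) (Fin 2) ℝ) (j : Fin 2) :
    A 0 j ^ 2 + A 1 j ^ 2 ≤ opN A ^ 2 := by
  have h1 : ‖toCLM A (EuclideanSpace.single j (1 : ℝ))‖ ≤ opN A * ‖EuclideanSpace.single j (1 : ℝ)‖ :=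
    (toCLM A).le_opNorm _
  have h2 : ‖(EuclideanSpace.single j (1 : ℝ) : E2)‖ = 1 := by simp
  rw [h2, mul_one] at h1
  have h3 := pow_le_pow_left₀ (norm_nonneg _) h1 2
  rw [normsq2] at h3
  have h4 : ∀ i, (toCLM A (EuclideanSpace.single j (1 : ℝ))) i = A i j := fun i => toCLM_single A i j
  rw [h4, h4] at h3
  exact h3

lemma opN_le_of {A : Matrix (Fin 2) (Fin 2) ℝ} {c : ℝ} (hc : 0 ≤ c)
    (h : ∀ a b : ℝ, (A 0 0 * a + A 0 1 * b) ^ 2 + (A 1 0 * a + A 1 1 * b) ^ 2
      ≤ c ^ 2 * (a ^ 2 + b ^ 2)) : opN A ≤ c := by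
  apply ContinuousLinearMap.opNorm_le_bound _ hc
  intro v
  have h1 := h (v 0) (v 1)
  rw [← normsq2 v, ← toCLM_apply2, ← toCLM_apply2, ← normsq2, ← mul_pow] at h1
  exact (pow_le_pow_iff_left₀ (norm_nonneg _) (by positivity) (by norm_num)).mp h1

lemma opN_nonneg {n : ℕ} (A : Matrix (Fin n) (Fin n) ℝ) : 0 ≤ opN A := norm_nonneg _

lemma det_adj_le (A : Matrix (Fin 2) (Fin 2) ℝ) : A.det ≤ opN A.adjugate ^ 2 := by
  have h0 := col_le A.adjugate 0
  have h1 := col_le A.adjugate 1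
  rw [Matrix.adjugate_fin_two] at h0 h1 ⊢
  simp at h0 h1
  rw [Matrix.det_fin_two]
  set N := opN (!![A 1 1, -A 0 1; -A 1 0, A 0 0])
  nlinarith [sq_nonneg (A 1 1 - A 0 0), sq_nonneg (A 1 0 + A 0 1)]

/-- The three facts on the inner distortion used in the proof. -/
lemma KIm_facts {A : Matrix (Fin 2) (Fin 2) ℝ} (h0 : 0 ≤ A.det) (hA : A.det = 0 → A = 0) :
    1 ≤ KIm A ∧ A 0 0 ^ 2 + A 0 1 ^ 2 ≤ KIm A * A.det := by
  unfold KIm
  by_cases hpos : 0 < A.det
  · rw [if_pos hpos]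
    have hd := det_adj_le A
    have hc := col_le A.adjugate 1
    simp only [pow_one, show (2 : ℕ) - 1 = 1 from rfl]
    constructor
    · rwa [le_div_iff₀ hpos, one_mul]
    · rw [div_mul_cancel₀ _ hpos.ne']
      rw [Matrix.adjugate_fin_two] at hc ⊢
      simp at hc
      linarith
  · rw [if_neg hpos]
    have h1 : A.det = 0 := le_antisymm (not_lt.mp hpos) h0
    have h2 := hA h1
    refine ⟨le_refl _, ?_⟩
    rw [h1]
    simp [h2]

lemma det_Dfex {x : E2} (hx : 0 < x 0) : (Dfex x).det = kap x / q x := by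
  have hq := q_pos hx
  have hq' : q x = x 0 ^ 2 + x 1 ^ 2 := rfl
  rw [Matrix.det_fin_two]
  simp only [Dfex, Matrix.of_apply, Matrix.cons_val', Matrix.cons_val_zero, Matrix.cons_val_one,
    Matrix.cons_val_fin_one]
  rw [hq'] at hq ⊢
  field_simp
  ring

lemma KIm_Dfex_le {x : E2} (hx : 0 < x 0) : KIm (Dfex x) ≤ kap x := by
  have hq := q_pos hx
  have hk := kap_ge_one x
  have hk0 : 0 < kap x := by linarith
  have hdet : 0 < (Dfex x).det := by rw [det_Dfex hx]; positivity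
  unfold KIm
  rw [if_pos hdet, det_Dfex hx]
  have hop : opN (Dfex x).adjugate ≤ kap x / Real.sqrt (q x) := by
    apply opN_le_of (by positivity)
    intro a b
    rw [Matrix.adjugate_fin_two, div_pow, Real.sq_sqrt hq.le]
    simp only [Dfex, Matrix.of_apply, Matrix.cons_val', Matrix.cons_val_zero, Matrix.cons_val_one,
      Matrix.cons_val_fin_one]
    have hq' : q x = x 0 ^ 2 + x 1 ^ 2 := rfl
    have e1 : (x 0 / q x * a + -(kap x * x 1 / q x) * b) ^ 2
        + (-(-x 1 / q x) * a + kap x * x 0 / q x * b) ^ 2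
        = (a ^ 2 + kap x ^ 2 * b ^ 2) / q x := by
      rw [hq'] at hq ⊢
      field_simp
      ring
    rw [e1, div_mul_eq_mul_div]
    apply div_le_div_of_nonneg_right _ hq.le
    have h5 : 1 ≤ kap x ^ 2 := one_le_pow₀ hk
    nlinarith [mul_le_mul_of_nonneg_right h5 (sq_nonneg a)]
  have h2 := pow_le_pow_left₀ (opN_nonneg _) hop 2
  rw [div_pow, Real.sq_sqrt hq.le] at h2
  simp only [show (2 : ℕ) - 1 = 1 from rfl, pow_one]
  rw [div_le_iff₀ (by positivity)]
  calc _ ≤ _ := h2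
    _ = _ := by ring

/-- The pointwise calibration inequality. -/
lemma pointwise {x : E2} (hx : 0 < x 0) {A : Matrix (Fin 2) (Fin 2) ℝ} (h0 : 0 ≤ A.det)
    (hA : A.det = 0 → A = 0) :
    kap x ^ 2 + (4 * (x 0 / q x * (A 0 0 - Dfex x 0 0) + x 1 / q x * (A 0 1 - Dfex x 0 1))
      - 2 * (A.det - (Dfex x).det)) ≤ KIm A ^ 2 := by
  obtain ⟨hK1, hK2⟩ := KIm_facts h0 hA
  have hq := q_pos hx
  have hq' : q x = x 0 ^ 2 + x 1 ^ 2 := rfl
  have hk := kap_ge_one x
  set K := KIm A with hKdef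
  set a := x 0 / q x * A 0 0 + x 1 / q x * A 0 1 with ha
  have ha2 : (q x) * a ^ 2 ≤ K * A.det := by
    refine le_trans ?_ hK2
    have e1 : q x * a ^ 2 = (x 0 * A 0 0 + x 1 * A 0 1) ^ 2 / q x := by
      rw [ha]; field_simp
    rw [e1, div_le_iff₀ hq, hq']
    nlinarith [sq_nonneg (x 0 * A 0 1 - x 1 * A 0 0)]
  have ha3 : 2 * a ≤ K / q x + A.det := by
    have hnn : 0 ≤ K / q x + A.det := by positivity
    refine (abs_le_of_sq_le_sq' ?_ hnn).2
    have e2 : (2 * a) ^ 2 ≤ 4 * (K / q x) * A.det := by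
      rw [show 4 * (K / q x) * A.det = 4 * (K * A.det) / q x by ring, le_div_iff₀ hq]
      nlinarith
    nlinarith [sq_nonneg (K / q x - A.det)]
  have hf : x 0 / q x * Dfex x 0 0 + x 1 / q x * Dfex x 0 1 = kap x / q x := by
    simp only [Dfex, Matrix.of_apply, Matrix.cons_val', Matrix.cons_val_zero, Matrix.cons_val_one,
      Matrix.cons_val_fin_one]
    rw [hq'] at hq ⊢
    field_simp
  rw [det_Dfex hx]
  have hmain : 2 / q x * (K - kap x) ≤ K ^ 2 - kap x ^ 2 := by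
    rcases le_total 1 (q x)⁻¹ with h | h
    · have hkq : kap x = (q x)⁻¹ := max_eq_right h
      rw [hkq, show 2 / q x = 2 * (q x)⁻¹ by ring]
      nlinarith [sq_nonneg (K - (q x)⁻¹)]
    · have hkq : kap x = 1 := max_eq_left h
      rw [hkq, show 2 / q x = 2 * (q x)⁻¹ by ring]
      nlinarith
  have e3 : 4 * (x 0 / q x * (A 0 0 - Dfex x 0 0) + x 1 / q x * (A 0 1 - Dfex x 0 1))
      = 4 * a - 4 * (kap x / q x) := by
    rw [← hf, ha]; ring
  rw [e3]
  have e4 : 2 / q x * (K - kap x) = 2 * (K / q x) - 2 * (kap x / q x) := by ring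
  rw [e4] at hmain
  linarith

end Pool.Agent.MP_6ded3d_an
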