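import Mathlib
import Pool.Agent.MP_6ded3d_an.Example

set_option autoImplicit false
set_option linter.unusedSectionVars false

open MeasureTheory Set Filter Topology Metric Module

namespace Pool.Agent.MP_6ded3d_an

/-- cut-off function -/
noncomputable def cut (δ : ℝ) (x : E2) : ℝ := Real.smoothTransition ((1 - rho x) / δ - 1)

lemma contDiff_rho : ContDiff ℝ ((⊤ : ℕ∞) : WithTop ℕ∞) rho := by
  unfold rho
  have h : ∀ i : Fin 2, ContDiff ℝ ((⊤ : ℕ∞) : WithTop ℕ∞) (fun x : E2 => x i) := fun i =>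
    (pr i).contDiff
  exact (((h 0).sub contDiff_const).pow 2).add ((h 1).pow 2)

lemma contDiff_q : ContDiff ℝ ((⊤ : ℕ∞) : WithTop ℕ∞) q := by
  unfold q
  have h : ∀ i : Fin 2, ContDiff ℝ ((⊤ : ℕ∞) : WithTop ℕ∞) (fun x : E2 => x i) := fun i =>
    (pr i).contDiff
  exact ((h 0).pow 2).add ((h 1).pow 2)

lemma contDiff_cut (δ : ℝ) : ContDiff ℝ ((⊤ : ℕ∞) : WithTop ℕ∞) (cut δ) := by
  unfold cut
  exact Real.smoothTransition.contDiff.comp
    (((contDiff_const.sub contDiff_rho).div_const δ).sub contDiff_const)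

lemma cut_nonneg (δ : ℝ) (x : E2) : 0 ≤ cut δ x := Real.smoothTransition.nonneg _

lemma cut_le_one (δ : ℝ) (x : E2) : cut δ x ≤ 1 := Real.smoothTransition.le_one _

lemma cut_zero {δ : ℝ} (hδ : 0 < δ) {x : E2} (hx : 1 - rho x ≤ δ) : cut δ x = 0 := by
  apply Real.smoothTransition.zero_of_nonpos
  rw [sub_nonpos, div_le_one hδ]
  exact hx

lemma cut_one {δ : ℝ} (hδ : 0 < δ) {x : E2} (hx : 2 * δ ≤ 1 - rho x) : cut δ x = 1 := by
  apply Real.smoothTransition.one_of_one_le
  rw [le_sub_iff_add_le, le_div_iff₀ hδ]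
  linarith

lemma tsupport_cut {δ : ℝ} (hδ : 0 < δ) : tsupport (cut δ) ⊆ {x | rho x ≤ 1 - δ} := by
  apply closure_minimal
  · intro x hx
    by_contra h
    apply hx
    apply cut_zero hδ
    simp only [mem_ofPred_eq, not_le] at h
    linarith
  · exact isClosed_le continuous_rho continuous_const

lemma tsupport_cut_Om {δ : ℝ} (hδ : 0 < δ) : tsupport (cut δ) ⊆ Om := by
  intro x hx
  rw [rho_lt_one]
  have := tsupport_cut hδ hx
  simp only [mem_ofPred_eq] at this
  linarith

lemma Om_sub : Om ⊆ closedBall ctr 1 := ball_subset_closedBall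

lemma hasCompactSupport_cut {δ : ℝ} (hδ : 0 < δ) : HasCompactSupport (cut δ) :=
  (isCompact_closedBall ctr 1).of_isClosed_subset (isClosed_tsupport _)
    ((tsupport_cut_Om hδ).trans Om_sub)

lemma x0_pos {x : E2} (hx : x ∈ Om) : 0 < x 0 := by
  have := x0_ge (Om_sub hx)
  linarith

/-- the test functions -/
noncomputable def phi (δ : ℝ) (j : Fin 2) (x : E2) : ℝ := cut δ x * (x j / q x)

lemma contDiffAt_V {x : E2} (hx : 0 < x 0) (j : Fin 2) :
    ContDiffAt ℝ ((⊤ : ℕ∞) : WithTop ℕ∞) (fun x : E2 => x j / q x) x :=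
  ((pr j).contDiff.contDiffAt).div contDiff_q.contDiffAt (q_pos hx).ne'

lemma contDiff_phi {δ : ℝ} (hδ : 0 < δ) (j : Fin 2) :
    ContDiff ℝ ((⊤ : ℕ∞) : WithTop ℕ∞) (phi δ j) := by
  rw [contDiff_iff_contDiffAt]
  intro x
  by_cases hx : x ∈ Om
  · exact (contDiff_cut δ).contDiffAt.mul (contDiffAt_V (x0_pos hx) j)
  · have h1 : x ∉ tsupport (cut δ) := fun h => hx (tsupport_cut_Om hδ h)
    have h2 : phi δ j =ᶠ[𝓝 x] fun _ => (0 : ℝ) := by
      filter_upwards [(isClosed_tsupport (cut δ)).isOpen_compl.mem_nhds h1] with y hy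
      rw [phi, image_eq_zero_of_notMem_tsupport hy, zero_mul]
    exact contDiffAt_const.congr_of_eventuallyEq h2

lemma hasCompactSupport_phi {δ : ℝ} (hδ : 0 < δ) (j : Fin 2) : HasCompactSupport (phi δ j) :=
  (hasCompactSupport_cut hδ).mul_right

lemma tsupport_phi {δ : ℝ} (hδ : 0 < δ) (j : Fin 2) : tsupport (phi δ j) ⊆ Om :=
  (tsupport_mul_subset_left).trans (tsupport_cut_Om hδ)

/-- unit vectors -/
noncomputable def ev (j : Fin 2) : E2 := EuclideanSpace.single j (1 : ℝ)

lemma pr_ev (i j : Fin 2) : pr i (ev j) = if i = j then 1 else 0 := by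
  simp [pr, ev]

/-- derivative of the cut-off along the field V -/
noncomputable def Gd (δ : ℝ) (x : E2) : ℝ :=
  deriv Real.smoothTransition ((1 - rho x) / δ - 1) * (-(2 - 3 * (x 0 / q x)) / δ)

lemma fderiv_phi_sum {δ : ℝ} {x : E2} (hx : x ∈ Om) :
    fderiv ℝ (phi δ 0) x (ev 0) + fderiv ℝ (phi δ 1) x (ev 1) = Gd δ x := by
  have hx0 := x0_pos hx
  have hq := q_pos hx0
  have hT : HasDerivAt Real.smoothTransition
      (deriv Real.smoothTransition ((1 - rho x) / δ - 1)) ((1 - rho x) / δ - 1) :=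
    ((Real.smoothTransition.contDiff (n := 1)).differentiable (by simp)).differentiableAt.hasDerivAt
  set T' := deriv Real.smoothTransition ((1 - rho x) / δ - 1) with hT'
  have hr : HasFDerivAt (fun x => (1 - rho x) / δ - 1)
      ((1 / δ) • (-((2 * (x 0 - 3 / 2)) • pr 0 + (2 * x 1) • pr 1))) x := by
    have := (((hasFDerivAt_rho x).const_sub 1).mul_const (1 / δ)).sub_const 1
    simp only [mul_one_div] at this
    exact this
  have hcut : HasFDerivAt (cut δ)
      (T' • ((1 / δ) • (-((2 * (x 0 - 3 / 2)) • pr 0 + (2 * x 1) • pr 1)))) x :=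
    hT.comp_hasFDerivAt x hr
  have hinv : HasFDerivAt (fun x => (q x)⁻¹)
      ((-((q x) ^ 2)⁻¹) • ((2 * x 0) • pr 0 + (2 * x 1) • pr 1)) x :=
    (hasDerivAt_inv hq.ne').comp_hasFDerivAt x (hasFDerivAt_q x)
  have hV : ∀ j : Fin 2, HasFDerivAt (fun x : E2 => x j / q x)
      ((x j) • ((-((q x) ^ 2)⁻¹) • ((2 * x 0) • pr 0 + (2 * x 1) • pr 1)) + (q x)⁻¹ • pr j) x := by
    intro j
    simp only [div_eq_mul_inv]
    exact (hasFDerivAt_coord j x).mul hinv
  have hphi : ∀ j : Fin 2, HasFDerivAt (phi δ j)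
      (cut δ x • ((x j) • ((-((q x) ^ 2)⁻¹) • ((2 * x 0) • pr 0 + (2 * x 1) • pr 1))
        + (q x)⁻¹ • pr j) + (x j / q x) • (T' • ((1 / δ) •
          (-((2 * (x 0 - 3 / 2)) • pr 0 + (2 * x 1) • pr 1))))) x := fun j => hcut.mul (hV j)
  rw [(hphi 0).fderiv, (hphi 1).fderiv]
  simp only [_root_.add_apply, _root_.smul_apply, smul_eq_mul, _root_.neg_apply, pr_ev, Gd]
  have hq' : q x = x 0 ^ 2 + x 1 ^ 2 := rfl
  simp only [← hT']
  norm_num
  have hqq : x 1 ^ 2 = q x - x 0 ^ 2 := by rw [hq']; ring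
  field_simp
  ring_nf
  simp only [hqq]
  ring_nf

/-- the shell where the cut-off is not constant -/
def shell (δ : ℝ) : Set E2 := {x | 1 - 2 * δ ≤ rho x ∧ rho x ≤ 1 - δ}

lemma shell_eq {δ : ℝ} (h1 : 0 < δ) (h2 : δ < 1 / 2) :
    shell δ = closedBall ctr (Real.sqrt (1 - δ)) \ ball ctr (Real.sqrt (1 - 2 * δ)) := by
  ext x
  simp only [shell, mem_ofPred_eq, Set.mem_sdiff, mem_closedBall, mem_ball, not_lt]
  rw [← dist_ctr_sq, Real.sqrt_le_left dist_nonneg, Real.le_sqrt dist_nonneg (by linarith)]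
  tauto

lemma measure_shell {δ : ℝ} (h1 : 0 < δ) (h2 : δ < 1 / 2) :
    volume.real (shell δ) = δ * volume.real (ball (0 : E2) 1) := by
  have hsub : ball ctr (Real.sqrt (1 - 2 * δ)) ⊆ closedBall ctr (Real.sqrt (1 - δ)) :=
    ball_subset_closedBall.trans (closedBall_subset_closedBall (Real.sqrt_le_sqrt (by linarith)))
  have hball : volume.real (ball ctr (Real.sqrt (1 - 2 * δ)))
      = Real.sqrt (1 - 2 * δ) ^ finrank ℝ E2 * volume.real (ball (0 : E2) 1) := by
    rw [measureReal_def, Measure.addHaar_ball volume _ (Real.sqrt_nonneg _), ENNReal.toReal_mul,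
      ENNReal.toReal_ofReal (by positivity), measureReal_def]
  rw [shell_eq h1 h2, measureReal_sdiff hsub measurableSet_ball
    (isCompact_closedBall _ _).measure_ne_top,
    Measure.addHaar_real_closedBall volume _ (Real.sqrt_nonneg _), hball]
  have hf : finrank ℝ E2 = 2 := by simp
  rw [hf, Real.sq_sqrt (by linarith), Real.sq_sqrt (by linarith)]
  ring

lemma measurableSet_shell (δ : ℝ) : MeasurableSet (shell δ) :=
  ((isClosed_le continuous_const continuous_rho).inter
    (isClosed_le continuous_rho continuous_const)).measurableSet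

lemma exists_bound_deriv : ∃ C : ℝ, 0 ≤ C ∧ (∀ s ∈ Icc (0 : ℝ) 1, |deriv Real.smoothTransition s| ≤ C) ∧
    ∀ s, s ∉ Icc (0 : ℝ) 1 → deriv Real.smoothTransition s = 0 := by
  have hc : Continuous (deriv Real.smoothTransition) :=
    (Real.smoothTransition.contDiff (n := 1)).continuous_deriv (by simp)
  obtain ⟨C, hC⟩ := isCompact_Icc.exists_bound_of_continuousOn (f := deriv Real.smoothTransition)
    (s := Icc (0 : ℝ) 1) hc.continuousOn
  refine ⟨C, (norm_nonneg _).trans (hC 0 (by simp)), fun s hs => by simpa using hC s hs, ?_⟩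
  intro s hs
  rw [mem_Icc, not_and_or, not_le, not_le] at hs
  rcases hs with h | h
  · have : Real.smoothTransition =ᶠ[𝓝 s] fun _ => (0 : ℝ) := by
      filter_upwards [Iio_mem_nhds h] with t ht
      exact Real.smoothTransition.zero_of_nonpos (le_of_lt ht)
    rw [this.deriv_eq]; simp
  · have : Real.smoothTransition =ᶠ[𝓝 s] fun _ => (1 : ℝ) := by
      filter_upwards [Ioi_mem_nhds h] with t ht
      exact Real.smoothTransition.one_of_one_le (le_of_lt ht)
    rw [this.deriv_eq]; simp

lemma Gd_bound : ∃ C : ℝ, 0 ≤ C ∧ ∀ δ : ℝ, 0 < δ → ∀ x ∈ Om,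
    |Gd δ x| ≤ (shell δ).indicator (fun _ => C / δ) x := by
  obtain ⟨C, hC0, hC1, hC2⟩ := exists_bound_deriv
  refine ⟨C * 8, by positivity, fun δ hδ x hx => ?_⟩
  have hx0 := x0_pos hx
  have hq := q_pos hx0
  have hq' : q x = x 0 ^ 2 + x 1 ^ 2 := rfl
  have hx1 := x0_ge (Om_sub hx)
  by_cases hs : (1 - rho x) / δ - 1 ∈ Icc (0 : ℝ) 1
  · have hsh : x ∈ shell δ := by
      rw [mem_Icc, sub_nonneg, le_div_iff₀ hδ, sub_le_iff_le_add, div_le_iff₀ hδ] at hs
      simp only [shell, mem_ofPred_eq]
      constructor <;> linarith [hs.1, hs.2]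
    rw [indicator_of_mem hsh, Gd, abs_mul, abs_div, abs_neg, abs_of_pos hδ]
    have h3 : |2 - 3 * (x 0 / q x)| ≤ 8 := by
      have h4 : x 0 / q x ≤ 2 := by
        rw [div_le_iff₀ hq, hq']; nlinarith [sq_nonneg (x 1)]
      have h5 : 0 ≤ x 0 / q x := by positivity
      rw [abs_le]; constructor <;> linarith
    rw [mul_div_assoc]
    apply mul_le_mul (hC1 _ hs) _ (by positivity) hC0
    exact div_le_div_of_nonneg_right h3 hδ.le
  · rw [Gd, hC2 _ hs, zero_mul, abs_zero]
    apply indicator_nonneg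
    intro _ _
    positivity

/-- Smallness near the boundary circle. -/
lemma small_near {w : E2 → ℝ} (hw : ContinuousOn w (closedBall ctr 1))
    (hw0 : ∀ x, rho x = 1 → w x = 0) {ε : ℝ} (hε : 0 < ε) :
    ∃ m < (1 : ℝ), ∀ x ∈ closedBall ctr 1, m < rho x → |w x| < ε := by
  let K : Set E2 := {x ∈ closedBall ctr 1 | ε ≤ |w x|}
  have hKc : IsCompact K := by
    have hcl : IsClosed K :=
      (hw.abs).preimage_isClosed_of_isClosed isClosed_closedBall isClosed_Ici
    exact (isCompact_closedBall ctr 1).of_isClosed_subset hcl (fun x hx => hx.1)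
  rcases K.eq_empty_or_nonempty with hK | hK
  · refine ⟨0, by norm_num, fun x hx _ => ?_⟩
    by_contra hcon
    have : x ∈ K := ⟨hx, not_lt.mp hcon⟩
    rw [hK] at this
    exact this
  · obtain ⟨y, hyK, hy⟩ := hKc.exists_isMaxOn hK continuous_rho.continuousOn
    refine ⟨rho y, ?_, fun x hx hlt => ?_⟩
    · rcases lt_or_eq_of_le (rho_le_one.mp hyK.1) with h | h
      · exact h
      · have h2 := hyK.2
        rw [hw0 y h, abs_zero] at h2
        exact absurd hε (not_lt.mpr h2)
    · by_contra hcon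
      have hxK : x ∈ K := ⟨hx, not_lt.mp hcon⟩
      exact absurd (hy hxK) (not_le.mpr hlt)

/-- The divergence theorem used in the proof. -/
lemma div_lemma {w : E2 → ℝ} (hw : ContinuousOn w (closedBall ctr 1))
    (hw0 : ∀ x, rho x = 1 → w x = 0) {W : Fin 2 → E2 → ℝ}
    (hWi : ∀ j, IntegrableOn (W j) Om)
    (hweak : ∀ φ : E2 → ℝ, ContDiff ℝ ((⊤ : ℕ∞) : WithTop ℕ∞) φ → HasCompactSupport φ →
      tsupport φ ⊆ Om → ∀ j : Fin 2, ∫ x in Om, w x * fderiv ℝ φ x (ev j)
        = - ∫ x in Om, W j x * φ x) :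
    ∫ x in Om, (x 0 / q x * W 0 x + x 1 / q x * W 1 x) = 0 := by
  obtain ⟨C, hC0, hC⟩ := Gd_bound
  have hOmM : MeasurableSet Om := measurableSet_ball
  have hOmfin : volume Om ≠ ⊤ := measure_ball_lt_top.ne
  -- integrability
  have hVb : ∀ x ∈ Om, ∀ j : Fin 2, ‖x j / q x‖ ≤ 2 := by
    intro x hx j
    have hx0 := x0_pos hx
    have hq := q_pos hx0
    have hq' : q x = x 0 ^ 2 + x 1 ^ 2 := rfl
    have hx1 := x0_ge (Om_sub hx)
    rw [Real.norm_eq_abs, abs_div, abs_of_pos hq, div_le_iff₀ hq, hq']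
    fin_cases j
    · simp only [Fin.zero_eta]
      rw [abs_of_pos hx0]; nlinarith [sq_nonneg (x 1)]
    · simp only [Fin.mk_one]
      rw [abs_le]; constructor <;> nlinarith [sq_nonneg (x 1 - x 0), sq_nonneg (x 1 + x 0)]
  have hVm : ∀ j : Fin 2, AEStronglyMeasurable (fun x : E2 => x j / q x) (volume.restrict Om) := by
    intro j
    apply ContinuousOn.aestronglyMeasurable _ hOmM
    intro x hx
    exact (contDiffAt_V (x0_pos hx) j).continuousAt.continuousWithinAt
  have hVW : ∀ j : Fin 2, IntegrableOn (fun x => x j / q x * W j x) Om := by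
    intro j
    refine (hWi j).bdd_mul (hVm j) (c := 2) ?_
    filter_upwards [ae_restrict_mem hOmM] with x hx
    exact hVb x hx j
  have hsum : IntegrableOn (fun x => x 0 / q x * W 0 x + x 1 / q x * W 1 x) Om :=
    (hVW 0).add (hVW 1)
  -- the identity with cut-off
  have hid : ∀ δ : ℝ, 0 < δ → ∫ x in Om, cut δ x * (x 0 / q x * W 0 x + x 1 / q x * W 1 x)
      = - ∫ x in Om, w x * Gd δ x := by
    intro δ hδ
    have h0 := hweak (phi δ 0) (contDiff_phi hδ 0) (hasCompactSupport_phi hδ 0)
      (tsupport_phi hδ 0) 0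
    have h1 := hweak (phi δ 1) (contDiff_phi hδ 1) (hasCompactSupport_phi hδ 1)
      (tsupport_phi hδ 1) 1
    have hwi : ∀ j, IntegrableOn (fun x => w x * fderiv ℝ (phi δ j) x (ev j)) Om := by
      intro j
      have : ContinuousOn (fun x => w x * fderiv ℝ (phi δ j) x (ev j)) (closedBall ctr 1) :=
        hw.mul (((contDiff_phi hδ j).continuous_fderiv (by simp)).clm_apply
          continuous_const).continuousOn
      exact (this.integrableOn_compact (isCompact_closedBall _ _)).mono_set Om_sub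
    have hpi : ∀ j, IntegrableOn (fun x => W j x * phi δ j x) Om := by
      intro j
      obtain ⟨B, hB⟩ := (contDiff_phi hδ j).continuous.bounded_above_of_compact_support
        (hasCompactSupport_phi hδ j)
      have := (hWi j).bdd_mul (contDiff_phi hδ j).continuous.aestronglyMeasurable (c := B)
        (Eventually.of_forall hB)
      refine this.congr (Eventually.of_forall fun x => ?_)
      simp only [mul_comm]
    have e1 : ∫ x in Om, cut δ x * (x 0 / q x * W 0 x + x 1 / q x * W 1 x)
        = (∫ x in Om, W 0 x * phi δ 0 x) + ∫ x in Om, W 1 x * phi δ 1 x := by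
      rw [← integral_add (hpi 0) (hpi 1)]
      congr 1
      funext x
      simp only [phi]
      ring
    have e2 : ∫ x in Om, w x * Gd δ x = (∫ x in Om, w x * fderiv ℝ (phi δ 0) x (ev 0))
        + ∫ x in Om, w x * fderiv ℝ (phi δ 1) x (ev 1) := by
      rw [← integral_add (hwi 0) (hwi 1)]
      apply setIntegral_congr_fun hOmM
      intro x hx
      simp only
      rw [← fderiv_phi_sum (δ := δ) hx]
      ring
    rw [e1, e2, h0, h1]
    ring
  -- the sequence of parameters
  let d : ℕ → ℝ := fun n => 1 / ((n : ℝ) + 3)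
  have hd0 : ∀ n, 0 < d n := fun n => by simp only [d]; positivity
  have hd1 : ∀ n, d n < 1 / 2 := fun n => by
    simp only [d]
    rw [div_lt_div_iff₀ (by positivity) (by norm_num)]
    have : (0 : ℝ) ≤ n := Nat.cast_nonneg n
    linarith
  have hdlim : Tendsto d atTop (𝓝 0) := by
    have h1 : Tendsto (fun n : ℕ => 1 / (((n + 2 : ℕ) : ℝ) + 1)) atTop (𝓝 0) :=
      (tendsto_add_atTop_iff_nat 2).mpr tendsto_one_div_add_atTop_nhds_zero_nat
    refine h1.congr fun n => ?_
    simp only [d]
    push_cast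
    congr 1
    ring
  -- limit of the left side
  have hL : Tendsto (fun n => ∫ x in Om, cut (d n) x * (x 0 / q x * W 0 x + x 1 / q x * W 1 x))
      atTop (𝓝 (∫ x in Om, (x 0 / q x * W 0 x + x 1 / q x * W 1 x))) := by
    apply tendsto_integral_of_dominated_convergence
      (fun x => ‖x 0 / q x * W 0 x + x 1 / q x * W 1 x‖)
    · intro n
      exact (contDiff_cut (d n)).continuous.aestronglyMeasurable.mul hsum.aestronglyMeasurable
    · exact hsum.norm
    · intro n
      refine Eventually.of_forall fun x => ?_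
      rw [norm_mul, Real.norm_of_nonneg (cut_nonneg _ _)]
      calc _ ≤ 1 * ‖x 0 / q x * W 0 x + x 1 / q x * W 1 x‖ :=
            mul_le_mul_of_nonneg_right (cut_le_one _ _) (norm_nonneg _)
        _ = _ := one_mul _
    · filter_upwards [ae_restrict_mem hOmM] with x hx
      have hr := rho_lt_one.mp hx
      have hev : ∀ᶠ n in atTop, d n < (1 - rho x) / 2 :=
        hdlim.eventually_lt_const (by linarith)
      apply tendsto_const_nhds.congr'
      filter_upwards [hev] with n hn
      rw [cut_one (hd0 n) (by linarith), one_mul]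
  -- limit of the right side
  have hR : Tendsto (fun n => ∫ x in Om, cut (d n) x * (x 0 / q x * W 0 x + x 1 / q x * W 1 x))
      atTop (𝓝 0) := by
    rw [Metric.tendsto_atTop]
    intro ε hε
    set v := volume.real (ball (0 : E2) 1) with hv
    have hv0 : 0 ≤ v := measureReal_nonneg
    obtain ⟨m, hm1, hm⟩ := small_near hw hw0 (ε := ε / (C * v + 1)) (by positivity)
    obtain ⟨N, hN⟩ := eventually_atTop.mp (hdlim.eventually_lt_const
      (show (0 : ℝ) < (1 - m) / 2 by linarith))
    refine ⟨N, fun n hn => ?_⟩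
    have hdn := hN n hn
    have hd0n := hd0 n
    rw [hid (d n) (hd0 n), dist_zero_right, norm_neg]
    calc ‖∫ x in Om, w x * Gd (d n) x‖ ≤ ∫ x in Om, ‖w x * Gd (d n) x‖ :=
          norm_integral_le_integral_norm _
      _ ≤ ∫ x in Om, (shell (d n)).indicator (fun _ => ε / (C * v + 1) * (C / d n)) x := by
          apply integral_mono_of_nonneg
          · exact Eventually.of_forall fun x => norm_nonneg _
          · exact ((integrableOn_const hOmfin).integrable).indicator (measurableSet_shell _)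
          · rw [EventuallyLE, ae_restrict_iff' hOmM]
            refine Eventually.of_forall fun x hx => ?_
            rw [norm_mul, Real.norm_eq_abs, Real.norm_eq_abs]
            have hg := hC (d n) hd0n x hx
            by_cases hs : x ∈ shell (d n)
            · rw [indicator_of_mem hs] at hg ⊢
              apply mul_le_mul _ hg (abs_nonneg _) (by positivity)
              apply (hm x (Om_sub hx) _).le
              have := hs.1
              linarith
            · rw [indicator_of_notMem hs] at hg ⊢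
              have : |Gd (d n) x| = 0 := le_antisymm hg (abs_nonneg _)
              rw [this, mul_zero]
      _ = volume.real (shell (d n) ∩ Om) * (ε / (C * v + 1) * (C / d n)) := by
          rw [integral_indicator (measurableSet_shell _), Measure.restrict_restrict
            (measurableSet_shell _), setIntegral_const, smul_eq_mul]
      _ ≤ volume.real (shell (d n)) * (ε / (C * v + 1) * (C / d n)) := by
          apply mul_le_mul_of_nonneg_right _ (by positivity)
          refine measureReal_mono inter_subset_left ?_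
          rw [shell_eq hd0n (hd1 n)]
          exact ((measure_mono sdiff_subset).trans_lt (isCompact_closedBall _ _).measure_lt_top).ne
      _ = (ε / (C * v + 1)) * (C * v) := by
          rw [measure_shell hd0n (hd1 n), ← hv]
          field_simp
      _ < ε := by
          rw [div_mul_eq_mul_div, div_lt_iff₀ (by positivity)]
          nlinarith
  exact tendsto_nhds_unique hL hR

end Pool.Agent.MP_6ded3d_an
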