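import Mathlib
import Pool.Agent.MP_6ded3d_an.DivLemma

set_option autoImplicit false
set_option linter.unusedSectionVars false

open MeasureTheory Set Filter Topology Metric Module

namespace Pool.Agent.MP_6ded3d_an

/-- finite distortion, as in the frozen statement, in the plane -/
def FDp (Ω : Set E2) (f : E2 → E2) (Df : E2 → Matrix (Fin 2) (Fin 2) ℝ) : Prop :=
  ((∀ i : Fin 2, LocallyIntegrableOn (fun x => WithLp.ofLp (f x) i) Ω) ∧
       (∀ i j : Fin 2, LocallyIntegrableOn (fun x => Df x i j) Ω) ∧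
       (∀ φ : EuclideanSpace ℝ (Fin 2) → ℝ,
          ContDiff ℝ ((⊤ : ℕ∞) : WithTop ℕ∞) φ → HasCompactSupport φ → tsupport φ ⊆ Ω →
          ∀ i j : Fin 2,
            ∫ x in Ω, WithLp.ofLp (f x) i * fderiv ℝ φ x (EuclideanSpace.single j (1 : ℝ))
              = - ∫ x in Ω, Df x i j * φ x) ∧
       LocallyIntegrableOn (fun x => (Df x).det) Ω ∧
       (∀ᵐ x ∂(volume.restrict Ω), 0 ≤ (Df x).det) ∧
       ∃ K : EuclideanSpace ℝ (Fin 2) → ℝ, Measurable K ∧ (∀ x ∈ Ω, 1 ≤ K x) ∧
         ∀ᵐ x ∂(volume.restrict Ω), opN (Df x) ^ 2 ≤ K x * (Df x).det)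

/-! ### Topological facts -/

lemma closure_Om : closure Om = closedBall ctr 1 := closure_ball _ one_ne_zero

lemma isOpen_Om : IsOpen Om := isOpen_ball

lemma frontier_Om {x : E2} : x ∈ frontier Om ↔ rho x = 1 := by
  rw [Om, frontier_ball _ one_ne_zero, mem_sphere, ← dist_ctr_sq]
  constructor
  · intro h; rw [h]; norm_num
  · intro h
    have := dist_nonneg (x := x) (y := ctr)
    nlinarith

lemma fex_contAt {x : E2} (hx : 0 < x 0) : ContinuousAt fex x := (hasFDerivAt_fex hx).continuousAt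

lemma fex_cont : ContinuousOn fex (closedBall ctr 1) := fun x hx =>
  (fex_contAt (by have := x0_ge hx; linarith)).continuousWithinAt

lemma fex_inj : InjOn fex (closedBall ctr 1) := by
  intro x hx y hy hxy
  have hx0 : 0 < x 0 := by have := x0_ge hx; linarith
  have hy0 : 0 < y 0 := by have := x0_ge hy; linarith
  have h0 : prof (q x) = prof (q y) := by
    have := congrArg (fun v : E2 => v 0) hxy
    simpa [fex] using this
  have h1 : Real.arctan (x 1 / x 0) = Real.arctan (y 1 / y 0) := by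
    have := congrArg (fun v : E2 => v 1) hxy
    simpa [fex] using this
  have h2 : q x = q y := prof_strictMono.injOn (q_pos hx0) (q_pos hy0) h0
  have h3 : x 1 / x 0 = y 1 / y 0 := Real.arctan_injective h1
  rw [div_eq_div_iff hx0.ne' hy0.ne'] at h3
  unfold q at h2
  have h4 : (x 0) ^ 2 * ((y 0) ^ 2 + (y 1) ^ 2) = (y 0) ^ 2 * ((y 0) ^ 2 + (y 1) ^ 2) := by
    have h5 : (x 1 * y 0) ^ 2 = (y 1 * x 0) ^ 2 := by rw [h3]
    nlinarith
  have h6 : 0 < (y 0) ^ 2 + (y 1) ^ 2 := by positivity
  have h7 : (x 0) ^ 2 = (y 0) ^ 2 := mul_right_cancel₀ h6.ne' h4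
  have h8 : x 0 = y 0 := by
    have := (sq_eq_sq₀ hx0.le hy0.le).mp h7
    exact this
  have h9 : x 1 = y 1 := by
    rw [h8] at h3
    exact mul_right_cancel₀ hy0.ne' h3
  ext i
  fin_cases i
  · exact h8
  · exact h9

lemma fex_image_closure : fex '' closure Om = closure (fex '' Om) := by
  apply Subset.antisymm
  · exact ContinuousOn.image_closure (by rw [closure_Om]; exact fex_cont)
  · apply closure_minimal (image_mono subset_closure)
    rw [closure_Om]
    exact ((isCompact_closedBall _ _).image_of_continuousOn fex_cont).isClosed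

/-- maps of the class send the disc into the image of the disc under `fex` -/
lemma image_subset {h : E2 → E2} (hinj : InjOn h (closure Om))
    (himg : h '' closure Om = closure (fex '' Om)) (hbd : ∀ x ∈ frontier Om, h x = fex x) :
    h '' Om ⊆ fex '' Om := by
  rintro _ ⟨x, hx, rfl⟩
  have h1 : h x ∈ closure (fex '' Om) := by
    rw [← himg]; exact ⟨x, subset_closure hx, rfl⟩
  rw [← fex_image_closure] at h1
  obtain ⟨y, hy, hyx⟩ := h1
  by_cases hyO : y ∈ Om
  · exact ⟨y, hyO, hyx⟩
  · exfalso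
    have hyf : y ∈ frontier Om := by
      rw [isOpen_Om.frontier_eq]; exact ⟨hy, hyO⟩
    have h2 : h y = h x := by rw [hbd y hyf, hyx]
    have h3 := hinj hy (subset_closure hx) h2
    rw [h3] at hyO
    exact hyO hx

/-! ### Bounds for the example on the disc -/

lemma q_ge {x : E2} (hx : x ∈ closedBall ctr 1) : 1 / 4 ≤ q x := by
  have := x0_ge hx
  unfold q
  nlinarith [sq_nonneg (x 1)]

lemma kap_le {x : E2} (hx : x ∈ closedBall ctr 1) : kap x ≤ 4 := by
  have h := q_ge hx
  unfold kap
  apply max_le (by norm_num)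
  rw [inv_le_comm₀ (by linarith) (by norm_num)]
  linarith

lemma kap_contAt {x : E2} (hx : 0 < x 0) : ContinuousAt kap x := by
  unfold kap
  exact continuousAt_const.max (continuous_q.continuousAt.inv₀ (q_pos hx).ne')

lemma coord_cont (j : Fin 2) : Continuous (fun x : E2 => x j) := (pr j).continuous

lemma Dfex_contAt {x : E2} (hx : 0 < x 0) (i j : Fin 2) :
    ContinuousAt (fun x => Dfex x i j) x := by
  have hq := (q_pos hx).ne'
  have hk := kap_contAt hx
  have hqc := continuous_q.continuousAt (x := x)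
  have h0 := (coord_cont 0).continuousAt (x := x)
  have h1 := (coord_cont 1).continuousAt (x := x)
  fin_cases i <;> fin_cases j
  · exact (hk.mul h0).div hqc hq
  · exact (hk.mul h1).div hqc hq
  · exact h1.neg.div hqc hq
  · exact h0.div hqc hq

lemma det_contAt {x : E2} (hx : 0 < x 0) : ContinuousAt (fun x => (Dfex x).det) x := by
  simp only [Matrix.det_fin_two]
  exact ((Dfex_contAt hx 0 0).mul (Dfex_contAt hx 1 1)).sub
    ((Dfex_contAt hx 0 1).mul (Dfex_contAt hx 1 0))

lemma contOn_of {g : E2 → ℝ} (h : ∀ x : E2, 0 < x 0 → ContinuousAt g x) :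
    ContinuousOn g (closedBall ctr 1) := fun x hx =>
  (h x (by have := x0_ge hx; linarith)).continuousWithinAt

lemma intOn_of {g : E2 → ℝ} (h : ∀ x : E2, 0 < x 0 → ContinuousAt g x) :
    IntegrableOn g Om :=
  ((contOn_of h).integrableOn_compact (isCompact_closedBall _ _)).mono_set Om_sub

lemma fex_comp_contAt {x : E2} (hx : 0 < x 0) (i : Fin 2) : ContinuousAt (fun x => fex x i) x :=
  (coord_cont i).continuousAt.comp (fex_contAt hx)

lemma locInt_of_intOn {g : E2 → ℝ} (h : IntegrableOn g Om) : LocallyIntegrableOn g Om :=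
  h.locallyIntegrableOn

/-- frobenius bound -/
lemma opN_sq_le (A : Matrix (Fin 2) (Fin 2) ℝ) :
    opN A ^ 2 ≤ A 0 0 ^ 2 + A 0 1 ^ 2 + A 1 0 ^ 2 + A 1 1 ^ 2 := by
  set S := A 0 0 ^ 2 + A 0 1 ^ 2 + A 1 0 ^ 2 + A 1 1 ^ 2 with hS
  have hS0 : 0 ≤ S := by positivity
  have h : opN A ≤ Real.sqrt S := by
    apply opN_le_of (Real.sqrt_nonneg _)
    intro a b
    rw [Real.sq_sqrt hS0, hS]
    nlinarith [sq_nonneg (A 0 0 * b - A 0 1 * a), sq_nonneg (A 1 0 * b - A 1 1 * a)]
  calc opN A ^ 2 ≤ Real.sqrt S ^ 2 := pow_le_pow_left₀ (opN_nonneg _) h 2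
    _ = S := Real.sq_sqrt hS0

lemma Dfex_frob {x : E2} (hx : 0 < x 0) :
    Dfex x 0 0 ^ 2 + Dfex x 0 1 ^ 2 + Dfex x 1 0 ^ 2 + Dfex x 1 1 ^ 2
      = (kap x ^ 2 + 1) / q x := by
  have hq := q_pos hx
  have hq' : q x = x 0 ^ 2 + x 1 ^ 2 := rfl
  simp only [Dfex, Matrix.of_apply, Matrix.cons_val', Matrix.cons_val_zero, Matrix.cons_val_one,
    Matrix.cons_val_fin_one]
  rw [hq'] at hq ⊢
  field_simp
  ring

/-- integration by parts for the example -/
lemma fex_weak (φ : E2 → ℝ) (hφ : ContDiff ℝ ((⊤ : ℕ∞) : WithTop ℕ∞) φ)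
    (_hφc : HasCompactSupport φ) (hφs : tsupport φ ⊆ Om) (i j : Fin 2) :
    ∫ x in Om, WithLp.ofLp (fex x) i * fderiv ℝ φ x (EuclideanSpace.single j (1 : ℝ))
      = - ∫ x in Om, Dfex x i j * φ x := by
  have hφ0 : ∀ x, x ∉ Om → φ x = 0 := fun x hx =>
    image_eq_zero_of_notMem_tsupport fun hh => hx (hφs hh)
  have hdφ0 : ∀ x, x ∉ Om → fderiv ℝ φ x = 0 := fun x hx =>
    image_eq_zero_of_notMem_tsupport fun hh => hx (hφs (tsupport_fderiv_subset ℝ hh))
  have hφd : ∀ x, DifferentiableAt ℝ φ x := fun x =>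
    (hφ.differentiable (by simp)).differentiableAt
  have hder : ∀ x ∈ Om, HasFDerivAt (fun x => WithLp.ofLp (fex x) i)
      ((pr i).comp (toCLM (Dfex x))) x := fun x hx =>
    ((pr i).hasFDerivAt).comp x (hasFDerivAt_fex (x0_pos hx))
  have hdcont : Continuous (fun x => fderiv ℝ φ x (EuclideanSpace.single j (1 : ℝ))) :=
    (hφ.continuous_fderiv (by simp)).clm_apply continuous_const
  have hval : ∀ x, ((pr i).comp (toCLM (Dfex x))) (EuclideanSpace.single j (1 : ℝ)) = Dfex x i j :=
    fun x => toCLM_single (Dfex x) i j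
  -- integrability
  have I1 : Integrable (fun x => fderiv ℝ φ x (EuclideanSpace.single j (1 : ℝ))
      * WithLp.ofLp (fex x) i) := by
    have : IntegrableOn (fun x => fderiv ℝ φ x (EuclideanSpace.single j (1 : ℝ))
      * WithLp.ofLp (fex x) i) Om :=
      intOn_of fun x hx => hdcont.continuousAt.mul (fex_comp_contAt hx i)
    rwa [integrableOn_iff_integrable_of_support_subset] at this
    intro x hx
    by_contra h
    apply hx
    simp [hdφ0 x h]
  have I2 : Integrable (fun x => φ x * Dfex x i j) := by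
    have : IntegrableOn (fun x => φ x * Dfex x i j) Om :=
      intOn_of fun x hx => hφ.continuous.continuousAt.mul (Dfex_contAt hx i j)
    rwa [integrableOn_iff_integrable_of_support_subset] at this
    intro x hx
    by_contra h
    apply hx
    simp [hφ0 x h]
  have I3 : Integrable (fun x => φ x * WithLp.ofLp (fex x) i) := by
    have : IntegrableOn (fun x => φ x * WithLp.ofLp (fex x) i) Om :=
      intOn_of fun x hx => hφ.continuous.continuousAt.mul (fex_comp_contAt hx i)
    rwa [integrableOn_iff_integrable_of_support_subset] at this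
    intro x hx
    by_contra h
    apply hx
    simp [hφ0 x h]
  have key := integral_bilinear_hasFDerivAt_right_eq_neg_left_of_integrable (μ := volume)
    (f := φ) (f' := fun x => fderiv ℝ φ x) (g := fun x => WithLp.ofLp (fex x) i)
    (g' := fun x => (pr i).comp (toCLM (Dfex x))) (v := EuclideanSpace.single j (1 : ℝ))
    (B := ContinuousLinearMap.mul ℝ ℝ) I1
    (by simp only [hval]; exact I2) I3 (fun x _ => (hφd x).hasFDerivAt)
    (fun x hx => hder x (hφs hx))
  simp only [hval, ContinuousLinearMap.mul_apply'] at key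
  rw [setIntegral_eq_integral_of_forall_compl_eq_zero (fun x hx => by
      rw [hdφ0 x hx]; simp),
    setIntegral_eq_integral_of_forall_compl_eq_zero (fun x hx => by
      rw [hφ0 x hx]; simp)]
  have k1 : ∫ x, WithLp.ofLp (fex x) i * fderiv ℝ φ x (EuclideanSpace.single j (1 : ℝ))
      = ∫ x, fderiv ℝ φ x (EuclideanSpace.single j (1 : ℝ)) * WithLp.ofLp (fex x) i := by
    congr 1; funext x; ring
  have k2 : ∫ x, Dfex x i j * φ x = ∫ x, φ x * Dfex x i j := by
    congr 1; funext x; ring
  rw [k1, k2, key, neg_neg]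

lemma fex_FD : FDp Om fex Dfex := by
  refine ⟨fun i => ?_, fun i j => ?_, fun φ h1 h2 h3 i j => fex_weak φ h1 h2 h3 i j, ?_, ?_, ?_⟩
  · exact locInt_of_intOn (intOn_of fun x hx => fex_comp_contAt hx i)
  · exact locInt_of_intOn (intOn_of fun x hx => Dfex_contAt hx i j)
  · exact locInt_of_intOn (intOn_of fun x hx => det_contAt hx)
  · filter_upwards [ae_restrict_mem isOpen_Om.measurableSet] with x hx
    have hx0 := x0_pos hx
    rw [det_Dfex hx0]
    have := kap_ge_one x
    have := q_pos hx0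
    positivity
  · refine ⟨fun x => kap x + (kap x)⁻¹, ?_, ?_, ?_⟩
    · have h1 : Measurable kap := by
        unfold kap
        exact measurable_const.max continuous_q.measurable.inv
      exact h1.add h1.inv
    · intro x _
      have := kap_ge_one x
      have h2 : 0 < (kap x)⁻¹ := by positivity
      linarith
    · filter_upwards [ae_restrict_mem isOpen_Om.measurableSet] with x hx
      have hx0 := x0_pos hx
      have hk := kap_ge_one x
      have hq := q_pos hx0
      refine (opN_sq_le _).trans ?_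
      rw [Dfex_frob hx0, det_Dfex hx0]
      apply le_of_eq
      have : kap x ≠ 0 := by positivity
      field_simp

lemma KIm_nonneg {n : ℕ} (A : Matrix (Fin n) (Fin n) ℝ) : 0 ≤ KIm A := by
  unfold KIm
  split_ifs with h
  · have := opN_nonneg A.adjugate
    positivity
  · norm_num

lemma fex_energy : ∫⁻ x in Om, ENNReal.ofReal (KIm (Dfex x) ^ (2 : ℝ)) < ⊤ := by
  have h1 : ∫⁻ x in Om, ENNReal.ofReal (KIm (Dfex x) ^ (2 : ℝ))
      ≤ ∫⁻ _ in Om, ENNReal.ofReal 16 := by
    apply lintegral_mono_ae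
    filter_upwards [ae_restrict_mem isOpen_Om.measurableSet] with x hx
    apply ENNReal.ofReal_le_ofReal
    rw [Real.rpow_two]
    have h2 := KIm_Dfex_le (x0_pos hx)
    have h3 := kap_le (Om_sub hx)
    have h4 := KIm_nonneg (Dfex x)
    nlinarith
  refine h1.trans_lt ?_
  rw [setLIntegral_const]
  exact ENNReal.mul_lt_top ENNReal.ofReal_lt_top measure_ball_lt_top

end Pool.Agent.MP_6ded3d_an
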