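import Mathlib
import Pool.Agent.MP_6ded3d_an.Minimal

set_option autoImplicit false
set_option linter.unusedSectionVars false

open MeasureTheory Set Filter Topology Metric Module

namespace Pool.Agent.MP_6ded3d_an.P

/-- the distortion of the example, s = 1/(p-1) -/
noncomputable def kap (s : ℝ) (x : E2) : ℝ := max 1 ((q x) ^ (-s))

/-- derivative of the profile -/
noncomputable def sd (s t : ℝ) : ℝ := max 1 (t ^ (-s)) * (2 * t)⁻¹

/-- the profile -/
noncomputable def prof (s t : ℝ) : ℝ := ∫ r in (1 : ℝ)..t, sd s r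

/-- the example -/
noncomputable def fex (s : ℝ) (x : E2) : E2 := !₂[prof s (q x), Real.arctan (x 1 / x 0)]

/-- its differential -/
noncomputable def Dfex (s : ℝ) (x : E2) : Matrix (Fin 2) (Fin 2) ℝ :=
  !![kap s x * x 0 / q x, kap s x * x 1 / q x; - x 1 / q x, x 0 / q x]

variable {s : ℝ}

lemma kap_ge_one (x : E2) : 1 ≤ kap s x := le_max_left _ _

lemma sd_cont {t : ℝ} (ht : 0 < t) : ContinuousAt (sd s) t := by
  unfold sd
  have h1 : ContinuousAt (fun t : ℝ => t ^ (-s)) t :=
    Real.continuousAt_rpow_const _ _ (Or.inl ht.ne')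
  have h2 : ContinuousAt (fun t : ℝ => (2 * t)⁻¹) t :=
    (continuousAt_const.mul continuousAt_id).inv₀ (by simpa using ht.ne')
  exact (continuousAt_const.max h1).mul h2

lemma sd_contOn : ContinuousOn (sd s) (Ioi 0) := fun _ ht => (sd_cont ht).continuousWithinAt

lemma hasDerivAt_prof {t : ℝ} (ht : 0 < t) : HasDerivAt (prof s) (sd s t) t := by
  unfold prof
  apply intervalIntegral.integral_hasDerivAt_right
  · apply ContinuousOn.intervalIntegrable
    apply sd_contOn.mono
    intro r hr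
    have : min 1 t ≤ r := hr.1
    exact lt_of_lt_of_le (lt_min one_pos ht) this
  · exact sd_contOn.stronglyMeasurableAtFilter isOpen_Ioi t ht
  · exact sd_cont ht

lemma sd_pos {t : ℝ} (ht : 0 < t) : 0 < sd s t := by
  unfold sd
  have : (0 : ℝ) < max 1 (t ^ (-s)) := lt_of_lt_of_le one_pos (le_max_left _ _)
  positivity

lemma prof_strictMono : StrictMonoOn (prof s) (Ioi 0) := by
  apply strictMonoOn_of_deriv_pos (convex_Ioi 0)
  · exact fun t ht => (hasDerivAt_prof ht).continuousAt.continuousWithinAt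
  · intro t ht
    rw [interior_Ioi] at ht
    rw [(hasDerivAt_prof ht).deriv]
    exact sd_pos ht

lemma hasFDerivAt_fex0 {x : E2} (hx : 0 < x 0) :
    HasFDerivAt (fun x => fex s x 0)
      ((kap s x * x 0 / q x) • pr 0 + (kap s x * x 1 / q x) • pr 1) x := by
  have hq := q_pos hx
  have h1 := (hasDerivAt_prof (s := s) hq).comp_hasFDerivAt x (hasFDerivAt_q x)
  have h2 : (fun x => fex s x 0) = prof s ∘ q := by
    funext x; simp [fex]
  rw [h2]
  refine h1.congr_fderiv ?_
  ext v
  simp only [sd, kap, pr, _root_.add_apply, _root_.smul_apply, smul_eq_mul]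
  field_simp

lemma hasFDerivAt_fex1 {x : E2} (hx : 0 < x 0) :
    HasFDerivAt (fun x => fex s x 1) ((- x 1 / q x) • pr 0 + (x 0 / q x) • pr 1) x := by
  have h := MP_6ded3d_an.hasFDerivAt_fex1 hx
  exact h

lemma hasFDerivAt_fex {x : E2} (hx : 0 < x 0) : HasFDerivAt (fex s) (toCLM (Dfex s x)) x := by
  rw [← hasFDerivWithinAt_univ, hasFDerivWithinAt_euclidean]
  intro i
  rw [hasFDerivWithinAt_univ]
  fin_cases i
  · refine (hasFDerivAt_fex0 hx).congr_fderiv ?_
    ext v
    simp [toCLM, Dfex, pr, Matrix.toLpLin_apply, Matrix.vecHead, Matrix.vecTail]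
  · refine (hasFDerivAt_fex1 (s := s) hx).congr_fderiv ?_
    ext v
    simp [toCLM, Dfex, pr, Matrix.toLpLin_apply, Matrix.vecHead, Matrix.vecTail]

lemma det_Dfex {x : E2} (hx : 0 < x 0) : (Dfex s x).det = kap s x / q x := by
  have hq := q_pos hx
  have hq' : q x = x 0 ^ 2 + x 1 ^ 2 := rfl
  rw [Matrix.det_fin_two]
  simp only [Dfex, Matrix.of_apply, Matrix.cons_val', Matrix.cons_val_zero, Matrix.cons_val_one,
    Matrix.cons_val_fin_one]
  generalize kap s x = k
  rw [hq'] at hq ⊢
  field_simp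
  ring

lemma KIm_Dfex_le {x : E2} (hx : 0 < x 0) : KIm (Dfex s x) ≤ kap s x := by
  have hq := q_pos hx
  have hk := kap_ge_one (s := s) x
  have hk0 : 0 < kap s x := by linarith
  have hdet : 0 < (Dfex s x).det := by rw [det_Dfex hx]; positivity
  unfold KIm
  rw [if_pos hdet, det_Dfex hx]
  have hop : opN (Dfex s x).adjugate ≤ kap s x / Real.sqrt (q x) := by
    apply opN_le_of (by positivity)
    intro a b
    rw [Matrix.adjugate_fin_two, div_pow, Real.sq_sqrt hq.le]
    simp only [Dfex, Matrix.of_apply, Matrix.cons_val', Matrix.cons_val_zero, Matrix.cons_val_one,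
      Matrix.cons_val_fin_one]
    have hq' : q x = x 0 ^ 2 + x 1 ^ 2 := rfl
    have e1 : (x 0 / q x * a + -(kap s x * x 1 / q x) * b) ^ 2
        + (-(-x 1 / q x) * a + kap s x * x 0 / q x * b) ^ 2
        = (a ^ 2 + kap s x ^ 2 * b ^ 2) / q x := by
      generalize kap s x = k
      rw [hq'] at hq ⊢
      field_simp
      ring
    rw [e1, div_mul_eq_mul_div]
    apply div_le_div_of_nonneg_right _ hq.le
    have h5 : 1 ≤ kap s x ^ 2 := one_le_pow₀ hk
    nlinarith [mul_le_mul_of_nonneg_right h5 (sq_nonneg a)]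
  have h2 := pow_le_pow_left₀ (opN_nonneg _) hop 2
  rw [div_pow, Real.sq_sqrt hq.le] at h2
  simp only [show (2 : ℕ) - 1 = 1 from rfl, pow_one]
  rw [div_le_iff₀ (by positivity)]
  calc _ ≤ _ := h2
    _ = _ := by ring

/-- tangent line inequality for the power -/
lemma rpow_tangent {p a b : ℝ} (hp : 1 < p) (ha : 1 ≤ a) (hb : 1 ≤ b) :
    p * a ^ (p - 1) * (b - a) ≤ b ^ p - a ^ p := by
  have ha0 : 0 < a := by linarith
  have h := one_add_mul_self_le_rpow_one_add (s := b / a - 1) (by
    have : 0 ≤ b / a := by positivity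
    linarith) hp.le
  have h1 : (1 + (b / a - 1)) = b / a := by ring
  rw [h1, Real.div_rpow (by linarith) ha0.le] at h
  have hap : 0 < a ^ p := Real.rpow_pos_of_pos ha0 p
  have h2 := mul_le_mul_of_nonneg_right h hap.le
  rw [div_mul_cancel₀ _ hap.ne'] at h2
  have h3 : a ^ p = a ^ (p - 1) * a := by
    rw [← Real.rpow_add_one ha0.ne']
    congr 1
    ring
  have h4 : (1 + p * (b / a - 1)) * a ^ p = a ^ p + p * a ^ (p - 1) * (b - a) := by
    rw [h3]
    field_simp
  rw [h4] at h2
  linarith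

/-- The pointwise calibration inequality. -/
lemma pointwise {p : ℝ} (hp : 1 < p) (hs : s = (p - 1)⁻¹) {x : E2} (hx : 0 < x 0)
    {A : Matrix (Fin 2) (Fin 2) ℝ} (h0 : 0 ≤ A.det) (hA : A.det = 0 → A = 0) :
    kap s x ^ p + (2 * p * (x 0 / q x * (A 0 0 - Dfex s x 0 0) + x 1 / q x * (A 0 1 - Dfex s x 0 1))
      - p * (A.det - (Dfex s x).det)) ≤ KIm A ^ p := by
  obtain ⟨hK1, hK2⟩ := KIm_facts h0 hA
  have hq := q_pos hx
  have hq' : q x = x 0 ^ 2 + x 1 ^ 2 := rfl
  have hk := kap_ge_one (s := s) x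
  set K := KIm A with hKdef
  set a := x 0 / q x * A 0 0 + x 1 / q x * A 0 1 with ha
  have ha2 : (q x) * a ^ 2 ≤ K * A.det := by
    refine le_trans ?_ hK2
    have e1 : q x * a ^ 2 = (x 0 * A 0 0 + x 1 * A 0 1) ^ 2 / q x := by
      rw [ha]; field_simp
    rw [e1, div_le_iff₀ hq, hq']
    nlinarith [sq_nonneg (x 0 * A 0 1 - x 1 * A 0 0)]
  have ha3 : 2 * a ≤ K / q x + A.det := by
    have hnn : 0 ≤ K / q x + A.det := by positivity
    refine (abs_le_of_sq_le_sq' ?_ hnn).2
    have e2 : (2 * a) ^ 2 ≤ 4 * (K / q x) * A.det := by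
      rw [show 4 * (K / q x) * A.det = 4 * (K * A.det) / q x by ring, le_div_iff₀ hq]
      nlinarith
    nlinarith [sq_nonneg (K / q x - A.det)]
  have hf : x 0 / q x * Dfex s x 0 0 + x 1 / q x * Dfex s x 0 1 = kap s x / q x := by
    simp only [Dfex, Matrix.of_apply, Matrix.cons_val', Matrix.cons_val_zero, Matrix.cons_val_one,
      Matrix.cons_val_fin_one]
    generalize kap s x = k
    rw [hq'] at hq ⊢
    field_simp
  rw [det_Dfex hx]
  have hp1 : 0 < p - 1 := by linarith
  have hp0 : 0 < p := by linarith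
  have hs0 : 0 < s := by rw [hs]; positivity
  have hmain : p * (q x)⁻¹ * (K - kap s x) ≤ K ^ p - kap s x ^ p := by
    have ht := rpow_tangent hp hk hK1
    rcases le_total 1 ((q x) ^ (-s)) with h | h
    · have hkq : kap s x = (q x) ^ (-s) := max_eq_right h
      have e : kap s x ^ (p - 1) = (q x)⁻¹ := by
        rw [hkq, ← Real.rpow_mul hq.le, hs]
        rw [show -(p - 1)⁻¹ * (p - 1) = -1 by field_simp]
        exact Real.rpow_neg_one _
      rw [e] at ht
      exact ht
    · have hkq : kap s x = 1 := max_eq_left h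
      rw [hkq] at ht ⊢
      rw [Real.one_rpow, mul_one, Real.one_rpow] at ht
      rw [Real.one_rpow]
      refine le_trans ?_ ht
      have hqi : (q x)⁻¹ ≤ 1 := by
        have h1q : 1 ≤ q x := by
          by_contra hlt
          push Not at hlt
          have := Real.one_lt_rpow_of_pos_of_lt_one_of_neg hq hlt (by linarith : -s < 0)
          linarith
        exact inv_le_one_of_one_le₀ h1q
      have hK0 : 0 ≤ K - 1 := by linarith
      have := mul_le_mul_of_nonneg_left (mul_le_mul_of_nonneg_right hqi hK0) hp0.le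
      rw [one_mul] at this
      linarith
  have e3 : 2 * p * (x 0 / q x * (A 0 0 - Dfex s x 0 0) + x 1 / q x * (A 0 1 - Dfex s x 0 1))
      = 2 * p * a - 2 * p * (kap s x / q x) := by
    rw [← hf, ha]; ring
  rw [e3]
  have e4 : p * (q x)⁻¹ * (K - kap s x) = p * (K / q x) - p * (kap s x / q x) := by
    rw [div_eq_mul_inv, div_eq_mul_inv]; ring
  rw [e4] at hmain
  have e5 : p * (2 * a) ≤ p * (K / q x + A.det) := mul_le_mul_of_nonneg_left ha3 hp0.le
  linarith

end Pool.Agent.MP_6ded3d_an.P
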