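import Mathlib
import Pool.Agent.MP_6ded3d_an.AllP

set_option autoImplicit false
set_option linter.unusedSectionVars false

open MeasureTheory Set Filter Topology Metric Module

namespace Pool.Agent.MP_6ded3d_an.P

variable {s : ℝ}

lemma fex_contAt {x : E2} (hx : 0 < x 0) : ContinuousAt (fex s) x := (hasFDerivAt_fex hx).continuousAt

lemma fex_cont : ContinuousOn (fex s) (closedBall ctr 1) := fun x hx =>
  (fex_contAt (by have := x0_ge hx; linarith)).continuousWithinAt

lemma fex_inj : InjOn (fex s) (closedBall ctr 1) := by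
  intro x hx y hy hxy
  have hx0 : 0 < x 0 := by have := x0_ge hx; linarith
  have hy0 : 0 < y 0 := by have := x0_ge hy; linarith
  have h0 : prof s (q x) = prof s (q y) := by
    have := congrArg (fun v : E2 => v 0) hxy
    simpa [fex] using this
  have h1 : Real.arctan (x 1 / x 0) = Real.arctan (y 1 / y 0) := by
    have := congrArg (fun v : E2 => v 1) hxy
    simpa [fex] using this
  have h2 : q x = q y := prof_strictMono.injOn (q_pos hx0) (q_pos hy0) h0
  have h3 : x 1 / x 0 = y 1 / y 0 := Real.arctan_injective h1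
  rw [div_eq_div_iff hx0.ne' hy0.ne'] at h3
  unfold q at h2
  have h4 : (x 0) ^ 2 * ((y 0) ^ 2 + (y 1) ^ 2) = (y 0) ^ 2 * ((y 0) ^ 2 + (y 1) ^ 2) := by
    have h5 : (x 1 * y 0) ^ 2 = (y 1 * x 0) ^ 2 := by rw [h3]
    nlinarith
  have h6 : 0 < (y 0) ^ 2 + (y 1) ^ 2 := by positivity
  have h7 : (x 0) ^ 2 = (y 0) ^ 2 := mul_right_cancel₀ h6.ne' h4
  have h8 : x 0 = y 0 := by
    have := (sq_eq_sq₀ hx0.le hy0.le).mp h7
    exact this
  have h9 : x 1 = y 1 := by
    rw [h8] at h3
    exact mul_right_cancel₀ hy0.ne' h3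
  ext i
  fin_cases i
  · exact h8
  · exact h9

lemma fex_image_closure : fex s '' closure Om = closure (fex s '' Om) := by
  apply Subset.antisymm
  · exact ContinuousOn.image_closure (by rw [closure_Om]; exact fex_cont)
  · apply closure_minimal (image_mono subset_closure)
    rw [closure_Om]
    exact ((isCompact_closedBall _ _).image_of_continuousOn fex_cont).isClosed

/-- maps of the class send the disc into the image of the disc under the example -/
lemma image_subset {h : E2 → E2} (hinj : InjOn h (closure Om))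
    (himg : h '' closure Om = closure (fex s '' Om)) (hbd : ∀ x ∈ frontier Om, h x = fex s x) :
    h '' Om ⊆ fex s '' Om := by
  rintro _ ⟨x, hx, rfl⟩
  have h1 : h x ∈ closure (fex s '' Om) := by
    rw [← himg]; exact ⟨x, subset_closure hx, rfl⟩
  rw [← fex_image_closure] at h1
  obtain ⟨y, hy, hyx⟩ := h1
  by_cases hyO : y ∈ Om
  · exact ⟨y, hyO, hyx⟩
  · exfalso
    have hyf : y ∈ frontier Om := by
      rw [isOpen_Om.frontier_eq]; exact ⟨hy, hyO⟩
    have h2 : h y = h x := by rw [hbd y hyf, hyx]
    have h3 := hinj hy (subset_closure hx) h2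
    rw [h3] at hyO
    exact hyO hx

/-! ### Bounds -/

lemma kap_le (hs : 0 < s) {x : E2} (hx : x ∈ closedBall ctr 1) : kap s x ≤ 4 ^ s := by
  have h := q_ge hx
  unfold kap
  apply max_le
  · exact Real.one_le_rpow (by norm_num) hs.le
  · have hq : 0 < q x := by linarith
    rw [Real.rpow_neg hq.le, ← Real.inv_rpow hq.le]
    apply Real.rpow_le_rpow (by positivity) _ hs.le
    rw [inv_le_comm₀ hq (by norm_num)]
    linarith

lemma kap_contAt {x : E2} (hx : 0 < x 0) : ContinuousAt (kap s) x := by
  unfold kap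
  exact continuousAt_const.max
    ((Real.continuousAt_rpow_const _ _ (Or.inl (q_pos hx).ne')).comp continuous_q.continuousAt)

lemma Dfex_contAt {x : E2} (hx : 0 < x 0) (i j : Fin 2) :
    ContinuousAt (fun x => Dfex s x i j) x := by
  have hq := (q_pos hx).ne'
  have hk := kap_contAt (s := s) hx
  have hqc := continuous_q.continuousAt (x := x)
  have h0 := (coord_cont 0).continuousAt (x := x)
  have h1 := (coord_cont 1).continuousAt (x := x)
  fin_cases i <;> fin_cases j
  · exact (hk.mul h0).div hqc hq
  · exact (hk.mul h1).div hqc hq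
  · exact h1.neg.div hqc hq
  · exact h0.div hqc hq

lemma det_contAt {x : E2} (hx : 0 < x 0) : ContinuousAt (fun x => (Dfex s x).det) x := by
  simp only [Matrix.det_fin_two]
  exact ((Dfex_contAt hx 0 0).mul (Dfex_contAt hx 1 1)).sub
    ((Dfex_contAt hx 0 1).mul (Dfex_contAt hx 1 0))

lemma fex_comp_contAt {x : E2} (hx : 0 < x 0) (i : Fin 2) : ContinuousAt (fun x => fex s x i) x :=
  (coord_cont i).continuousAt.comp (fex_contAt hx)

lemma Dfex_frob {x : E2} (hx : 0 < x 0) :
    Dfex s x 0 0 ^ 2 + Dfex s x 0 1 ^ 2 + Dfex s x 1 0 ^ 2 + Dfex s x 1 1 ^ 2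
      = (kap s x ^ 2 + 1) / q x := by
  have hq := q_pos hx
  have hq' : q x = x 0 ^ 2 + x 1 ^ 2 := rfl
  simp only [Dfex, Matrix.of_apply, Matrix.cons_val', Matrix.cons_val_zero, Matrix.cons_val_one,
    Matrix.cons_val_fin_one]
  rw [hq'] at hq ⊢
  field_simp
  ring

/-- integration by parts for the example -/
lemma fex_weak (φ : E2 → ℝ) (hφ : ContDiff ℝ ((⊤ : ℕ∞) : WithTop ℕ∞) φ)
    (_hφc : HasCompactSupport φ) (hφs : tsupport φ ⊆ Om) (i j : Fin 2) :
    ∫ x in Om, WithLp.ofLp (fex s x) i * fderiv ℝ φ x (EuclideanSpace.single j (1 : ℝ))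
      = - ∫ x in Om, Dfex s x i j * φ x := by
  have hφ0 : ∀ x, x ∉ Om → φ x = 0 := fun x hx =>
    image_eq_zero_of_notMem_tsupport fun hh => hx (hφs hh)
  have hdφ0 : ∀ x, x ∉ Om → fderiv ℝ φ x = 0 := fun x hx =>
    image_eq_zero_of_notMem_tsupport fun hh => hx (hφs (tsupport_fderiv_subset ℝ hh))
  have hφd : ∀ x, DifferentiableAt ℝ φ x := fun x =>
    (hφ.differentiable (by simp)).differentiableAt
  have hder : ∀ x ∈ Om, HasFDerivAt (fun x => WithLp.ofLp (fex s x) i)
      ((pr i).comp (toCLM (Dfex s x))) x := fun x hx =>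
    ((pr i).hasFDerivAt).comp x (hasFDerivAt_fex (x0_pos hx))
  have hdcont : Continuous (fun x => fderiv ℝ φ x (EuclideanSpace.single j (1 : ℝ))) :=
    (hφ.continuous_fderiv (by simp)).clm_apply continuous_const
  have hval : ∀ x, ((pr i).comp (toCLM (Dfex s x))) (EuclideanSpace.single j (1 : ℝ)) = Dfex s x i j :=
    fun x => toCLM_single (Dfex s x) i j
  -- integrability
  have I1 : Integrable (fun x => fderiv ℝ φ x (EuclideanSpace.single j (1 : ℝ))
      * WithLp.ofLp (fex s x) i) := by
    have : IntegrableOn (fun x => fderiv ℝ φ x (EuclideanSpace.single j (1 : ℝ))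
      * WithLp.ofLp (fex s x) i) Om :=
      intOn_of fun x hx => hdcont.continuousAt.mul (fex_comp_contAt hx i)
    rwa [integrableOn_iff_integrable_of_support_subset] at this
    intro x hx
    by_contra h
    apply hx
    simp [hdφ0 x h]
  have I2 : Integrable (fun x => φ x * Dfex s x i j) := by
    have : IntegrableOn (fun x => φ x * Dfex s x i j) Om :=
      intOn_of fun x hx => hφ.continuous.continuousAt.mul (Dfex_contAt hx i j)
    rwa [integrableOn_iff_integrable_of_support_subset] at this
    intro x hx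
    by_contra h
    apply hx
    simp [hφ0 x h]
  have I3 : Integrable (fun x => φ x * WithLp.ofLp (fex s x) i) := by
    have : IntegrableOn (fun x => φ x * WithLp.ofLp (fex s x) i) Om :=
      intOn_of fun x hx => hφ.continuous.continuousAt.mul (fex_comp_contAt hx i)
    rwa [integrableOn_iff_integrable_of_support_subset] at this
    intro x hx
    by_contra h
    apply hx
    simp [hφ0 x h]
  have key := integral_bilinear_hasFDerivAt_right_eq_neg_left_of_integrable (μ := volume)
    (f := φ) (f' := fun x => fderiv ℝ φ x) (g := fun x => WithLp.ofLp (fex s x) i)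
    (g' := fun x => (pr i).comp (toCLM (Dfex s x))) (v := EuclideanSpace.single j (1 : ℝ))
    (B := ContinuousLinearMap.mul ℝ ℝ) I1
    (by simp only [hval]; exact I2) I3 (fun x _ => (hφd x).hasFDerivAt)
    (fun x hx => hder x (hφs hx))
  simp only [hval, ContinuousLinearMap.mul_apply'] at key
  rw [setIntegral_eq_integral_of_forall_compl_eq_zero (fun x hx => by
      rw [hdφ0 x hx]; simp),
    setIntegral_eq_integral_of_forall_compl_eq_zero (fun x hx => by
      rw [hφ0 x hx]; simp)]
  have k1 : ∫ x, WithLp.ofLp (fex s x) i * fderiv ℝ φ x (EuclideanSpace.single j (1 : ℝ))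
      = ∫ x, fderiv ℝ φ x (EuclideanSpace.single j (1 : ℝ)) * WithLp.ofLp (fex s x) i := by
    congr 1; funext x; ring
  have k2 : ∫ x, Dfex s x i j * φ x = ∫ x, φ x * Dfex s x i j := by
    congr 1; funext x; ring
  rw [k1, k2, key, neg_neg]

lemma fex_FD : FDp Om (fex s) (Dfex s) := by
  refine ⟨fun i => ?_, fun i j => ?_, fun φ h1 h2 h3 i j => fex_weak φ h1 h2 h3 i j, ?_, ?_, ?_⟩
  · exact locInt_of_intOn (intOn_of fun x hx => fex_comp_contAt hx i)
  · exact locInt_of_intOn (intOn_of fun x hx => Dfex_contAt hx i j)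
  · exact locInt_of_intOn (intOn_of fun x hx => det_contAt hx)
  · filter_upwards [ae_restrict_mem isOpen_Om.measurableSet] with x hx
    have hx0 := x0_pos hx
    rw [det_Dfex hx0]
    have := kap_ge_one (s := s) x
    have := q_pos hx0
    positivity
  · refine ⟨fun x => kap s x + (kap s x)⁻¹, ?_, ?_, ?_⟩
    · have h1 : Measurable (kap s) := by
        unfold kap
        exact measurable_const.max (continuous_q.measurable.pow_const _)
      exact h1.add h1.inv
    · intro x _
      have := kap_ge_one (s := s) x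
      have h2 : 0 < (kap s x)⁻¹ := by positivity
      linarith
    · filter_upwards [ae_restrict_mem isOpen_Om.measurableSet] with x hx
      have hx0 := x0_pos hx
      have hk := kap_ge_one (s := s) x
      have hq := q_pos hx0
      refine (opN_sq_le _).trans ?_
      rw [Dfex_frob hx0, det_Dfex hx0]
      apply le_of_eq
      have : kap s x ≠ 0 := by positivity
      field_simp


end Pool.Agent.MP_6ded3d_an.P
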