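import Mathlib
import Pool.Agent.MP_6ded3d_an.AllP2

set_option autoImplicit false
set_option linter.unusedSectionVars false

open MeasureTheory Set Filter Topology Metric Module

namespace Pool.Agent.MP_6ded3d_an.P

variable {s : ℝ}

lemma area_fex : ∫⁻ x in Om, ENNReal.ofReal |(Dfex s x).det| = volume (fex s '' Om) := by
  have h1 := lintegral_abs_det_fderiv_eq_addHaar_image volume isOpen_Om.measurableSet
    (f := fex s) (f' := fun x => toCLM (Dfex s x))
    (fun x hx => (hasFDerivAt_fex (x0_pos hx)).hasFDerivWithinAt)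
    (fex_inj.mono Om_sub)
  simp only [det_toCLM] at h1
  exact h1

/-- The example is a minimiser. -/
theorem minimal {p : ℝ} (hp : 1 < p) (hs : s = (p - 1)⁻¹) {h : E2 → E2} {Dh : E2 → Matrix (Fin 2) (Fin 2) ℝ}
    (hc : ContinuousOn h (closure Om)) (hinj : InjOn h (closure Om))
    (himg : h '' closure Om = closure (fex s '' Om)) (hbd : ∀ x ∈ frontier Om, h x = fex s x)
    (hFD : FDp Om h Dh) :
    ∫⁻ x in Om, ENNReal.ofReal (KIm (Dfex s x) ^ p)
      ≤ ∫⁻ x in Om, ENNReal.ofReal (KIm (Dh x) ^ p) := by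
  have hOmM : MeasurableSet Om := isOpen_Om.measurableSet
  set T := ∫⁻ x in Om, ENNReal.ofReal (KIm (Dh x) ^ p) with hT
  by_cases hTtop : T = ⊤
  · rw [hTtop]; exact le_top
  have hareah := area_Om hc hinj hFD
  have hsubset := image_subset hinj himg hbd
  obtain ⟨_, hD, hw, hdet, hdet0, K, _, _, hK⟩ := hFD
  -- pointwise facts
  have hpt : ∀ᵐ x ∂(volume.restrict Om), 0 ≤ (Dh x).det ∧ ((Dh x).det = 0 → Dh x = 0) := by
    filter_upwards [hdet0, hK] with x h1 h2
    refine ⟨h1, fun h3 => ?_⟩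
    rw [h3, mul_zero] at h2
    exact opN_zero h2
  -- areas
  have hareaf := area_fex (s := s)
  have hareale : ∫⁻ x in Om, ENNReal.ofReal |(Dh x).det| ≤ ∫⁻ x in Om, ENNReal.ofReal |(Dfex s x).det| := by
    rw [hareaf]
    exact hareah.trans (measure_mono hsubset)
  have hJf : IntegrableOn (fun x => (Dfex s x).det) Om := intOn_of fun x hx => det_contAt hx
  have hJfpos : 0 ≤ᵐ[volume.restrict Om] fun x => (Dfex s x).det := (fex_FD (s := s)).2.2.2.2.1
  have hJhm : AEStronglyMeasurable (fun x => (Dh x).det) (volume.restrict Om) :=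
    hdet.aestronglyMeasurable
  have hJfint : ∫⁻ x in Om, ENNReal.ofReal |(Dfex s x).det| = ENNReal.ofReal (∫ x in Om, (Dfex s x).det) := by
    rw [ofReal_integral_eq_lintegral_ofReal hJf hJfpos]
    apply lintegral_congr_ae
    filter_upwards [hJfpos] with x hx
    rw [abs_of_nonneg hx]
  have hJh : IntegrableOn (fun x => (Dh x).det) Om := by
    refine ⟨hJhm, ?_⟩
    rw [hasFiniteIntegral_iff_norm]
    simp only [Real.norm_eq_abs]
    calc _ ≤ _ := hareale
      _ = _ := hJfint
      _ < ⊤ := ENNReal.ofReal_lt_top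
  have hJhint : ∫⁻ x in Om, ENNReal.ofReal |(Dh x).det| = ENNReal.ofReal (∫ x in Om, (Dh x).det) := by
    rw [ofReal_integral_eq_lintegral_ofReal hJh hdet0]
    apply lintegral_congr_ae
    filter_upwards [hdet0] with x hx
    rw [abs_of_nonneg hx]
  have hJle : ∫ x in Om, (Dh x).det ≤ ∫ x in Om, (Dfex s x).det := by
    rw [hJhint, hJfint] at hareale
    have hnn : 0 ≤ ∫ x in Om, (Dfex s x).det := integral_nonneg_of_ae hJfpos
    exact (ENNReal.ofReal_le_ofReal_iff hnn).mp hareale
  -- integrability of the first row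
  have hrow : ∀ j : Fin 2, IntegrableOn (fun x => Dh x 0 j) Om := by
    intro j
    refine ⟨(hD 0 j).aestronglyMeasurable, ?_⟩
    rw [hasFiniteIntegral_iff_norm]
    have hle : ∫⁻ x in Om, ENNReal.ofReal ‖Dh x 0 j‖
        ≤ ∫⁻ x in Om, (ENNReal.ofReal (KIm (Dh x) ^ p) + ENNReal.ofReal |(Dh x).det|) := by
      apply lintegral_mono_ae
      filter_upwards [hpt] with x hx
      obtain ⟨h1, h2⟩ := hx
      obtain ⟨k1, k2⟩ := KIm_facts h1 h2
      rw [← ENNReal.ofReal_add (Real.rpow_nonneg (by linarith) _) (abs_nonneg _)]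
      apply ENNReal.ofReal_le_ofReal
      rw [abs_of_nonneg h1, Real.norm_eq_abs]
      have k0 : KIm (Dh x) ≤ KIm (Dh x) ^ p := by
        have := Real.rpow_le_rpow_of_exponent_le k1 hp.le
        rwa [Real.rpow_one] at this
      have k3 : Dh x 0 j ^ 2 ≤ KIm (Dh x) * (Dh x).det := by
        fin_cases j
        · simp only [Fin.zero_eta]; nlinarith [sq_nonneg (Dh x 0 1)]
        · simp only [Fin.mk_one]; nlinarith [sq_nonneg (Dh x 0 0)]
      refine le_trans ?_ (add_le_add_left k0 _)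
      apply abs_le_of_sq_le_sq
      · nlinarith [sq_nonneg (KIm (Dh x) - (Dh x).det), mul_nonneg h1 h1,
          mul_nonneg (sub_nonneg.mpr k1) h1]
      · linarith
    refine hle.trans_lt ?_
    rw [lintegral_add_right' _ (hJhm.aemeasurable.abs.ennreal_ofReal)]
    refine ENNReal.add_lt_top.mpr ⟨lt_top_iff_ne_top.mpr hTtop, ?_⟩
    rw [hJhint]
    exact ENNReal.ofReal_lt_top
  have hfrow : ∀ j : Fin 2, IntegrableOn (fun x => Dfex s x 0 j) Om := fun j =>
    intOn_of fun x hx => Dfex_contAt hx 0 j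
  -- the divergence identity
  have hcl : ContinuousOn h (closedBall ctr 1) := by rw [← closure_Om]; exact hc
  have hc0 : ContinuousOn (fun x => WithLp.ofLp (h x) 0) (closedBall ctr 1) :=
    (coord_cont 0).comp_continuousOn hcl
  have hf0 : ContinuousOn (fun x => WithLp.ofLp (fex s x) 0) (closedBall ctr 1) :=
    (coord_cont 0).comp_continuousOn fex_cont
  have hdiv := div_lemma (w := fun x => WithLp.ofLp (h x) 0 - WithLp.ofLp (fex s x) 0)
    (hc0.sub hf0) (fun x hx => by
      rw [hbd x (frontier_Om.mpr hx)]; ring)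
    (W := fun j x => Dh x 0 j - Dfex s x 0 j) (fun j => (hrow j).sub (hfrow j)) (by
      intro φ h1 h2 h3 j
      have e1 := hw φ h1 h2 h3 0 j
      have e2 := fex_weak (s := s) φ h1 h2 h3 0 j
      have hdc : Continuous (fun x => fderiv ℝ φ x (ev j)) :=
        (h1.continuous_fderiv (by simp)).clm_apply continuous_const
      obtain ⟨B, hB⟩ := h1.continuous.bounded_above_of_compact_support h2
      have i1 : IntegrableOn (fun x => WithLp.ofLp (h x) 0 * fderiv ℝ φ x (ev j)) Om :=
        ((hc0.mul hdc.continuousOn).integrableOn_compact (isCompact_closedBall _ _)).mono_set Om_sub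
      have i2 : IntegrableOn (fun x => WithLp.ofLp (fex s x) 0 * fderiv ℝ φ x (ev j)) Om :=
        ((hf0.mul hdc.continuousOn).integrableOn_compact (isCompact_closedBall _ _)).mono_set Om_sub
      have i3 : IntegrableOn (fun x => Dh x 0 j * φ x) Om := by
        refine ((hrow j).bdd_mul h1.continuous.aestronglyMeasurable (c := B)
          (Eventually.of_forall hB)).congr (Eventually.of_forall fun x => ?_)
        simp only [mul_comm]
      have i4 : IntegrableOn (fun x => Dfex s x 0 j * φ x) Om := by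
        refine ((hfrow j).bdd_mul h1.continuous.aestronglyMeasurable (c := B)
          (Eventually.of_forall hB)).congr (Eventually.of_forall fun x => ?_)
        simp only [mul_comm]
      simp only [sub_mul]
      rw [integral_sub i1 i2, integral_sub i3 i4]
      have e1' : ∫ x in Om, WithLp.ofLp (h x) 0 * fderiv ℝ φ x (ev j)
          = - ∫ x in Om, Dh x 0 j * φ x := e1
      have e2' : ∫ x in Om, WithLp.ofLp (fex s x) 0 * fderiv ℝ φ x (ev j)
          = - ∫ x in Om, Dfex s x 0 j * φ x := e2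
      rw [e1', e2']
      ring)
  -- integrability of the calibration terms
  have hV : ∀ j : Fin 2, IntegrableOn (fun x : E2 => x j / q x * (Dh x 0 j - Dfex s x 0 j)) Om := by
    intro j
    have hVc : ∀ x : E2, 0 < x 0 → ContinuousAt (fun x : E2 => x j / q x) x := fun x hx =>
      (contDiffAt_V hx j).continuousAt
    have hVm : AEStronglyMeasurable (fun x : E2 => x j / q x) (volume.restrict Om) :=
      (intOn_of hVc).aestronglyMeasurable
    obtain ⟨B, hB⟩ := (isCompact_closedBall ctr 1).exists_bound_of_continuousOn (contOn_of hVc)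
    refine ((hrow j).sub (hfrow j)).bdd_mul hVm (c := B) ?_
    filter_upwards [ae_restrict_mem hOmM] with x hx
    exact hB x (Om_sub hx)
  have hVsum : IntegrableOn (fun x : E2 => x 0 / q x * (Dh x 0 0 - Dfex s x 0 0)
      + x 1 / q x * (Dh x 0 1 - Dfex s x 0 1)) Om := (hV 0).add (hV 1)
  have hJd : IntegrableOn (fun x => (Dh x).det - (Dfex s x).det) Om := hJh.sub hJf
  have he : IntegrableOn (fun x : E2 => 2 * p * (x 0 / q x * (Dh x 0 0 - Dfex s x 0 0)
      + x 1 / q x * (Dh x 0 1 - Dfex s x 0 1)) - p * ((Dh x).det - (Dfex s x).det)) Om :=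
    (hVsum.const_mul (2 * p)).sub (hJd.const_mul p)
  have heint : 0 ≤ ∫ x in Om, (2 * p * (x 0 / q x * (Dh x 0 0 - Dfex s x 0 0)
      + x 1 / q x * (Dh x 0 1 - Dfex s x 0 1)) - p * ((Dh x).det - (Dfex s x).det)) := by
    rw [integral_sub (hVsum.const_mul (2 * p)) (hJd.const_mul p), integral_const_mul,
      integral_const_mul, hdiv, integral_sub hJh hJf]
    have := mul_nonneg (by linarith : (0 : ℝ) ≤ p) (sub_nonneg.mpr hJle)
    linarith
  have hkap : IntegrableOn (fun x => kap s x ^ p) Om := intOn_of fun x hx => (kap_contAt hx).rpow_const (Or.inr (by linarith))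
  have hsum : IntegrableOn (fun x => kap s x ^ p +
      (2 * p * (x 0 / q x * (Dh x 0 0 - Dfex s x 0 0)
      + x 1 / q x * (Dh x 0 1 - Dfex s x 0 1)) - p * ((Dh x).det - (Dfex s x).det))) Om :=
    hkap.add he
  -- conclusion
  have step1 : ∫⁻ x in Om, ENNReal.ofReal (KIm (Dfex s x) ^ p)
      ≤ ENNReal.ofReal (∫ x in Om, kap s x ^ p) := by
    rw [ofReal_integral_eq_lintegral_ofReal hkap (Eventually.of_forall fun x =>
      Real.rpow_nonneg (by have := kap_ge_one (s := s) x; linarith) _)]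
    apply lintegral_mono_ae
    filter_upwards [ae_restrict_mem hOmM] with x hx
    apply ENNReal.ofReal_le_ofReal
    exact Real.rpow_le_rpow (KIm_nonneg _) (KIm_Dfex_le (x0_pos hx)) (by linarith)
  have step2 : ∫ x in Om, kap s x ^ p ≤ ∫ x in Om, (kap s x ^ p +
      (2 * p * (x 0 / q x * (Dh x 0 0 - Dfex s x 0 0)
      + x 1 / q x * (Dh x 0 1 - Dfex s x 0 1)) - p * ((Dh x).det - (Dfex s x).det))) := by
    rw [integral_add hkap he]
    linarith
  have step3 : ∫ x in Om, (kap s x ^ p +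
      (2 * p * (x 0 / q x * (Dh x 0 0 - Dfex s x 0 0)
      + x 1 / q x * (Dh x 0 1 - Dfex s x 0 1)) - p * ((Dh x).det - (Dfex s x).det))) ≤ T.toReal := by
    rw [integral_eq_lintegral_pos_part_sub_lintegral_neg_part hsum]
    have hle : ∫⁻ x in Om, ENNReal.ofReal (kap s x ^ p +
      (2 * p * (x 0 / q x * (Dh x 0 0 - Dfex s x 0 0)
      + x 1 / q x * (Dh x 0 1 - Dfex s x 0 1)) - p * ((Dh x).det - (Dfex s x).det))) ≤ T := by
      rw [hT]
      apply lintegral_mono_ae
      filter_upwards [ae_restrict_mem hOmM, hpt] with x hx h2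
      apply ENNReal.ofReal_le_ofReal
      exact pointwise hp hs (x0_pos hx) h2.1 h2.2
    have h4 := ENNReal.toReal_mono hTtop hle
    have h5 : 0 ≤ (∫⁻ x in Om, ENNReal.ofReal (-(kap s x ^ p +
      (2 * p * (x 0 / q x * (Dh x 0 0 - Dfex s x 0 0)
      + x 1 / q x * (Dh x 0 1 - Dfex s x 0 1)) - p * ((Dh x).det - (Dfex s x).det))))).toReal :=
      ENNReal.toReal_nonneg
    exact (sub_le_self _ h5).trans h4
  calc _ ≤ _ := step1
    _ ≤ ENNReal.ofReal T.toReal := ENNReal.ofReal_le_ofReal (step2.trans step3)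
    _ = T := ENNReal.ofReal_toReal hTtop


lemma fex_energy {p : ℝ} (hp : 1 < p) (hs : 0 < s) :
    ∫⁻ x in Om, ENNReal.ofReal (KIm (Dfex s x) ^ p) < ⊤ := by
  have h1 : ∫⁻ x in Om, ENNReal.ofReal (KIm (Dfex s x) ^ p)
      ≤ ∫⁻ _ in Om, ENNReal.ofReal (((4 : ℝ) ^ s) ^ p) := by
    apply lintegral_mono_ae
    filter_upwards [ae_restrict_mem isOpen_Om.measurableSet] with x hx
    apply ENNReal.ofReal_le_ofReal
    exact Real.rpow_le_rpow (KIm_nonneg _)
      ((KIm_Dfex_le (x0_pos hx)).trans (kap_le hs (Om_sub hx))) (by linarith)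
  refine h1.trans_lt ?_
  rw [setLIntegral_const]
  exact ENNReal.mul_lt_top ENNReal.ofReal_lt_top measure_ball_lt_top

lemma toCLM_cont {M : E2 → Matrix (Fin 2) (Fin 2) ℝ} {x : E2}
    (h : ∀ i j, ContinuousAt (fun x => M x i j) x) : ContinuousAt (fun x => toCLM (M x)) x := by
  have hM : ContinuousAt M x :=
    continuousAt_pi.mpr fun i => continuousAt_pi.mpr fun j => h i j
  have hL : Continuous (fun A : Matrix (Fin 2) (Fin 2) ℝ => toCLM A) := by
    have : (fun A : Matrix (Fin 2) (Fin 2) ℝ => toCLM A)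
        = ((LinearMap.toContinuousLinearMap.toLinearMap).comp
          (Matrix.toEuclideanLin (𝕜 := ℝ) (m := Fin 2) (n := Fin 2)).toLinearMap :
          Matrix (Fin 2) (Fin 2) ℝ →ₗ[ℝ] (E2 →L[ℝ] E2)) := rfl
    rw [this]
    exact LinearMap.continuous_of_finiteDimensional _
  exact hL.continuousAt.comp hM

lemma contDiff_one : ContDiffOn ℝ 1 (fex s) Om := by
  intro x hx
  apply ContDiffAt.contDiffWithinAt
  rw [contDiffAt_one_iff]
  refine ⟨fun x => toCLM (Dfex s x), {x | 0 < x 0}, ?_, ?_, ?_⟩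
  · exact (isOpen_lt continuous_const (coord_cont 0)).mem_nhds (x0_pos hx)
  · intro y hy
    exact (toCLM_cont fun i j => Dfex_contAt hy i j).continuousWithinAt
  · intro y hy
    exact hasFDerivAt_fex hy

/-! ### The example is not twice differentiable -/

lemma not_C2 (hs : 0 < s) : ¬ ContDiffOn ℝ 2 (fex s) Om := by
  intro hcd
  let γ : ℝ → E2 := fun t => !₂[t, 0]
  have hγ : ContDiff ℝ 2 γ := by
    rw [contDiff_euclidean]
    intro i
    fin_cases i
    · exact contDiff_id
    · exact contDiff_const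
  have hγ1 : γ 1 ∈ Om := by
    rw [rho_lt_one]
    simp only [rho, γ]
    norm_num
  have h1 : ContDiffAt ℝ 2 (fex s) (γ 1) :=
    hcd.contDiffAt (isOpen_Om.mem_nhds hγ1)
  have h4 : ContDiffAt ℝ 2 (fun t => (pr 0) (fex s (γ t))) 1 :=
    (pr 0).contDiff.contDiffAt.comp 1 (h1.comp 1 hγ.contDiffAt)
  have h3 : (fun t => (pr 0) (fex s (γ t))) = fun t : ℝ => prof s (t ^ 2) := by
    funext t
    simp [pr, fex, γ, q]
  rw [h3] at h4
  have h5 : DifferentiableAt ℝ (deriv (fun t : ℝ => prof s (t ^ 2))) 1 := by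
    have h6 : ContDiffAt ℝ 1 (fderiv ℝ (fun t : ℝ => prof s (t ^ 2))) 1 :=
      h4.fderiv_right (m := 1) (by norm_num)
    have h7 : DifferentiableAt ℝ (fderiv ℝ (fun t : ℝ => prof s (t ^ 2))) 1 :=
      h6.differentiableAt (by norm_num)
    exact h7.clm_apply (differentiableAt_const 1)
  -- formula for the derivative
  have h8 : ∀ t : ℝ, 0 < t →
      deriv (fun t : ℝ => prof s (t ^ 2)) t = max 1 ((t ^ 2) ^ (-s)) * t⁻¹ := by
    intro t ht
    have e1 : HasDerivAt (fun t : ℝ => prof s (t ^ 2)) (sd s (t ^ 2) * (2 * t)) t := by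
      have ht2 : 0 < t ^ 2 := by positivity
      have e2 := HasDerivAt.comp (h₂ := prof s) (h := fun t : ℝ => t ^ 2) t (hasDerivAt_prof ht2)
        (hasDerivAt_pow 2 t)
      refine e2.congr_deriv ?_
      norm_num
    rw [e1.deriv, sd]
    field_simp
  obtain ⟨c, hc⟩ : ∃ c, HasDerivAt (deriv (fun t : ℝ => prof s (t ^ 2))) c 1 :=
    ⟨_, h5.hasDerivAt⟩
  have hr : HasDerivWithinAt (fun t : ℝ => t⁻¹) c (Ici 1) 1 := by
    refine hc.hasDerivWithinAt.congr ?_ ?_
    · intro t ht
      have ht' : (1 : ℝ) ≤ t := ht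
      rw [h8 t (by linarith), max_eq_left, one_mul]
      apply Real.rpow_le_one_of_one_le_of_nonpos _ (by linarith)
      nlinarith
    · rw [h8 1 one_pos]; norm_num
  have hl : HasDerivWithinAt (fun t : ℝ => t ^ (-(2 * s + 1))) c (Ioc (1 / 2) 1) 1 := by
    refine hc.hasDerivWithinAt.congr ?_ ?_
    · intro t ht
      have ht' : 0 < t := by have := ht.1; linarith
      rw [h8 t ht', max_eq_right]
      · rw [← Real.rpow_natCast, ← Real.rpow_mul ht'.le, ← Real.rpow_neg_one t,
          ← Real.rpow_add ht']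
        congr 1
        push_cast
        ring
      · have h1t : (t ^ 2) ≤ 1 := by
          have := ht.2
          nlinarith
        exact Real.one_le_rpow_of_pos_of_le_one_of_nonpos (by positivity) h1t (by linarith)
    · rw [h8 1 one_pos]; norm_num
  have hr' : HasDerivWithinAt (fun t : ℝ => t⁻¹) (-((1 : ℝ) ^ 2)⁻¹) (Ici 1) 1 :=
    (hasDerivAt_inv one_ne_zero).hasDerivWithinAt
  have hl' : HasDerivWithinAt (fun t : ℝ => t ^ (-(2 * s + 1))) (-(2 * s + 1)) (Ioc (1 / 2) 1) 1 := by
    have e1 : HasDerivAt (fun t : ℝ => t ^ (-(2 * s + 1)))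
        (-(2 * s + 1) * (1 : ℝ) ^ (-(2 * s + 1) - 1)) 1 :=
      Real.hasDerivAt_rpow_const (Or.inl one_ne_zero)
    refine (e1.congr_deriv ?_).hasDerivWithinAt
    rw [Real.one_rpow, mul_one]
  have u1 : UniqueDiffWithinAt ℝ (Ici (1 : ℝ)) 1 := uniqueDiffOn_Ici 1 1 (by simp)
  have u2 : UniqueDiffWithinAt ℝ (Ioc (1 / 2 : ℝ) 1) 1 := uniqueDiffOn_Ioc _ _ 1 (by norm_num)
  have c1 : c = -((1 : ℝ) ^ 2)⁻¹ := u1.eq_deriv _ hr hr'
  have c2 : c = -(2 * s + 1) := u2.eq_deriv _ hl hl'
  rw [c1] at c2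
  norm_num at c2
  linarith

end Pool.Agent.MP_6ded3d_an.P
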