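import Mathlib
import Pool.Agent.MP_6ded3d_an.AllP3

set_option autoImplicit false
set_option linter.unusedSectionVars false

open MeasureTheory Set Filter Topology Metric Module Convolution

namespace Pool.Agent.MP_6ded3d_an.P

variable {s : ℝ}

/-! ### The equality case of the pointwise inequality -/

lemma rpow_tangent_strict {p a b : ℝ} (hp : 1 < p) (ha : 1 ≤ a) (hb : 1 ≤ b) (hab : b ≠ a) :
    p * a ^ (p - 1) * (b - a) < b ^ p - a ^ p := by
  have ha0 : 0 < a := by linarith
  have hne : b / a - 1 ≠ 0 := by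
    intro h
    apply hab
    have : b / a = 1 := by linarith
    rwa [div_eq_one_iff_eq ha0.ne'] at this
  have h := one_add_mul_self_lt_rpow_one_add (s := b / a - 1) (by
    have : 0 ≤ b / a := by positivity
    linarith) hne hp
  have h1 : (1 + (b / a - 1)) = b / a := by ring
  rw [h1, Real.div_rpow (by linarith) ha0.le] at h
  have hap : 0 < a ^ p := Real.rpow_pos_of_pos ha0 p
  have h2 := mul_lt_mul_of_pos_right h hap
  rw [div_mul_cancel₀ _ hap.ne'] at h2
  have h3 : a ^ p = a ^ (p - 1) * a := by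
    rw [← Real.rpow_add_one ha0.ne']
    congr 1
    ring
  have h4 : (1 + p * (b / a - 1)) * a ^ p = a ^ p + p * a ^ (p - 1) * (b - a) := by
    rw [h3]
    field_simp
  rw [h4] at h2
  linarith

/-- quadratic form bound for the operator norm -/
lemma opN_quad (A : Matrix (Fin 2) (Fin 2) ℝ) (a b : ℝ) :
    (A 0 0 * a + A 0 1 * b) ^ 2 + (A 1 0 * a + A 1 1 * b) ^ 2 ≤ opN A ^ 2 * (a ^ 2 + b ^ 2) := by
  have h1 : ‖toCLM A (!₂[a, b] : E2)‖ ≤ opN A * ‖(!₂[a, b] : E2)‖ := (toCLM A).le_opNorm _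
  have h2 := pow_le_pow_left₀ (norm_nonneg _) h1 2
  rw [mul_pow, normsq2, normsq2, toCLM_apply2, toCLM_apply2] at h2
  simpa using h2

lemma dot_zero {a b c d N : ℝ} (hrow : a ^ 2 + b ^ 2 = N)
    (hquad : ∀ u v : ℝ, (d * u + -b * v) ^ 2 + (-c * u + a * v) ^ 2 ≤ N * (u ^ 2 + v ^ 2)) :
    a * c + b * d = 0 := by
  set m := a * c + b * d with hm
  have hD := hquad 1 0
  have hD' : d ^ 2 + c ^ 2 ≤ N := by nlinarith
  set D := N - (d ^ 2 + c ^ 2) with hDdef
  have hD0 : 0 ≤ D := by linarith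
  have hg := hquad (-m) (D + 1)
  have hexp : (d * -m + -b * (D + 1)) ^ 2 + (-c * -m + a * (D + 1)) ^ 2
      = (N - D) * m ^ 2 + N * (D + 1) ^ 2 + 2 * m ^ 2 * (D + 1) := by
    have h1 : (d * -m + -b * (D + 1)) ^ 2 + (-c * -m + a * (D + 1)) ^ 2
        = (d ^ 2 + c ^ 2) * m ^ 2 + (a ^ 2 + b ^ 2) * (D + 1) ^ 2
          + 2 * m * (a * c + b * d) * (D + 1) := by ring
    rw [h1, ← hm, hrow]
    have h2 : d ^ 2 + c ^ 2 = N - D := by rw [hDdef]; ring
    rw [h2]; ring
  rw [hexp] at hg
  have h12 : m ^ 2 * (D + 2) ≤ 0 := by linarith [hg, (by ring :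
    N * ((-m) ^ 2 + (D + 1) ^ 2) = N * m ^ 2 + N * (D + 1) ^ 2)]
  have h13 : m ^ 2 ≤ 0 := by
    by_contra hcon
    push Not at hcon
    have : 0 < m ^ 2 * (D + 2) := by positivity
    linarith
  exact pow_eq_zero_iff (two_ne_zero) |>.mp (le_antisymm h13 (sq_nonneg _))

lemma pointwise_eq {p : ℝ} (hp : 1 < p) (hs : s = (p - 1)⁻¹) {x : E2} (hx : 0 < x 0)
    {A : Matrix (Fin 2) (Fin 2) ℝ} (h0 : 0 ≤ A.det) (hA : A.det = 0 → A = 0)
    (heq : KIm A ^ p ≤ kap s x ^ p +
      (2 * p * (x 0 / q x * (A 0 0 - Dfex s x 0 0) + x 1 / q x * (A 0 1 - Dfex s x 0 1))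
      - p * (A.det - (Dfex s x).det))) : A = Dfex s x := by
  obtain ⟨hK1, hK2⟩ := KIm_facts h0 hA
  have hq := q_pos hx
  have hq' : q x = x 0 ^ 2 + x 1 ^ 2 := rfl
  have hk := kap_ge_one (s := s) x
  set K := KIm A with hKdef
  set a := x 0 / q x * A 0 0 + x 1 / q x * A 0 1 with ha
  have eqa : q x * a ^ 2 = (x 0 * A 0 0 + x 1 * A 0 1) ^ 2 / q x := by
    rw [ha]; field_simp
  have ha2 : (q x) * a ^ 2 ≤ K * A.det := by
    refine le_trans ?_ hK2
    rw [eqa, div_le_iff₀ hq, hq']
    nlinarith [sq_nonneg (x 0 * A 0 1 - x 1 * A 0 0)]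
  have ha4 : (2 * a) ^ 2 ≤ 4 * (K / q x) * A.det := by
    rw [show 4 * (K / q x) * A.det = 4 * (K * A.det) / q x by ring, le_div_iff₀ hq]
    nlinarith
  have ha3 : 2 * a ≤ K / q x + A.det := by
    have hnn : 0 ≤ K / q x + A.det := by positivity
    refine (abs_le_of_sq_le_sq' ?_ hnn).2
    nlinarith [sq_nonneg (K / q x - A.det)]
  have hf : x 0 / q x * Dfex s x 0 0 + x 1 / q x * Dfex s x 0 1 = kap s x / q x := by
    simp only [Dfex, Matrix.of_apply, Matrix.cons_val', Matrix.cons_val_zero, Matrix.cons_val_one,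
      Matrix.cons_val_fin_one]
    generalize kap s x = k
    rw [hq'] at hq ⊢
    field_simp
  rw [det_Dfex hx] at heq
  have hp1 : 0 < p - 1 := by linarith
  have hp0 : 0 < p := by linarith
  have hs0 : 0 < s := by rw [hs]; positivity
  have hslope : p * (q x)⁻¹ * (K - kap s x) ≤ p * kap s x ^ (p - 1) * (K - kap s x) := by
    rcases le_total 1 ((q x) ^ (-s)) with h | h
    · have hkq : kap s x = (q x) ^ (-s) := max_eq_right h
      have e : kap s x ^ (p - 1) = (q x)⁻¹ := by
        rw [hkq, ← Real.rpow_mul hq.le, hs]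
        rw [show -(p - 1)⁻¹ * (p - 1) = -1 by field_simp]
        exact Real.rpow_neg_one _
      rw [e]
    · have hkq : kap s x = 1 := max_eq_left h
      rw [hkq]
      rw [Real.one_rpow, mul_one]
      have hqi : (q x)⁻¹ ≤ 1 := by
        have h1q : 1 ≤ q x := by
          by_contra hlt
          push Not at hlt
          have := Real.one_lt_rpow_of_pos_of_lt_one_of_neg hq hlt (by linarith : -s < 0)
          linarith
        exact inv_le_one_of_one_le₀ h1q
      have hK0 : 0 ≤ K - 1 := by linarith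
      have := mul_le_mul_of_nonneg_left (mul_le_mul_of_nonneg_right hqi hK0) hp0.le
      rw [one_mul] at this
      linarith
  have e3 : 2 * p * (x 0 / q x * (A 0 0 - Dfex s x 0 0) + x 1 / q x * (A 0 1 - Dfex s x 0 1))
      = 2 * p * a - 2 * p * (kap s x / q x) := by
    rw [← hf, ha]; ring
  rw [e3] at heq
  have e4 : p * (q x)⁻¹ * (K - kap s x) = p * (K / q x) - p * (kap s x / q x) := by
    rw [div_eq_mul_inv, div_eq_mul_inv]; ring
  rw [e4] at hslope
  have e5 : p * (2 * a) ≤ p * (K / q x + A.det) := mul_le_mul_of_nonneg_left ha3 hp0.le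
  -- first consequence
  have hKk : K = kap s x := by
    by_contra hne
    have := rpow_tangent_strict hp hk hK1 hne
    linarith
  have ht := rpow_tangent hp hk hK1
  -- second consequence
  have h2a : 2 * a = K / q x + A.det := by
    have h6 : p * (K / q x + A.det) ≤ p * (2 * a) := by
      rw [hKk] at heq ⊢
      linarith
    have := le_of_mul_le_mul_left h6 hp0
    linarith
  have hdet : A.det = K / q x := by
    have h7 : (K / q x - A.det) ^ 2 ≤ 0 := by
      rw [h2a] at ha4
      nlinarith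
    have h8 : K / q x - A.det = 0 := by
      have := le_antisymm h7 (sq_nonneg _)
      exact pow_eq_zero_iff (two_ne_zero) |>.mp this
    linarith
  have haq : a = kap s x / q x := by rw [hdet, hKk] at h2a; linarith
  have hk0 : 0 < kap s x := by linarith
  have hlin : x 0 * A 0 0 + x 1 * A 0 1 = kap s x := by
    have : q x * a = kap s x := by rw [haq]; field_simp
    rw [ha] at this
    rw [← this]; field_simp
  have hrow : A 0 0 ^ 2 + A 0 1 ^ 2 ≤ kap s x ^ 2 / q x := by
    refine hK2.trans (le_of_eq ?_)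
    rw [hdet, hKk]; ring
  have hcross : x 0 * A 0 1 - x 1 * A 0 0 = 0 := by
    rw [le_div_iff₀ hq] at hrow
    have h9 : (x 0 * A 0 1 - x 1 * A 0 0) ^ 2 ≤ 0 := by
      have h10 : (A 0 0 ^ 2 + A 0 1 ^ 2) * q x
          = (x 0 * A 0 0 + x 1 * A 0 1) ^ 2 + (x 0 * A 0 1 - x 1 * A 0 0) ^ 2 := by
        rw [hq']; ring
      rw [h10, hlin] at hrow
      linarith
    exact pow_eq_zero_iff (two_ne_zero) |>.mp (le_antisymm h9 (sq_nonneg _))
  have hA00 : A 0 0 = kap s x * x 0 / q x := by
    rw [eq_div_iff hq.ne', hq']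
    linear_combination x 0 * hlin - x 1 * hcross
  have hA01 : A 0 1 = kap s x * x 1 / q x := by
    rw [eq_div_iff hq.ne', hq']
    linear_combination x 1 * hlin + x 0 * hcross
  have hdpos : 0 < A.det := by rw [hdet, hKk]; positivity
  have hop : opN A.adjugate ^ 2 = kap s x ^ 2 / q x := by
    have h11 : K = opN A.adjugate ^ 2 / A.det := by
      rw [hKdef]; unfold KIm
      rw [if_pos hdpos]
      simp only [show (2 : ℕ) - 1 = 1 from rfl, pow_one]
    rw [eq_div_iff hdpos.ne'] at h11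
    rw [← h11, hdet, hKk]; ring
  have hrow2 : A 0 0 ^ 2 + A 0 1 ^ 2 = kap s x ^ 2 / q x := by
    rw [hA00, hA01]
    have : (kap s x * x 0 / q x) ^ 2 + (kap s x * x 1 / q x) ^ 2
        = kap s x ^ 2 * (x 0 ^ 2 + x 1 ^ 2) / (q x * q x) := by ring
    rw [this, ← hq']
    field_simp
  have hdot : A 0 0 * A 1 0 + A 0 1 * A 1 1 = 0 := by
    refine dot_zero hrow2 fun u v => ?_
    have hquad := opN_quad A.adjugate u v
    rw [hop, Matrix.adjugate_fin_two] at hquad
    simpa only [Matrix.of_apply, Matrix.cons_val', Matrix.cons_val_zero, Matrix.cons_val_one,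
      Matrix.cons_val_fin_one] using hquad
  have hdot' : x 0 * A 1 0 + x 1 * A 1 1 = 0 := by
    rw [hA00, hA01] at hdot
    have h14 : kap s x / q x * (x 0 * A 1 0 + x 1 * A 1 1) = 0 := by
      rw [← hdot]; ring
    have h15 : kap s x / q x ≠ 0 := by positivity
    exact (mul_eq_zero.mp h14).resolve_left h15
  have hdet' : x 0 * A 1 1 - x 1 * A 1 0 = 1 := by
    have h16 := hdet
    rw [Matrix.det_fin_two, hA00, hA01, hKk] at h16
    have h17 : kap s x / q x * (x 0 * A 1 1 - x 1 * A 1 0) = kap s x / q x * 1 := by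
      rw [mul_one]; linear_combination h16
    have h15 : kap s x / q x ≠ 0 := by positivity
    exact mul_left_cancel₀ h15 h17
  have hA10 : A 1 0 = - x 1 / q x := by
    rw [eq_div_iff hq.ne', hq']
    linear_combination x 0 * hdot' - x 1 * hdet'
  have hA11 : A 1 1 = x 0 / q x := by
    rw [eq_div_iff hq.ne', hq']
    linear_combination x 1 * hdot' + x 0 * hdet'
  ext i j
  fin_cases i <;> fin_cases j
  · exact hA00
  · exact hA01
  · exact hA10
  · exact hA11

end Pool.Agent.MP_6ded3d_an.P
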