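import Mathlib
import Pool.Agent.MP_6ded3d_an.AllP4

set_option autoImplicit false
set_option linter.unusedSectionVars false

open MeasureTheory Set Filter Topology Metric Module Convolution

namespace Pool.Agent.MP_6ded3d_an.P

/-! ### A continuous function with vanishing weak gradient is constant -/

lemma conv_const {u : E2 → ℝ} (hu : ContinuousOn u (closedBall ctr 1))
    (hweak : ∀ φ : E2 → ℝ, ContDiff ℝ ((⊤ : ℕ∞) : WithTop ℕ∞) φ → HasCompactSupport φ →
      tsupport φ ⊆ Om → ∀ j : Fin 2, ∫ x in Om, u x * fderiv ℝ φ x (ev j) = 0)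
    (b : ContDiffBump (0 : E2)) {r : ℝ} (hr : r + b.rOut ≤ 1) {x y : E2}
    (hx : x ∈ ball ctr r) (hy : y ∈ ball ctr r) :
    (b.normed volume ⋆[ContinuousLinearMap.lsmul ℝ ℝ, volume] (Om.indicator u)) x
      = (b.normed volume ⋆[ContinuousLinearMap.lsmul ℝ ℝ, volume] (Om.indicator u)) y := by
  have hOmM : MeasurableSet Om := isOpen_Om.measurableSet
  have hint : Integrable (Om.indicator u) := by
    rw [integrable_indicator_iff hOmM]
    exact (hu.integrableOn_compact (isCompact_closedBall _ _)).mono_set Om_sub
  have hloc : LocallyIntegrable (Om.indicator u) := hint.locallyIntegrable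
  have hcs : HasCompactSupport (b.normed volume) := b.hasCompactSupport_normed
  have hcd : ContDiff ℝ ((⊤ : ℕ∞) : WithTop ℕ∞) (b.normed volume) := b.contDiff_normed
  have hder := fun z : E2 => hcs.hasFDerivAt_convolution_left (ContinuousLinearMap.lsmul ℝ ℝ)
    (hcd.of_le (by simp)) hloc z
  have hzero : ∀ z ∈ ball ctr r,
      (fderiv ℝ (b.normed volume) ⋆[(ContinuousLinearMap.lsmul ℝ ℝ : ℝ →L[ℝ] ℝ →L[ℝ] ℝ).precompL E2,
        volume] (Om.indicator u)) z = 0 := by
    intro z hz
    have hconv : ConvolutionExistsAt (fderiv ℝ (b.normed volume)) (Om.indicator u) z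
        ((ContinuousLinearMap.lsmul ℝ ℝ : ℝ →L[ℝ] ℝ →L[ℝ] ℝ).precompL E2) volume :=
      (hcs.fderiv ℝ).convolutionExists_left _ (hcd.continuous_fderiv (by simp)) hloc z
    have hcomp : ∀ j : Fin 2, ((fderiv ℝ (b.normed volume)
        ⋆[(ContinuousLinearMap.lsmul ℝ ℝ : ℝ →L[ℝ] ℝ →L[ℝ] ℝ).precompL E2,
        volume] (Om.indicator u)) z) (ev j) = 0 := by
      intro j
      rw [convolution_def, ContinuousLinearMap.integral_apply hconv]
      simp only [ContinuousLinearMap.precompL_apply, ContinuousLinearMap.lsmul_apply, smul_eq_mul]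
      have h1 : ∫ t, (fderiv ℝ (b.normed volume) t) (ev j) * Om.indicator u (z - t)
          = ∫ t, (fderiv ℝ (b.normed volume) (z - t)) (ev j) * Om.indicator u t := by
        rw [← integral_sub_left_eq_self _ volume z]
        congr 1
        funext t
        rw [sub_sub_cancel]
      rw [h1]
      set φ : E2 → ℝ := fun t => b.normed volume (z - t) with hφ
      have hφd : ContDiff ℝ ((⊤ : ℕ∞) : WithTop ℕ∞) φ := hcd.comp (contDiff_const.sub contDiff_id)
      have hφs : tsupport φ ⊆ closedBall z b.rOut := by
        apply closure_minimal _ isClosed_closedBall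
        intro t ht
        have : z - t ∈ Function.support (b.normed volume) := ht
        rw [b.support_normed_eq] at this
        rw [mem_closedBall, dist_comm, dist_eq_norm]
        rw [mem_ball, dist_zero_right] at this
        exact this.le
      have hφc : HasCompactSupport φ :=
        HasCompactSupport.of_support_subset_isCompact (isCompact_closedBall z b.rOut)
          (subset_closure.trans hφs)
      have hφO : tsupport φ ⊆ Om := by
        refine hφs.trans fun t ht => ?_
        rw [mem_closedBall] at ht
        rw [mem_ball] at hz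
        rw [Om, mem_ball]
        calc dist t ctr ≤ dist t z + dist z ctr := dist_triangle _ _ _
          _ < b.rOut + r := by linarith
          _ ≤ 1 := by linarith
      have h2 := hweak φ hφd hφc hφO j
      have hfd : ∀ t, fderiv ℝ φ t (ev j) = - (fderiv ℝ (b.normed volume) (z - t)) (ev j) := by
        intro t
        have hd : DifferentiableAt ℝ (b.normed volume) (z - t) :=
          (hcd.differentiable (by simp)).differentiableAt
        have h3 : HasFDerivAt φ ((fderiv ℝ (b.normed volume) (z - t)).comp
            (-(ContinuousLinearMap.id ℝ E2))) t := by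
          have h4 : HasFDerivAt (fun t : E2 => z - t) (-(ContinuousLinearMap.id ℝ E2)) t :=
            (hasFDerivAt_id t).const_sub z
          exact hd.hasFDerivAt.comp t h4
        rw [h3.fderiv]
        simp
      have h5 : ∫ t, (fderiv ℝ (b.normed volume) (z - t)) (ev j) * Om.indicator u t
          = ∫ t in Om, (fderiv ℝ (b.normed volume) (z - t)) (ev j) * u t := by
        rw [← integral_indicator hOmM]
        congr 1
        funext t
        by_cases ht : t ∈ Om
        · rw [indicator_of_mem ht, indicator_of_mem ht]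
        · rw [indicator_of_notMem ht, indicator_of_notMem ht, mul_zero]
      rw [h5]
      have h6 : ∫ t in Om, (fderiv ℝ (b.normed volume) (z - t)) (ev j) * u t
          = - ∫ t in Om, u t * fderiv ℝ φ t (ev j) := by
        rw [← integral_neg]
        congr 1
        funext t
        rw [hfd]; ring
      rw [h6, h2, neg_zero]
    apply ContinuousLinearMap.ext
    intro v
    have hv : v = v 0 • ev 0 + v 1 • ev 1 := by
      ext i
      fin_cases i <;> simp [ev]
    rw [hv, map_add, map_smul, map_smul, hcomp, hcomp]
    simp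
  have hconvex : Convex ℝ (ball ctr r) := convex_ball _ _
  refine hconvex.is_const_of_fderivWithin_eq_zero (𝕜 := ℝ) ?_ ?_ hx hy
  · intro z _
    exact (hder z).differentiableAt.differentiableWithinAt
  · intro z hz
    rw [fderivWithin_of_isOpen isOpen_ball hz, (hder z).fderiv]
    exact hzero z hz

lemma const_of_weak_zero {u : E2 → ℝ} (hu : ContinuousOn u (closedBall ctr 1))
    (hweak : ∀ φ : E2 → ℝ, ContDiff ℝ ((⊤ : ℕ∞) : WithTop ℕ∞) φ → HasCompactSupport φ →
      tsupport φ ⊆ Om → ∀ j : Fin 2, ∫ x in Om, u x * fderiv ℝ φ x (ev j) = 0)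
    {x y : E2} (hx : x ∈ Om) (hy : y ∈ Om) : u x = u y := by
  have hOmM : MeasurableSet Om := isOpen_Om.measurableSet
  have hint : Integrable (Om.indicator u) := by
    rw [integrable_indicator_iff hOmM]
    exact (hu.integrableOn_compact (isCompact_closedBall _ _)).mono_set Om_sub
  let b : ℕ → ContDiffBump (0 : E2) := fun n =>
    { rIn := 1 / (2 * ((n : ℝ) + 1))
      rOut := 1 / ((n : ℝ) + 1)
      rIn_pos := by positivity
      rIn_lt_rOut := by
        apply one_div_lt_one_div_of_lt (by positivity)
        have : (0 : ℝ) < (n : ℝ) + 1 := by positivity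
        linarith }
  have hb : Tendsto (fun n => (b n).rOut) atTop (𝓝 0) := tendsto_one_div_add_atTop_nhds_zero_nat
  have hlim : ∀ z ∈ Om, Tendsto (fun n => ((b n).normed volume
      ⋆[ContinuousLinearMap.lsmul ℝ ℝ, volume] (Om.indicator u)) z) atTop (𝓝 (u z)) := by
    intro z hz
    have hc : ContinuousAt (Om.indicator u) z := by
      have h1 : ContinuousAt u z := hu.continuousAt
        (mem_of_superset (isOpen_Om.mem_nhds hz) Om_sub)
      apply h1.congr
      filter_upwards [isOpen_Om.mem_nhds hz] with t ht
      rw [indicator_of_mem ht]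
    have h2 : Tendsto (Function.uncurry fun (_ : ℕ) => Om.indicator u) (atTop ×ˢ 𝓝 z) (𝓝 (u z)) := by
      have h3 : Tendsto (Om.indicator u) (𝓝 z) (𝓝 (u z)) := by
        have := hc.tendsto
        rwa [indicator_of_mem hz] at this
      exact h3.comp tendsto_snd
    exact ContDiffBump.convolution_tendsto_right hb
      (Eventually.of_forall fun _ => hint.aestronglyMeasurable) h2 tendsto_const_nhds
  have hev : ∀ᶠ n in atTop, ((b n).normed volume
      ⋆[ContinuousLinearMap.lsmul ℝ ℝ, volume] (Om.indicator u)) x = ((b n).normed volume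
      ⋆[ContinuousLinearMap.lsmul ℝ ℝ, volume] (Om.indicator u)) y := by
    have hx' : dist x ctr < 1 := hx
    have hy' : dist y ctr < 1 := hy
    set r := (max (dist x ctr) (dist y ctr) + 1) / 2 with hr
    have hm : max (dist x ctr) (dist y ctr) < 1 := max_lt hx' hy'
    have hxr : x ∈ ball ctr r := by
      rw [mem_ball]
      have := le_max_left (dist x ctr) (dist y ctr)
      linarith
    have hyr : y ∈ ball ctr r := by
      rw [mem_ball]
      have := le_max_right (dist x ctr) (dist y ctr)
      linarith
    filter_upwards [hb.eventually_lt_const (show (0 : ℝ) < 1 - r by linarith)] with n hn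
    exact conv_const hu hweak (b n) (by linarith) hxr hyr
  exact tendsto_nhds_unique ((hlim x hx).congr' hev) (hlim y hy)

/-- with zero boundary values the function vanishes -/
lemma zero_of_weak_zero {u : E2 → ℝ} (hu : ContinuousOn u (closedBall ctr 1))
    (hu0 : ∀ x, rho x = 1 → u x = 0)
    (hweak : ∀ φ : E2 → ℝ, ContDiff ℝ ((⊤ : ℕ∞) : WithTop ℕ∞) φ → HasCompactSupport φ →
      tsupport φ ⊆ Om → ∀ j : Fin 2, ∫ x in Om, u x * fderiv ℝ φ x (ev j) = 0)
    {x : E2} (hx : x ∈ closure Om) : u x = 0 := by
  have hctr : ctr ∈ Om := mem_ball_self one_pos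
  have hclosed : ∀ z ∈ closure Om, u z = u ctr := by
    have hcl : ContinuousOn u (closure Om) := by rw [closure_Om]; exact hu
    have h1 : EqOn u (fun _ => u ctr) Om := fun z hz => const_of_weak_zero hu hweak hz hctr
    exact fun z hz => h1.of_subset_closure hcl continuousOn_const subset_closure subset_rfl hz
  have hpt : (!₂[5 / 2, 0] : E2) ∈ closure Om := by
    rw [closure_Om, rho_le_one]
    simp only [rho]
    norm_num
  have h2 : u (!₂[5 / 2, 0] : E2) = 0 := by
    apply hu0
    simp only [rho]
    norm_num
  rw [hclosed x hx, ← hclosed _ hpt, h2]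

end Pool.Agent.MP_6ded3d_an.P
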