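import Mathlib
import Pool.Agent.MP_6ded3d_an.AllP5

set_option autoImplicit false
set_option linter.unusedSectionVars false

open MeasureTheory Set Filter Topology Metric Module

namespace Pool.Agent.MP_6ded3d_an.P

variable {s : ℝ}

/-! ### Uniqueness of the minimiser -/

lemma KIm_measurable : Measurable fun M : Fin 2 → Fin 2 → ℝ => KIm (Matrix.of M) := by
  have hdet : Continuous fun M : Fin 2 → Fin 2 → ℝ => (Matrix.of M).det := by
    simp only [Matrix.det_fin_two, Matrix.of_apply]
    fun_prop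
  have hop : Continuous fun M : Fin 2 → Fin 2 → ℝ => opN (Matrix.of M).adjugate := by
    have h1 : Continuous (fun A : Matrix (Fin 2) (Fin 2) ℝ => toCLM A) := by
      have : (fun A : Matrix (Fin 2) (Fin 2) ℝ => toCLM A)
          = ((LinearMap.toContinuousLinearMap.toLinearMap).comp
            (Matrix.toEuclideanLin (𝕜 := ℝ) (m := Fin 2) (n := Fin 2)).toLinearMap :
            Matrix (Fin 2) (Fin 2) ℝ →ₗ[ℝ] (E2 →L[ℝ] E2)) := rfl
      rw [this]
      exact LinearMap.continuous_of_finiteDimensional _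
    have h2 : Continuous fun M : Fin 2 → Fin 2 → ℝ => (Matrix.of M).adjugate := by
      simp only [Matrix.adjugate_fin_two]
      refine continuous_matrix fun i j => ?_
      fin_cases i <;> fin_cases j <;> simp <;> fun_prop
    exact (h1.comp h2).norm
  unfold KIm
  exact Measurable.ite (measurableSet_lt measurable_const hdet.measurable)
    ((hop.measurable.pow_const 2).div (hdet.measurable.pow_const (2 - 1))) measurable_const

lemma KIm_aemeasurable {Dh : E2 → Matrix (Fin 2) (Fin 2) ℝ}
    (h : ∀ i j, AEMeasurable (fun x => Dh x i j) (volume.restrict Om)) :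
    AEMeasurable (fun x => KIm (Dh x)) (volume.restrict Om) := by
  have h1 : AEMeasurable (fun x => (fun i j => Dh x i j : Fin 2 → Fin 2 → ℝ)) (volume.restrict Om) :=
    aemeasurable_pi_lambda _ fun i => aemeasurable_pi_lambda _ fun j => h i j
  exact KIm_measurable.comp_aemeasurable h1

theorem unique {p : ℝ} (hp : 1 < p) (hs : s = (p - 1)⁻¹) {h : E2 → E2} {Dh : E2 → Matrix (Fin 2) (Fin 2) ℝ}
    (hc : ContinuousOn h (closure Om)) (hinj : InjOn h (closure Om))
    (himg : h '' closure Om = closure (fex s '' Om)) (hbd : ∀ x ∈ frontier Om, h x = fex s x)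
    (hFD : FDp Om h Dh)
    (hmin : ∫⁻ x in Om, ENNReal.ofReal (KIm (Dh x) ^ p)
      ≤ ∫⁻ x in Om, ENNReal.ofReal (KIm (Dfex s x) ^ p)) :
    ∀ x ∈ closure Om, h x = fex s x := by
  have hOmM : MeasurableSet Om := isOpen_Om.measurableSet
  have hs0 : 0 < s := by rw [hs]; exact inv_pos.mpr (by linarith)
  have hFD' := hFD
  set T := ∫⁻ x in Om, ENNReal.ofReal (KIm (Dh x) ^ p) with hT
  have hTtop : T ≠ ⊤ := (hmin.trans_lt (fex_energy hp hs0)).ne
  have hareah := area_Om hc hinj hFD
  have hsubset := image_subset hinj himg hbd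
  obtain ⟨_, hD, hw, hdet, hdet0, K, _, _, hK⟩ := hFD
  -- pointwise facts
  have hpt : ∀ᵐ x ∂(volume.restrict Om), 0 ≤ (Dh x).det ∧ ((Dh x).det = 0 → Dh x = 0) := by
    filter_upwards [hdet0, hK] with x h1 h2
    refine ⟨h1, fun h3 => ?_⟩
    rw [h3, mul_zero] at h2
    exact opN_zero h2
  -- areas
  have hareaf := area_fex (s := s)
  have hareale : ∫⁻ x in Om, ENNReal.ofReal |(Dh x).det| ≤ ∫⁻ x in Om, ENNReal.ofReal |(Dfex s x).det| := by
    rw [hareaf]
    exact hareah.trans (measure_mono hsubset)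
  have hJf : IntegrableOn (fun x => (Dfex s x).det) Om := intOn_of fun x hx => det_contAt hx
  have hJfpos : 0 ≤ᵐ[volume.restrict Om] fun x => (Dfex s x).det := (fex_FD (s := s)).2.2.2.2.1
  have hJhm : AEStronglyMeasurable (fun x => (Dh x).det) (volume.restrict Om) :=
    hdet.aestronglyMeasurable
  have hJfint : ∫⁻ x in Om, ENNReal.ofReal |(Dfex s x).det| = ENNReal.ofReal (∫ x in Om, (Dfex s x).det) := by
    rw [ofReal_integral_eq_lintegral_ofReal hJf hJfpos]
    apply lintegral_congr_ae
    filter_upwards [hJfpos] with x hx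
    rw [abs_of_nonneg hx]
  have hJh : IntegrableOn (fun x => (Dh x).det) Om := by
    refine ⟨hJhm, ?_⟩
    rw [hasFiniteIntegral_iff_norm]
    simp only [Real.norm_eq_abs]
    calc _ ≤ _ := hareale
      _ = _ := hJfint
      _ < ⊤ := ENNReal.ofReal_lt_top
  have hJhint : ∫⁻ x in Om, ENNReal.ofReal |(Dh x).det| = ENNReal.ofReal (∫ x in Om, (Dh x).det) := by
    rw [ofReal_integral_eq_lintegral_ofReal hJh hdet0]
    apply lintegral_congr_ae
    filter_upwards [hdet0] with x hx
    rw [abs_of_nonneg hx]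
  have hJle : ∫ x in Om, (Dh x).det ≤ ∫ x in Om, (Dfex s x).det := by
    rw [hJhint, hJfint] at hareale
    have hnn : 0 ≤ ∫ x in Om, (Dfex s x).det := integral_nonneg_of_ae hJfpos
    exact (ENNReal.ofReal_le_ofReal_iff hnn).mp hareale
  -- integrability of the first row
  have hrow : ∀ j : Fin 2, IntegrableOn (fun x => Dh x 0 j) Om := by
    intro j
    refine ⟨(hD 0 j).aestronglyMeasurable, ?_⟩
    rw [hasFiniteIntegral_iff_norm]
    have hle : ∫⁻ x in Om, ENNReal.ofReal ‖Dh x 0 j‖
        ≤ ∫⁻ x in Om, (ENNReal.ofReal (KIm (Dh x) ^ p) + ENNReal.ofReal |(Dh x).det|) := by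
      apply lintegral_mono_ae
      filter_upwards [hpt] with x hx
      obtain ⟨h1, h2⟩ := hx
      obtain ⟨k1, k2⟩ := KIm_facts h1 h2
      rw [← ENNReal.ofReal_add (Real.rpow_nonneg (by linarith) _) (abs_nonneg _)]
      apply ENNReal.ofReal_le_ofReal
      rw [abs_of_nonneg h1, Real.norm_eq_abs]
      have k0 : KIm (Dh x) ≤ KIm (Dh x) ^ p := by
        have := Real.rpow_le_rpow_of_exponent_le k1 hp.le
        rwa [Real.rpow_one] at this
      have k3 : Dh x 0 j ^ 2 ≤ KIm (Dh x) * (Dh x).det := by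
        fin_cases j
        · simp only [Fin.zero_eta]; nlinarith [sq_nonneg (Dh x 0 1)]
        · simp only [Fin.mk_one]; nlinarith [sq_nonneg (Dh x 0 0)]
      refine le_trans ?_ (add_le_add_left k0 _)
      apply abs_le_of_sq_le_sq
      · nlinarith [sq_nonneg (KIm (Dh x) - (Dh x).det), mul_nonneg h1 h1,
          mul_nonneg (sub_nonneg.mpr k1) h1]
      · linarith
    refine hle.trans_lt ?_
    rw [lintegral_add_right' _ (hJhm.aemeasurable.abs.ennreal_ofReal)]
    refine ENNReal.add_lt_top.mpr ⟨lt_top_iff_ne_top.mpr hTtop, ?_⟩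
    rw [hJhint]
    exact ENNReal.ofReal_lt_top
  have hfrow : ∀ j : Fin 2, IntegrableOn (fun x => Dfex s x 0 j) Om := fun j =>
    intOn_of fun x hx => Dfex_contAt hx 0 j
  -- the divergence identity
  have hcl : ContinuousOn h (closedBall ctr 1) := by rw [← closure_Om]; exact hc
  have hc0 : ContinuousOn (fun x => WithLp.ofLp (h x) 0) (closedBall ctr 1) :=
    (coord_cont 0).comp_continuousOn hcl
  have hf0 : ContinuousOn (fun x => WithLp.ofLp (fex s x) 0) (closedBall ctr 1) :=
    (coord_cont 0).comp_continuousOn fex_cont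
  have hdiv := div_lemma (w := fun x => WithLp.ofLp (h x) 0 - WithLp.ofLp (fex s x) 0)
    (hc0.sub hf0) (fun x hx => by
      rw [hbd x (frontier_Om.mpr hx)]; ring)
    (W := fun j x => Dh x 0 j - Dfex s x 0 j) (fun j => (hrow j).sub (hfrow j)) (by
      intro φ h1 h2 h3 j
      have e1 := hw φ h1 h2 h3 0 j
      have e2 := fex_weak (s := s) φ h1 h2 h3 0 j
      have hdc : Continuous (fun x => fderiv ℝ φ x (ev j)) :=
        (h1.continuous_fderiv (by simp)).clm_apply continuous_const
      obtain ⟨B, hB⟩ := h1.continuous.bounded_above_of_compact_support h2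
      have i1 : IntegrableOn (fun x => WithLp.ofLp (h x) 0 * fderiv ℝ φ x (ev j)) Om :=
        ((hc0.mul hdc.continuousOn).integrableOn_compact (isCompact_closedBall _ _)).mono_set Om_sub
      have i2 : IntegrableOn (fun x => WithLp.ofLp (fex s x) 0 * fderiv ℝ φ x (ev j)) Om :=
        ((hf0.mul hdc.continuousOn).integrableOn_compact (isCompact_closedBall _ _)).mono_set Om_sub
      have i3 : IntegrableOn (fun x => Dh x 0 j * φ x) Om := by
        refine ((hrow j).bdd_mul h1.continuous.aestronglyMeasurable (c := B)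
          (Eventually.of_forall hB)).congr (Eventually.of_forall fun x => ?_)
        simp only [mul_comm]
      have i4 : IntegrableOn (fun x => Dfex s x 0 j * φ x) Om := by
        refine ((hfrow j).bdd_mul h1.continuous.aestronglyMeasurable (c := B)
          (Eventually.of_forall hB)).congr (Eventually.of_forall fun x => ?_)
        simp only [mul_comm]
      simp only [sub_mul]
      rw [integral_sub i1 i2, integral_sub i3 i4]
      have e1' : ∫ x in Om, WithLp.ofLp (h x) 0 * fderiv ℝ φ x (ev j)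
          = - ∫ x in Om, Dh x 0 j * φ x := e1
      have e2' : ∫ x in Om, WithLp.ofLp (fex s x) 0 * fderiv ℝ φ x (ev j)
          = - ∫ x in Om, Dfex s x 0 j * φ x := e2
      rw [e1', e2']
      ring)
  -- integrability of the calibration terms
  have hV : ∀ j : Fin 2, IntegrableOn (fun x : E2 => x j / q x * (Dh x 0 j - Dfex s x 0 j)) Om := by
    intro j
    have hVc : ∀ x : E2, 0 < x 0 → ContinuousAt (fun x : E2 => x j / q x) x := fun x hx =>
      (contDiffAt_V hx j).continuousAt
    have hVm : AEStronglyMeasurable (fun x : E2 => x j / q x) (volume.restrict Om) :=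
      (intOn_of hVc).aestronglyMeasurable
    obtain ⟨B, hB⟩ := (isCompact_closedBall ctr 1).exists_bound_of_continuousOn (contOn_of hVc)
    refine ((hrow j).sub (hfrow j)).bdd_mul hVm (c := B) ?_
    filter_upwards [ae_restrict_mem hOmM] with x hx
    exact hB x (Om_sub hx)
  have hVsum : IntegrableOn (fun x : E2 => x 0 / q x * (Dh x 0 0 - Dfex s x 0 0)
      + x 1 / q x * (Dh x 0 1 - Dfex s x 0 1)) Om := (hV 0).add (hV 1)
  have hJd : IntegrableOn (fun x => (Dh x).det - (Dfex s x).det) Om := hJh.sub hJf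
  have he : IntegrableOn (fun x : E2 => 2 * p * (x 0 / q x * (Dh x 0 0 - Dfex s x 0 0)
      + x 1 / q x * (Dh x 0 1 - Dfex s x 0 1)) - p * ((Dh x).det - (Dfex s x).det)) Om :=
    (hVsum.const_mul (2 * p)).sub (hJd.const_mul p)
  have heint : 0 ≤ ∫ x in Om, (2 * p * (x 0 / q x * (Dh x 0 0 - Dfex s x 0 0)
      + x 1 / q x * (Dh x 0 1 - Dfex s x 0 1)) - p * ((Dh x).det - (Dfex s x).det)) := by
    rw [integral_sub (hVsum.const_mul (2 * p)) (hJd.const_mul p), integral_const_mul,
      integral_const_mul, hdiv, integral_sub hJh hJf]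
    have := mul_nonneg (by linarith : (0 : ℝ) ≤ p) (sub_nonneg.mpr hJle)
    linarith
  have hkap : IntegrableOn (fun x => kap s x ^ p) Om := intOn_of fun x hx => (kap_contAt hx).rpow_const (Or.inr (by linarith))
  have hsum : IntegrableOn (fun x => kap s x ^ p +
      (2 * p * (x 0 / q x * (Dh x 0 0 - Dfex s x 0 0)
      + x 1 / q x * (Dh x 0 1 - Dfex s x 0 1)) - p * ((Dh x).det - (Dfex s x).det))) Om :=
    hkap.add he
  have step1 : ∫⁻ x in Om, ENNReal.ofReal (KIm (Dfex s x) ^ p)
      ≤ ENNReal.ofReal (∫ x in Om, kap s x ^ p) := by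
    rw [ofReal_integral_eq_lintegral_ofReal hkap (Eventually.of_forall fun x =>
      Real.rpow_nonneg (by have := kap_ge_one (s := s) x; linarith) _)]
    apply lintegral_mono_ae
    filter_upwards [ae_restrict_mem hOmM] with x hx
    apply ENNReal.ofReal_le_ofReal
    exact Real.rpow_le_rpow (KIm_nonneg _) (KIm_Dfex_le (x0_pos hx)) (by linarith)
  have hKm : AEMeasurable (fun x => KIm (Dh x)) (volume.restrict Om) :=
    KIm_aemeasurable fun i j => (hD i j).aestronglyMeasurable.aemeasurable
  have hKp : AEMeasurable (fun x => KIm (Dh x) ^ p) (volume.restrict Om) := hKm.pow_const p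
  have hKnn : ∀ x, 0 ≤ KIm (Dh x) ^ p := fun x => Real.rpow_nonneg (KIm_nonneg _) _
  have hKint : IntegrableOn (fun x => KIm (Dh x) ^ p) Om := by
    refine ⟨hKp.aestronglyMeasurable, ?_⟩
    rw [hasFiniteIntegral_iff_ofReal (Eventually.of_forall hKnn)]
    exact lt_top_iff_ne_top.mpr hTtop
  have hKle : ∫ x in Om, KIm (Dh x) ^ p ≤ ∫ x in Om, kap s x ^ p := by
    have h1 : ENNReal.ofReal (∫ x in Om, KIm (Dh x) ^ p) = T := by
      rw [ofReal_integral_eq_lintegral_ofReal hKint (Eventually.of_forall hKnn)]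
    have h2 : ENNReal.ofReal (∫ x in Om, KIm (Dh x) ^ p) ≤ ENNReal.ofReal (∫ x in Om, kap s x ^ p) := by
      rw [h1]; exact hmin.trans step1
    have h3 : 0 ≤ ∫ x in Om, kap s x ^ p := integral_nonneg fun x =>
      Real.rpow_nonneg (by have := kap_ge_one (s := s) x; linarith) _
    exact (ENNReal.ofReal_le_ofReal_iff h3).mp h2
  have hdiff : ∀ᵐ x ∂(volume.restrict Om), KIm (Dh x) ^ p - (kap s x ^ p +
      (2 * p * (x 0 / q x * (Dh x 0 0 - Dfex s x 0 0)
      + x 1 / q x * (Dh x 0 1 - Dfex s x 0 1)) - p * ((Dh x).det - (Dfex s x).det))) = 0 := by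
    have hnn : 0 ≤ᵐ[volume.restrict Om] fun x => KIm (Dh x) ^ p - (kap s x ^ p +
      (2 * p * (x 0 / q x * (Dh x 0 0 - Dfex s x 0 0)
      + x 1 / q x * (Dh x 0 1 - Dfex s x 0 1)) - p * ((Dh x).det - (Dfex s x).det))) := by
      filter_upwards [ae_restrict_mem hOmM, hpt] with x hx h2
      have := pointwise hp hs (x0_pos hx) h2.1 h2.2
      simp only [Pi.zero_apply]
      linarith
    have hi : Integrable (fun x => KIm (Dh x) ^ p - (kap s x ^ p +
      (2 * p * (x 0 / q x * (Dh x 0 0 - Dfex s x 0 0)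
      + x 1 / q x * (Dh x 0 1 - Dfex s x 0 1)) - p * ((Dh x).det - (Dfex s x).det))))
      (volume.restrict Om) := hKint.sub hsum
    have h0 : ∫ x in Om, (KIm (Dh x) ^ p - (kap s x ^ p +
      (2 * p * (x 0 / q x * (Dh x 0 0 - Dfex s x 0 0)
      + x 1 / q x * (Dh x 0 1 - Dfex s x 0 1)) - p * ((Dh x).det - (Dfex s x).det)))) = 0 := by
      apply le_antisymm
      · rw [integral_sub hKint hsum, integral_add hkap he]
        linarith
      · exact integral_nonneg_of_ae hnn
    exact (integral_eq_zero_iff_of_nonneg_ae hnn hi).mp h0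
  have hDeq : ∀ᵐ x ∂(volume.restrict Om), Dh x = Dfex s x := by
    filter_upwards [ae_restrict_mem hOmM, hpt, hdiff] with x hx h2 h3
    exact pointwise_eq hp hs (x0_pos hx) h2.1 h2.2 (by linarith)
  -- equality of the maps
  have hzero : ∀ i : Fin 2, ∀ x ∈ closure Om, h x i - fex s x i = 0 := by
    intro i x hx
    have hci : ContinuousOn (fun x => WithLp.ofLp (h x) i) (closedBall ctr 1) :=
      (coord_cont i).comp_continuousOn hcl
    have hfi : ContinuousOn (fun x => WithLp.ofLp (fex s x) i) (closedBall ctr 1) :=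
      (coord_cont i).comp_continuousOn fex_cont
    refine zero_of_weak_zero (u := fun x => WithLp.ofLp (h x) i - WithLp.ofLp (fex s x) i)
      (hci.sub hfi) (fun z hz => ?_) (fun φ h1 h2 h3 j => ?_) hx
    · rw [hbd z (frontier_Om.mpr hz)]; ring
    · have e1 := hw φ h1 h2 h3 i j
      have e2 := fex_weak (s := s) φ h1 h2 h3 i j
      have e3 : ∫ x in Om, Dh x i j * φ x = ∫ x in Om, Dfex s x i j * φ x := by
        apply integral_congr_ae
        filter_upwards [hDeq] with z hz
        rw [hz]
      have hdc : Continuous (fun x => fderiv ℝ φ x (ev j)) :=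
        (h1.continuous_fderiv (by simp)).clm_apply continuous_const
      have i1 : IntegrableOn (fun x => WithLp.ofLp (h x) i * fderiv ℝ φ x (ev j)) Om :=
        ((hci.mul hdc.continuousOn).integrableOn_compact (isCompact_closedBall _ _)).mono_set Om_sub
      have i2 : IntegrableOn (fun x => WithLp.ofLp (fex s x) i * fderiv ℝ φ x (ev j)) Om :=
        ((hfi.mul hdc.continuousOn).integrableOn_compact (isCompact_closedBall _ _)).mono_set Om_sub
      simp only [sub_mul]
      rw [integral_sub i1 i2]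
      have e1' : ∫ x in Om, WithLp.ofLp (h x) i * fderiv ℝ φ x (ev j)
          = - ∫ x in Om, Dh x i j * φ x := e1
      have e2' : ∫ x in Om, WithLp.ofLp (fex s x) i * fderiv ℝ φ x (ev j)
          = - ∫ x in Om, Dfex s x i j * φ x := e2
      rw [e1', e2', e3, sub_self]
  intro x hx
  ext i
  exact sub_eq_zero.mp (hzero i x hx)

end Pool.Agent.MP_6ded3d_an.P
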